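import Mathlib

/-!
Ax–Katz divisibility modulo `p ^ 2` over the prime field, in a form adapted to counting zeros of
functions from (ι → ZMod p) to ZMod p which are polynomial of degree at most `d` (predicate `Good`).
-/

open Finset

namespace Pool.Agent.LibCubicLines.AxKatz

set_option linter.unusedSectionVars false

variable {p : ℕ} [hp : Fact p.Prime]

/-- Teichmüller-like lift modulo `p ^ 2`. -/
noncomputable def tau (a : ZMod p) : ZMod (p ^ 2) := ((a.val : ℕ) : ZMod (p ^ 2)) ^ p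

/-- reduction mod `p` -/
noncomputable def red2 : ZMod (p ^ 2) →+* ZMod p :=
  ZMod.castHom (dvd_pow_self p two_ne_zero) (ZMod p)

omit hp in
lemma pp : (p : ZMod (p ^ 2)) * p = 0 := by
  have : ((p ^ 2 : ℕ) : ZMod (p ^ 2)) = 0 := ZMod.natCast_self _
  rw [← pow_two]
  exact_mod_cast this

lemma eq_p_mul {r : ZMod (p ^ 2)} (h : red2 r = 0) : ∃ s, r = p * s := by
  have : NeZero (p ^ 2) := ⟨pow_ne_zero _ hp.out.ne_zero⟩
  have h1 : ((r.val : ℕ) : ZMod (p ^ 2)) = r := ZMod.natCast_zmod_val r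
  rw [← h1, map_natCast, ZMod.natCast_eq_zero_iff] at h
  obtain ⟨k, hk⟩ := h
  refine ⟨k, ?_⟩
  rw [← h1, hk]
  push_cast
  ring

lemma red2_p_mul (s : ZMod (p ^ 2)) : red2 ((p : ZMod (p ^ 2)) * s) = 0 := by
  rw [map_mul, map_natCast, ZMod.natCast_self, zero_mul]

lemma pow_p_congr {a b : ZMod (p ^ 2)} (h : red2 a = red2 b) : a ^ p = b ^ p := by
  have h1 : red2 (a - b) = 0 := by rw [map_sub, h, sub_self]
  obtain ⟨s, hs⟩ := eq_p_mul h1
  have h2 : (p : ZMod (p ^ 2)) ∣ a - b := ⟨s, hs⟩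
  have h3 := dvd_sub_pow_of_dvd_sub h2 1
  rw [pow_one] at h3
  have h4 : ((p : ZMod (p ^ 2)) ^ (1 + 1)) = 0 := by
    have := pp (p := p)
    rw [← pow_two] at this
    exact this
  rw [h4, zero_dvd_iff] at h3
  exact sub_eq_zero.1 h3

lemma red2_natCast_val (a : ZMod p) : red2 ((a.val : ℕ) : ZMod (p ^ 2)) = a := by
  rw [map_natCast, ZMod.natCast_zmod_val]

lemma red2_tau (a : ZMod p) : red2 (tau a) = a := by
  rw [tau, map_pow, red2_natCast_val, ZMod.pow_card]

lemma tau_mul (a b : ZMod p) : tau (a * b) = tau a * tau b := by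
  rw [tau, tau, tau, ← mul_pow]
  apply pow_p_congr
  rw [map_mul, red2_natCast_val, red2_natCast_val, red2_natCast_val]

lemma tau_pow (a : ZMod p) : tau a ^ p = tau a := by
  conv_rhs => rw [tau]
  apply pow_p_congr
  rw [red2_tau, red2_natCast_val]

variable {ι : Type*} [Fintype ι] [DecidableEq ι]

/-- monomial functions -/
noncomputable def mono (m : ι → ℕ) : (ι → ZMod p) → ZMod (p ^ 2) := fun x => ∏ i, tau (x i) ^ m i

/-- functions of degree `≤ d` in the Teichmüller coordinates -/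
noncomputable def PD (d : ℕ) : Submodule (ZMod (p ^ 2)) ((ι → ZMod p) → ZMod (p ^ 2)) :=
  Submodule.span _ {f | ∃ m : ι → ℕ, ∑ i, m i ≤ d ∧ f = mono m}

lemma mono_mul (m m' : ι → ℕ) :
    (mono m : (ι → ZMod p) → ZMod (p ^ 2)) * mono m' = mono (m + m') := by
  funext x
  simp only [mono, Pi.mul_apply, Pi.add_apply, ← Finset.prod_mul_distrib, pow_add]

lemma PD_mono {d e : ℕ} (h : d ≤ e) : (PD d : Submodule (ZMod (p ^ 2)) ((ι → ZMod p) → _)) ≤ PD e :=
  Submodule.span_mono fun _ ⟨m, hm, hf⟩ => ⟨m, hm.trans h, hf⟩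

lemma PD_mul {d e : ℕ} {f g : (ι → ZMod p) → ZMod (p ^ 2)} (hf : f ∈ PD d) (hg : g ∈ PD e) :
    f * g ∈ PD (d + e) := by
  induction hf using Submodule.span_induction with
  | mem f h =>
    obtain ⟨m, hm, rfl⟩ := h
    induction hg using Submodule.span_induction with
    | mem g h =>
      obtain ⟨m', hm', rfl⟩ := h
      rw [mono_mul]
      refine Submodule.subset_span ⟨m + m', ?_, rfl⟩
      simp only [Pi.add_apply, Finset.sum_add_distrib]
      omega
    | zero => rw [mul_zero]; exact Submodule.zero_mem _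
    | add a b _ _ ha hb => rw [mul_add]; exact Submodule.add_mem _ ha hb
    | smul c a _ ha => rw [mul_smul_comm]; exact Submodule.smul_mem _ _ ha
  | zero => rw [zero_mul]; exact Submodule.zero_mem _
  | add a b _ _ ha hb => rw [add_mul]; exact Submodule.add_mem _ ha hb
  | smul c a _ ha => rw [smul_mul_assoc]; exact Submodule.smul_mem _ _ ha

lemma PD_const (c : ZMod (p ^ 2)) : (fun _ => c : (ι → ZMod p) → ZMod (p ^ 2)) ∈ PD (ι := ι) 0 := by
  have h1 : (mono (0 : ι → ℕ) : (ι → ZMod p) → ZMod (p ^ 2)) ∈ PD (ι := ι) (p := p) 0 :=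
    Submodule.subset_span ⟨0, by simp, rfl⟩
  have h2 := Submodule.smul_mem _ c h1
  convert h2 using 1
  funext x
  simp [mono]

lemma PD_one : (1 : (ι → ZMod p) → ZMod (p ^ 2)) ∈ PD (ι := ι) 0 := PD_const 1

lemma PD_pow {d : ℕ} {f : (ι → ZMod p) → ZMod (p ^ 2)} (hf : f ∈ PD d) (k : ℕ) :
    f ^ k ∈ PD (ι := ι) (k * d) := by
  induction k with
  | zero => rw [pow_zero, zero_mul]; exact PD_one
  | succ k ih =>
    have h := PD_mul ih hf
    rw [← pow_succ] at h
    exact PD_mono (le_of_eq (Nat.succ_mul k d).symm) h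

lemma sum_tau_pow {k : ℕ} (hk : k < p - 1) : ∃ s, ∑ a : ZMod p, tau a ^ k = p * s := by
  apply eq_p_mul
  rw [map_sum]
  simp only [map_pow, red2_tau]
  apply FiniteField.sum_pow_lt_card_sub_one
  rw [ZMod.card]
  exact hk

lemma sum_mono (m : ι → ℕ) :
    ∑ x : ι → ZMod p, mono m x = ∏ i, ∑ a : ZMod p, tau a ^ m i := by
  rw [Finset.prod_univ_sum]
  simp only [mono, Fintype.piFinset_univ]

lemma prod_div {α : Type*} [Fintype α] [DecidableEq α] (F : α → ZMod (p ^ 2)) (i : α)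
    (h : ∃ s, F i = (p : ZMod (p ^ 2)) * s) :
    ∃ s, ∏ i, F i = (p : ZMod (p ^ 2)) * s := by
  obtain ⟨s, hs⟩ := h
  rw [← Finset.mul_prod_erase _ _ (Finset.mem_univ i), hs]
  exact ⟨_, mul_assoc _ _ _⟩

lemma prod_div2 {α : Type*} [Fintype α] [DecidableEq α] (F : α → ZMod (p ^ 2)) (i j : α) (hij : i ≠ j)
    (h : ∃ s, F i = (p : ZMod (p ^ 2)) * s) (h' : ∃ s, F j = (p : ZMod (p ^ 2)) * s) :
    ∏ i, F i = 0 := by
  obtain ⟨s, hs⟩ := h
  obtain ⟨t, ht⟩ := h'
  rw [← Finset.mul_prod_erase _ _ (Finset.mem_univ i),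
    ← Finset.mul_prod_erase _ _ (Finset.mem_erase.2 ⟨hij.symm, Finset.mem_univ j⟩), hs, ht]
  have : ∀ a b c d : ZMod (p ^ 2), a * b * (a * c * d) = (a * a) * (b * c * d) := by
    intros; ring
  rw [this, pp, zero_mul]

lemma sum_PD_dvd {d : ℕ} {f : (ι → ZMod p) → ZMod (p ^ 2)} (hf : f ∈ PD d)
    (hd : d < (p - 1) * Fintype.card ι) : ∃ s, ∑ x, f x = p * s := by
  induction hf using Submodule.span_induction with
  | mem f h =>
    obtain ⟨m, hm, rfl⟩ := h
    rw [sum_mono]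
    by_cases h : ∀ i, p - 1 ≤ m i
    · exfalso
      have : (p - 1) * Fintype.card ι ≤ ∑ i, m i := by
        calc (p - 1) * Fintype.card ι = ∑ _i : ι, (p - 1) := by
              rw [Finset.sum_const, Finset.card_univ, smul_eq_mul, mul_comm]
          _ ≤ _ := Finset.sum_le_sum fun i _ => h i
      omega
    · push Not at h
      obtain ⟨i, hi⟩ := h
      exact prod_div _ i (sum_tau_pow hi)
  | zero => exact ⟨0, by simp⟩
  | add a b _ _ ha hb =>
    obtain ⟨s, hs⟩ := ha
    obtain ⟨t, ht⟩ := hb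
    refine ⟨s + t, ?_⟩
    simp only [Pi.add_apply, Finset.sum_add_distrib, hs, ht]
    ring
  | smul c a _ ha =>
    obtain ⟨s, hs⟩ := ha
    refine ⟨c * s, ?_⟩
    simp only [Pi.smul_apply, smul_eq_mul, ← Finset.mul_sum, hs]
    ring

lemma sum_PD_zero {d : ℕ} {f : (ι → ZMod p) → ZMod (p ^ 2)} (hf : f ∈ PD d)
    (hd : d < (p - 1) * (Fintype.card ι - 1)) : ∑ x, f x = 0 := by
  induction hf using Submodule.span_induction with
  | mem f h =>
    obtain ⟨m, hm, rfl⟩ := h
    rw [sum_mono]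
    by_cases h : ∀ i j, i ≠ j → ¬ (m i < p - 1 ∧ m j < p - 1)
    · exfalso
      have h1 : (p - 1) * (Fintype.card ι - 1) ≤ ∑ i, m i := by
        by_cases h2 : ∃ i, m i < p - 1
        · obtain ⟨i, hi⟩ := h2
          calc (p - 1) * (Fintype.card ι - 1) = ∑ _i ∈ Finset.univ.erase i, (p - 1) := by
                rw [Finset.sum_const, Finset.card_erase_of_mem (Finset.mem_univ i),
                  Finset.card_univ, smul_eq_mul, mul_comm]
            _ ≤ ∑ j ∈ Finset.univ.erase i, m j := by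
                refine Finset.sum_le_sum fun j hj => ?_
                have := h i j (Finset.ne_of_mem_erase hj).symm
                by_contra h3
                exact this ⟨hi, by omega⟩
            _ ≤ _ := Finset.sum_le_sum_of_subset (Finset.erase_subset _ _)
        · push Not at h2
          calc (p - 1) * (Fintype.card ι - 1) ≤ (p - 1) * Fintype.card ι :=
                Nat.mul_le_mul_left _ (Nat.sub_le _ _)
            _ = ∑ _i : ι, (p - 1) := by
                rw [Finset.sum_const, Finset.card_univ, smul_eq_mul, mul_comm]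
            _ ≤ _ := Finset.sum_le_sum fun i _ => h2 i
      omega
    · push Not at h
      obtain ⟨i, j, hij, hi, hj⟩ := h
      exact prod_div2 _ i j hij (sum_tau_pow hi) (sum_tau_pow hj)
  | zero => simp
  | add a b _ _ ha hb =>
    simp only [Pi.add_apply, Finset.sum_add_distrib, ha, hb, add_zero]
  | smul c a _ ha =>
    simp only [Pi.smul_apply, smul_eq_mul, ← Finset.mul_sum, ha, mul_zero]

/-- `f` is a polynomial function of degree `≤ d` (with a good lift). -/
def Good (d : ℕ) (f : (ι → ZMod p) → ZMod p) : Prop :=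
  ∃ Φ ∈ PD (ι := ι) (p := p) d, ∃ g ∈ PD (ι := ι) (p := p) (p * d),
    (∀ x, red2 (Φ x) = f x) ∧ ∀ x, Φ x ^ p = Φ x + p * g x

lemma Good.mono {d e : ℕ} (h : d ≤ e) {f : (ι → ZMod p) → ZMod p} (hf : Good d f) : Good e f := by
  obtain ⟨Φ, hΦ, g, hg, h1, h2⟩ := hf
  exact ⟨Φ, PD_mono h hΦ, g, PD_mono (Nat.mul_le_mul_left _ h) hg, h1, h2⟩

lemma Good.add {d : ℕ} {f g : (ι → ZMod p) → ZMod p} (hf : Good d f) (hg : Good d g) :
    Good d (fun x => f x + g x) := by
  obtain ⟨Φ, hΦ, u, hu, h1, h2⟩ := hf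
  obtain ⟨Ψ, hΨ, v, hv, h3, h4⟩ := hg
  refine ⟨Φ + Ψ, Submodule.add_mem _ hΦ hΨ,
    u + v + ∑ k ∈ Ioo 0 p, ((p.choose k / p : ℕ) : ZMod (p ^ 2)) • (Φ ^ k * Ψ ^ (p - k)), ?_, ?_, ?_⟩
  · refine Submodule.add_mem _ (Submodule.add_mem _ hu hv) (Submodule.sum_mem _ fun k hk => ?_)
    refine Submodule.smul_mem _ _ ?_
    have := PD_mul (PD_pow hΦ k) (PD_pow hΨ (p - k))
    rw [Finset.mem_Ioo] at hk
    rwa [← Nat.add_mul, Nat.add_sub_cancel' hk.2.le] at this
  · intro x
    rw [Pi.add_apply, map_add, h1, h3]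
  · intro x
    rw [Pi.add_apply, add_pow_prime_eq' hp.out, h2, h4]
    simp only [Pi.add_apply, Finset.sum_apply, Pi.smul_apply, Pi.mul_apply, Pi.pow_apply,
      smul_eq_mul]
    have : ∑ k ∈ Ioo 0 p, Φ x ^ k * Ψ x ^ (p - k) * ((p.choose k / p : ℕ) : ZMod (p ^ 2))
        = ∑ k ∈ Ioo 0 p, ((p.choose k / p : ℕ) : ZMod (p ^ 2)) * (Φ x ^ k * Ψ x ^ (p - k)) :=
      Finset.sum_congr rfl fun k _ => mul_comm _ _
    rw [this]
    ring

lemma Good.mul {d e : ℕ} {f g : (ι → ZMod p) → ZMod p} (hf : Good d f) (hg : Good e g) :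
    Good (d + e) (fun x => f x * g x) := by
  obtain ⟨Φ, hΦ, u, hu, h1, h2⟩ := hf
  obtain ⟨Ψ, hΨ, v, hv, h3, h4⟩ := hg
  refine ⟨Φ * Ψ, PD_mul hΦ hΨ, u * Ψ + Φ * v, ?_, ?_, ?_⟩
  · refine Submodule.add_mem _ ?_ ?_
    · refine PD_mono ?_ (PD_mul hu hΨ)
      have := hp.out.one_lt
      nlinarith
    · refine PD_mono ?_ (PD_mul hΦ hv)
      have := hp.out.one_lt
      nlinarith
  · intro x
    rw [Pi.mul_apply, map_mul, h1, h3]
  · intro x
    rw [Pi.mul_apply, mul_pow, h2, h4]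
    simp only [Pi.add_apply, Pi.mul_apply]
    have h5 := pp (p := p)
    linear_combination (u x * v x) * h5

lemma Good.const (c : ZMod p) : Good 0 (fun _ : ι → ZMod p => c) := by
  refine ⟨fun _ => tau c, PD_const _, 0, Submodule.zero_mem _, fun _ => red2_tau c, fun x => ?_⟩
  rw [tau_pow]
  simp

lemma Good.coord (i : ι) : Good 1 (fun x : ι → ZMod p => x i) := by
  refine ⟨fun x => tau (x i), Submodule.subset_span ⟨Pi.single i 1, by simp, ?_⟩, 0,
    Submodule.zero_mem _, fun _ => red2_tau _, fun x => ?_⟩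
  · funext x
    rw [AxKatz.mono, Finset.prod_eq_single i]
    · simp
    · intro j _ hj
      simp [Pi.single_eq_of_ne hj]
    · simp
  · rw [tau_pow]
    simp

lemma Good.pow {d : ℕ} {f : (ι → ZMod p) → ZMod p} (hf : Good d f) (k : ℕ) :
    Good (k * d) (fun x => f x ^ k) := by
  induction k with
  | zero => simpa using Good.const (ι := ι) (1 : ZMod p)
  | succ k ih =>
    have := ih.mul hf
    rw [Nat.succ_mul]
    simpa [pow_succ] using this

lemma Good.sum {α : Type*} {d : ℕ} (s : Finset α) (f : α → (ι → ZMod p) → ZMod p)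
    (h : ∀ a ∈ s, Good d (f a)) : Good d (fun x => ∑ a ∈ s, f a x) := by
  classical
  induction s using Finset.induction_on with
  | empty => simpa using (Good.const (ι := ι) (0 : ZMod p)).mono (Nat.zero_le d)
  | insert a s ha ih =>
    have h1 := (h a (Finset.mem_insert_self _ _)).add
      (ih fun b hb => h b (Finset.mem_insert_of_mem hb))
    simpa [Finset.sum_insert ha] using h1

/-- The indicator of the set `S` is, modulo `p ^ 2`, of the form `A + p B` with degree bounds. -/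
def Ind (e D : ℕ) (S : (ι → ZMod p) → Prop) : Prop :=
  ∃ A ∈ PD (ι := ι) (p := p) e, ∃ B ∈ PD (ι := ι) (p := p) D,
    (∀ x, S x → A x + p * B x = 1) ∧ (∀ x, ¬ S x → A x + p * B x = 0)

lemma add_mul_pow (a b : ZMod (p ^ 2)) (n : ℕ) :
    (a + (p : ZMod (p ^ 2)) * b) ^ (n + 1) =
      a ^ (n + 1) + ((n : ZMod (p ^ 2)) + 1) * a ^ n * ((p : ZMod (p ^ 2)) * b) := by
  induction n with
  | zero => simp
  | succ n ih =>
    rw [pow_succ _ (n + 1), ih]
    push_cast
    have h5 := pp (p := p)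
    linear_combination ((n + 1) * a ^ n * b ^ 2) * h5

lemma Good.ind {d : ℕ} {f : (ι → ZMod p) → ZMod p} (hf : Good d f) :
    Ind ((p - 1) * d) ((p - 1) * (2 * d)) (fun x => f x = 0) := by
  obtain ⟨Φ, hΦ, g, hg, h1, h2⟩ := hf
  obtain ⟨q, hq⟩ : ∃ q, p = q + 2 := ⟨p - 2, by have := hp.out.two_le; omega⟩
  have hq1 : p - 1 = q + 1 := by omega
  have key : ∀ x, (Φ x ^ p) ^ (p - 1) = Φ x ^ (q + 1) - (p : ZMod (p ^ 2)) * (Φ x ^ q * g x) := by
    intro x
    rw [h2, hq1, add_mul_pow]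
    have h5 := pp (p := p)
    have h6 : (p : ZMod (p ^ 2)) = q + 2 := by
      exact_mod_cast congrArg (Nat.cast : ℕ → ZMod (p ^ 2)) hq
    have h7 : (q : ZMod (p ^ 2)) + 1 = p - 1 := by rw [h6]; ring
    rw [h7]
    linear_combination (Φ x ^ q * g x) * h5
  refine ⟨1 - Φ ^ (q + 1), ?_, Φ ^ q * g, ?_, ?_, ?_⟩
  · refine Submodule.sub_mem _ (PD_mono (Nat.zero_le _) PD_one) ?_
    rw [hq1]
    exact PD_pow hΦ _
  · refine PD_mono ?_ (PD_mul (PD_pow hΦ q) hg)
    rw [hq1]
    nlinarith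
  · intro x hx
    have h3 : Φ x ^ p = 0 := by
      have : red2 (Φ x) = red2 0 := by rw [h1, hx, map_zero]
      rw [pow_p_congr this, zero_pow hp.out.ne_zero]
    have h4 := key x
    rw [h3, hq1, zero_pow (Nat.succ_ne_zero q)] at h4
    simp only [Pi.sub_apply, Pi.one_apply, Pi.pow_apply, Pi.mul_apply]
    linear_combination h4
  · intro x hx
    have h3 : (Φ x ^ p) ^ (p - 1) = 1 := by
      rw [← pow_mul, mul_comm, pow_mul]
      have : red2 (Φ x ^ (p - 1)) = red2 1 := by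
        rw [map_pow, h1, map_one]
        exact ZMod.pow_card_sub_one_eq_one hx
      rw [pow_p_congr this, one_pow]
    have h4 := key x
    rw [h3] at h4
    simp only [Pi.sub_apply, Pi.one_apply, Pi.pow_apply, Pi.mul_apply]
    linear_combination h4

lemma Ind.and {e D e' D' : ℕ} {S S' : (ι → ZMod p) → Prop} (h : Ind e D S) (h' : Ind e' D' S') :
    Ind (e + e') (max (e + D') (D + e')) (fun x => S x ∧ S' x) := by
  obtain ⟨A, hA, B, hB, h1, h2⟩ := h
  obtain ⟨A', hA', B', hB', h1', h2'⟩ := h'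
  have h5 := pp (p := p)
  have key : ∀ x, A x * A' x + p * (A x * B' x + B x * A' x)
      = (A x + p * B x) * (A' x + p * B' x) := by
    intro x
    linear_combination (-(B x * B' x)) * h5
  refine ⟨A * A', PD_mul hA hA', A * B' + B * A', Submodule.add_mem _
    (PD_mono (le_max_left _ _) (PD_mul hA hB')) (PD_mono (le_max_right _ _) (PD_mul hB hA')), ?_, ?_⟩
  · rintro x ⟨hx, hx'⟩
    simp only [Pi.mul_apply, Pi.add_apply, key, h1 x hx, h1' x hx', one_mul]
  · intro x hx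
    simp only [Pi.mul_apply, Pi.add_apply, key]
    by_cases h3 : S x
    · rw [h2' x (fun h4 => hx ⟨h3, h4⟩), mul_zero]
    · rw [h2 x h3, zero_mul]

lemma Ind.count {e D : ℕ} {S : (ι → ZMod p) → Prop} [DecidablePred S] (h : Ind e D S)
    (he : e < (p - 1) * (Fintype.card ι - 1)) (hD : D < (p - 1) * Fintype.card ι) :
    p ^ 2 ∣ (Finset.univ.filter S).card := by
  obtain ⟨A, hA, B, hB, h1, h2⟩ := h
  rw [← ZMod.natCast_eq_zero_iff]
  have h3 : ((Finset.univ.filter S).card : ZMod (p ^ 2)) = ∑ x, (A x + p * B x) := by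
    rw [Finset.card_filter]
    push_cast
    refine Finset.sum_congr rfl fun x _ => ?_
    split_ifs with hx
    · rw [h1 x hx]
    · rw [h2 x hx]
  rw [h3, Finset.sum_add_distrib, sum_PD_zero hA he, ← Finset.mul_sum]
  obtain ⟨s, hs⟩ := sum_PD_dvd hB hD
  rw [hs, ← mul_assoc, pp, zero_mul, zero_add]

end Pool.Agent.LibCubicLines.AxKatz
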