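import Mathlib

/-!
Common interface for MP_35f46d_nt (rational lines on p-adic cubic hypersurfaces).
A cubic form with its polarizations:  G (s x + t y) = s^3 G x + s^2 t D x y + s t^2 D y x + t^3 G y.
-/

namespace Pool.Agent.LibCubicLines

/-- A cubic form `G` on an `R`-module `V` together with its polarizations:
`D x y` is the coefficient of `s^2 t` in `G (s x + t y)` and `T x y z` the coefficient
of `s t r` in `G (s x + t y + r z)`. -/
structure Cubic (R V : Type*) [CommRing R] [AddCommGroup V] [Module R V] where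
  G : V → R
  D : V → V → R
  T : V → V → V → R
  G_add : ∀ x y, G (x + y) = G x + D x y + D y x + G y
  G_smul : ∀ (a : R) x, G (a • x) = a ^ 3 * G x
  D_add_right : ∀ x y z, D x (y + z) = D x y + D x z
  D_smul_right : ∀ (a : R) x y, D x (a • y) = a * D x y
  D_add_left : ∀ x y z, D (x + y) z = D x z + D y z + T x y z
  D_smul_left : ∀ (a : R) x y, D (a • x) y = a ^ 2 * D x y
  T_add_left : ∀ x x' y z, T (x + x') y z = T x y z + T x' y z
  T_smul_left : ∀ (a : R) x y z, T (a • x) y z = a * T x y z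
  T_swap12 : ∀ x y z, T x y z = T y x z
  T_swap23 : ∀ x y z, T x y z = T x z y
  D_self : ∀ x, D x x = 3 * G x
  T_self : ∀ x y, T x x y = 2 * D x y

namespace Cubic

variable {R V : Type*} [CommRing R] [AddCommGroup V] [Module R V] (C : Cubic R V)

lemma T_add_mid (x y y' z : V) : C.T x (y + y') z = C.T x y z + C.T x y' z := by
  rw [C.T_swap12, C.T_add_left, C.T_swap12 y, C.T_swap12 y']

lemma T_smul_mid (a : R) (x y z : V) : C.T x (a • y) z = a * C.T x y z := by
  rw [C.T_swap12, C.T_smul_left, C.T_swap12 y]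

lemma T_add_right (x y z z' : V) : C.T x y (z + z') = C.T x y z + C.T x y z' := by
  rw [C.T_swap23, C.T_add_mid, C.T_swap23 x z, C.T_swap23 x z']

lemma T_smul_right (a : R) (x y z : V) : C.T x y (a • z) = a * C.T x y z := by
  rw [C.T_swap23, C.T_smul_mid, C.T_swap23 x z]

lemma G_zero : C.G 0 = 0 := by
  have := C.G_smul 0 0
  simpa using this

lemma D_zero_left (y : V) : C.D 0 y = 0 := by
  have := C.D_smul_left 0 0 y
  simpa using this

lemma D_zero_right (x : V) : C.D x 0 = 0 := by
  have := C.D_smul_right 0 x 0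
  simpa using this

lemma T_zero_left (y z : V) : C.T 0 y z = 0 := by
  have := C.T_smul_left 0 0 y z
  simpa using this

lemma T_zero_mid (x z : V) : C.T x 0 z = 0 := by
  rw [C.T_swap12, C.T_zero_left]

lemma T_zero_right (x y : V) : C.T x y 0 = 0 := by
  rw [C.T_swap23, C.T_zero_mid]

lemma G_lin (s t : R) (u w : V) :
    C.G (s • u + t • w) = s ^ 3 * C.G u + s ^ 2 * t * C.D u w + s * t ^ 2 * C.D w u
      + t ^ 3 * C.G w := by
  rw [C.G_add, C.G_smul, C.G_smul, C.D_smul_left, C.D_smul_left, C.D_smul_right, C.D_smul_right]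
  ring

/-- `D x ·` as a linear form. -/
def DL (x : V) : V →ₗ[R] R where
  toFun y := C.D x y
  map_add' := C.D_add_right x
  map_smul' a y := by simpa using C.D_smul_right a x y

@[simp] lemma DL_apply (x y : V) : C.DL x y = C.D x y := rfl

/-- `T x y ·` as a linear form. -/
def TL (x y : V) : V →ₗ[R] R where
  toFun z := C.T x y z
  map_add' := C.T_add_right x y
  map_smul' a z := by simpa using C.T_smul_right a x y z

@[simp] lemma TL_apply (x y z : V) : C.TL x y z = C.T x y z := rfl

/-- pull-back along a linear map -/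
def comap {V' : Type*} [AddCommGroup V'] [Module R V'] (f : V' →ₗ[R] V) : Cubic R V' where
  G x := C.G (f x)
  D x y := C.D (f x) (f y)
  T x y z := C.T (f x) (f y) (f z)
  G_add x y := by rw [map_add, C.G_add]
  G_smul a x := by rw [map_smul, C.G_smul]
  D_add_right x y z := by rw [map_add, C.D_add_right]
  D_smul_right a x y := by rw [map_smul, C.D_smul_right]
  D_add_left x y z := by rw [map_add, C.D_add_left]
  D_smul_left a x y := by rw [map_smul, C.D_smul_left]
  T_add_left x x' y z := by rw [map_add, C.T_add_left]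
  T_smul_left a x y z := by rw [map_smul, C.T_smul_left]
  T_swap12 x y z := C.T_swap12 _ _ _
  T_swap23 x y z := C.T_swap23 _ _ _
  D_self x := C.D_self _
  T_self x y := C.T_self _ _

/-- `u, w` span an isotropic subspace (as polynomial identity). -/
def IsLine (u w : V) : Prop := C.G u = 0 ∧ C.D u w = 0 ∧ C.D w u = 0 ∧ C.G w = 0

/-- nonsingular isotropic pair: the differential of the four coefficient functions is onto. -/
def IsSmoothLine (u w : V) : Prop := C.IsLine u w ∧
  ∀ a b c d : R, ∃ η δ : V, C.D u η = a ∧ C.T u w η + C.D u δ = b ∧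
    C.D w η + C.T u w δ = c ∧ C.D w δ = d

/-- the form vanishes on a subspace, as a polynomial -/
def VanishOn (W : Submodule R V) : Prop :=
  ∀ x ∈ W, ∀ y ∈ W, ∀ z ∈ W, C.G x = 0 ∧ C.D x y = 0 ∧ C.T x y z = 0

/-- the vertex (radical) of the form -/
def vert : Submodule R V where
  carrier := {v | C.G v = 0 ∧ ∀ x, C.D v x = 0 ∧ C.D x v = 0}
  zero_mem' := ⟨C.G_zero, fun x => ⟨C.D_zero_left x, C.D_zero_right x⟩⟩
  add_mem' := by
    rintro a b ⟨ha, ha'⟩ ⟨hb, hb'⟩
    have hT : ∀ x y, C.T x y b = 0 := by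
      intro x y
      have h := C.D_add_left x y b
      rw [(hb' _).2, (hb' _).2, (hb' _).2] at h
      simpa using h.symm
    refine ⟨?_, fun x => ⟨?_, ?_⟩⟩
    · rw [C.G_add, ha, hb, (ha' b).1, (ha' b).2]; ring
    · rw [C.D_add_left, (ha' x).1, (hb' x).1, C.T_swap23, hT]; ring
    · rw [C.D_add_right, (ha' x).2, (hb' x).2]; ring
  smul_mem' := by
    rintro c a ⟨ha, ha'⟩
    refine ⟨?_, fun x => ⟨?_, ?_⟩⟩
    · rw [C.G_smul, ha]; ring
    · rw [C.D_smul_left, (ha' x).1]; ring
    · rw [C.D_smul_right, (ha' x).2]; ring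

lemma mem_vert {v : V} : v ∈ C.vert ↔ C.G v = 0 ∧ ∀ x, C.D v x = 0 ∧ C.D x v = 0 := Iff.rfl

end Cubic

/-- The cubic form with coefficient tensor `a`. -/
def ofTensor {R : Type*} [CommRing R] {n : ℕ} (a : Fin n → Fin n → Fin n → R) :
    Cubic R (Fin n → R) where
  G x := ∑ i, ∑ j, ∑ k, a i j k * (x i * x j * x k)
  D x y := ∑ i, ∑ j, ∑ k, a i j k * (x i * x j * y k + x i * y j * x k + y i * x j * x k)
  T x y z := ∑ i, ∑ j, ∑ k, a i j k * (x i * y j * z k + x i * z j * y k + y i * x j * z k
    + y i * z j * x k + z i * x j * y k + z i * y j * x k)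
  G_add x y := by
    simp only [← Finset.sum_add_distrib, Pi.add_apply]
    refine Finset.sum_congr rfl fun i _ => Finset.sum_congr rfl fun j _ =>
      Finset.sum_congr rfl fun k _ => ?_
    ring
  G_smul c x := by
    simp only [Finset.mul_sum, Pi.smul_apply, smul_eq_mul]
    refine Finset.sum_congr rfl fun i _ => Finset.sum_congr rfl fun j _ =>
      Finset.sum_congr rfl fun k _ => ?_
    ring
  D_add_right x y z := by
    simp only [← Finset.sum_add_distrib, Pi.add_apply]
    refine Finset.sum_congr rfl fun i _ => Finset.sum_congr rfl fun j _ =>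
      Finset.sum_congr rfl fun k _ => ?_
    ring
  D_smul_right c x y := by
    simp only [Finset.mul_sum, Pi.smul_apply, smul_eq_mul]
    refine Finset.sum_congr rfl fun i _ => Finset.sum_congr rfl fun j _ =>
      Finset.sum_congr rfl fun k _ => ?_
    ring
  D_add_left x y z := by
    simp only [← Finset.sum_add_distrib, Pi.add_apply]
    refine Finset.sum_congr rfl fun i _ => Finset.sum_congr rfl fun j _ =>
      Finset.sum_congr rfl fun k _ => ?_
    ring
  D_smul_left c x y := by
    simp only [Finset.mul_sum, Pi.smul_apply, smul_eq_mul]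
    refine Finset.sum_congr rfl fun i _ => Finset.sum_congr rfl fun j _ =>
      Finset.sum_congr rfl fun k _ => ?_
    ring
  T_add_left x x' y z := by
    simp only [← Finset.sum_add_distrib, Pi.add_apply]
    refine Finset.sum_congr rfl fun i _ => Finset.sum_congr rfl fun j _ =>
      Finset.sum_congr rfl fun k _ => ?_
    ring
  T_smul_left c x y z := by
    simp only [Finset.mul_sum, Pi.smul_apply, smul_eq_mul]
    refine Finset.sum_congr rfl fun i _ => Finset.sum_congr rfl fun j _ =>
      Finset.sum_congr rfl fun k _ => ?_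
    ring
  T_swap12 x y z := by
    refine Finset.sum_congr rfl fun i _ => Finset.sum_congr rfl fun j _ =>
      Finset.sum_congr rfl fun k _ => ?_
    ring
  T_swap23 x y z := by
    refine Finset.sum_congr rfl fun i _ => Finset.sum_congr rfl fun j _ =>
      Finset.sum_congr rfl fun k _ => ?_
    ring
  D_self x := by
    simp only [Finset.mul_sum]
    refine Finset.sum_congr rfl fun i _ => Finset.sum_congr rfl fun j _ =>
      Finset.sum_congr rfl fun k _ => ?_
    ring
  T_self x y := by
    simp only [Finset.mul_sum]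
    refine Finset.sum_congr rfl fun i _ => Finset.sum_congr rfl fun j _ =>
      Finset.sum_congr rfl fun k _ => ?_
    ring

section padic

variable {p : ℕ} [hp : Fact p.Prime] {n : ℕ}

/-- coordinatewise reduction modulo `p` -/
noncomputable def red (x : Fin n → ℤ_[p]) : Fin n → ZMod p := fun i => PadicInt.toZMod (x i)

/-- An integral cubic form is reduced: whenever it is divisible by `p ^ r` on the sublattice
of vectors whose reduction lies in `W`, we have `n r ≤ 3 codim W`. -/
def Reduced (C : Cubic ℤ_[p] (Fin n → ℤ_[p])) : Prop :=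
  ∀ (W : Submodule (ZMod p) (Fin n → ZMod p)) (r : ℕ),
    (∀ x y z : Fin n → ℤ_[p], red x ∈ W → red y ∈ W → red z ∈ W →
      (p : ℤ_[p]) ^ r ∣ C.G x ∧ (p : ℤ_[p]) ^ r ∣ C.D x y ∧ (p : ℤ_[p]) ^ r ∣ C.T x y z) →
    n * r ≤ 3 * (n - Module.finrank (ZMod p) W)

/-- no isotropic pair which is linearly independent modulo `p` -/
def NoLine (C : Cubic ℤ_[p] (Fin n → ℤ_[p])) : Prop :=
  ∀ u w : Fin n → ℤ_[p], LinearIndependent (ZMod p) ![red u, red w] → ¬ C.IsLine u w

lemma red_add (x y : Fin n → ℤ_[p]) : red (x + y) = red x + red y := by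
  funext i; simp [red]

lemma red_smul (a : ℤ_[p]) (x : Fin n → ℤ_[p]) :
    red (a • x) = PadicInt.toZMod a • red x := by
  funext i; simp [red]

lemma red_zero : red (0 : Fin n → ℤ_[p]) = 0 := by
  funext i; simp [red]

lemma toZMod_eq_zero_iff (x : ℤ_[p]) : PadicInt.toZMod x = 0 ↔ (p : ℤ_[p]) ∣ x := by
  have h : PadicInt.toZMod x = 0 ↔ x ∈ RingHom.ker (PadicInt.toZMod (p := p)) := Iff.rfl
  rw [h, PadicInt.ker_toZMod, PadicInt.maximalIdeal_eq_span_p, Ideal.mem_span_singleton]

lemma red_eq_zero_iff (x : Fin n → ℤ_[p]) : red x = 0 ↔ ∃ y : Fin n → ℤ_[p], x = (p : ℤ_[p]) • y := by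
  constructor
  · intro h
    have h1 : ∀ i, (p : ℤ_[p]) ∣ x i := fun i => (toZMod_eq_zero_iff _).1 (congrFun h i)
    choose y hy using h1
    exact ⟨y, funext hy⟩
  · rintro ⟨y, rfl⟩
    rw [red_smul]
    simp

lemma red_eq_iff (x y : Fin n → ℤ_[p]) :
    red x = red y ↔ ∃ z : Fin n → ℤ_[p], x = y + (p : ℤ_[p]) • z := by
  constructor
  · intro h
    have h1 : red (x - y) = 0 := by
      have : x = (x - y) + y := by abel
      rw [this, red_add] at h
      simpa using h
    obtain ⟨z, hz⟩ := (red_eq_zero_iff _).1 h1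
    exact ⟨z, by rw [← hz]; abel⟩
  · rintro ⟨z, rfl⟩
    rw [red_add, (red_eq_zero_iff _).2 ⟨z, rfl⟩, add_zero]

/-- a lift of a vector over `ZMod p` -/
noncomputable def lift (x : Fin n → ZMod p) : Fin n → ℤ_[p] := fun i => ((x i).val : ℤ_[p])

@[simp] lemma red_lift (x : Fin n → ZMod p) : red (lift x) = x := by
  funext i
  simp [red, lift]

lemma red_surjective : Function.Surjective (red (p := p) (n := n)) := fun x => ⟨lift x, red_lift x⟩

variable (C : Cubic ℤ_[p] (Fin n → ℤ_[p]))

lemma toZMod_p : PadicInt.toZMod ((p : ℤ_[p])) = 0 := by simp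

lemma modG (x y : Fin n → ℤ_[p]) (h : red x = red y) :
    PadicInt.toZMod (C.G x) = PadicInt.toZMod (C.G y) := by
  obtain ⟨z, rfl⟩ := (red_eq_iff _ _).1 h
  rw [C.G_add, C.G_smul, C.D_smul_left, C.D_smul_right]
  simp

lemma modD (x y x' y' : Fin n → ℤ_[p]) (h : red x = red x') (h' : red y = red y') :
    PadicInt.toZMod (C.D x y) = PadicInt.toZMod (C.D x' y') := by
  obtain ⟨z, rfl⟩ := (red_eq_iff _ _).1 h
  obtain ⟨w, rfl⟩ := (red_eq_iff _ _).1 h'
  rw [C.D_add_left, C.D_add_right, C.D_smul_right, C.D_smul_left, C.T_smul_mid]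
  simp

lemma modT (x y z x' y' z' : Fin n → ℤ_[p]) (h : red x = red x') (h' : red y = red y')
    (h'' : red z = red z') :
    PadicInt.toZMod (C.T x y z) = PadicInt.toZMod (C.T x' y' z') := by
  obtain ⟨a, rfl⟩ := (red_eq_iff _ _).1 h
  obtain ⟨b, rfl⟩ := (red_eq_iff _ _).1 h'
  obtain ⟨c, rfl⟩ := (red_eq_iff _ _).1 h''
  rw [C.T_add_left, C.T_add_mid, C.T_add_right, C.T_smul_left, C.T_smul_mid, C.T_smul_right]
  simp

/-- reduction modulo `p` of an integral cubic form -/
noncomputable def modp : Cubic (ZMod p) (Fin n → ZMod p) where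
  G x := PadicInt.toZMod (C.G (lift x))
  D x y := PadicInt.toZMod (C.D (lift x) (lift y))
  T x y z := PadicInt.toZMod (C.T (lift x) (lift y) (lift z))
  G_add x y := by
    rw [modG C (lift (x + y)) (lift x + lift y) (by simp [red_add]), C.G_add]
    simp
  G_smul a x := by
    rw [modG C (lift (a • x)) (((a.val : ℕ) : ℤ_[p]) • lift x) (by simp [red_smul]), C.G_smul]
    simp
  D_add_right x y z := by
    rw [modD C _ (lift (y + z)) (lift x) (lift y + lift z) rfl (by simp [red_add]), C.D_add_right]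
    simp
  D_smul_right a x y := by
    rw [modD C _ (lift (a • y)) (lift x) (((a.val : ℕ) : ℤ_[p]) • lift y) rfl (by simp [red_smul]),
      C.D_smul_right]
    simp
  D_add_left x y z := by
    rw [modD C (lift (x + y)) _ (lift x + lift y) (lift z) (by simp [red_add]) rfl, C.D_add_left]
    simp
  D_smul_left a x y := by
    rw [modD C (lift (a • x)) _ (((a.val : ℕ) : ℤ_[p]) • lift x) (lift y) (by simp [red_smul]) rfl,
      C.D_smul_left]
    simp
  T_add_left x x' y z := by
    rw [modT C (lift (x + x')) _ _ (lift x + lift x') (lift y) (lift z) (by simp [red_add]) rfl rfl,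
      C.T_add_left]
    simp
  T_smul_left a x y z := by
    rw [modT C (lift (a • x)) _ _ (((a.val : ℕ) : ℤ_[p]) • lift x) (lift y) (lift z)
      (by simp [red_smul]) rfl rfl, C.T_smul_left]
    simp
  T_swap12 x y z := by rw [C.T_swap12]
  T_swap23 x y z := by rw [C.T_swap23]
  D_self x := by rw [C.D_self, map_mul, map_ofNat]
  T_self x y := by rw [C.T_self, map_mul, map_ofNat]

lemma modp_G (x : Fin n → ℤ_[p]) : (modp C).G (red x) = PadicInt.toZMod (C.G x) :=
  modG C _ _ (by simp)

lemma modp_D (x y : Fin n → ℤ_[p]) : (modp C).D (red x) (red y) = PadicInt.toZMod (C.D x y) :=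
  modD C _ _ _ _ (by simp) (by simp)

lemma modp_T (x y z : Fin n → ℤ_[p]) :
    (modp C).T (red x) (red y) (red z) = PadicInt.toZMod (C.T x y z) :=
  modT C _ _ _ _ _ _ (by simp) (by simp) (by simp)

end padic

end Pool.Agent.LibCubicLines
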