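import Pool.Agent.LibCubicLines.Level

/-!
Chart analysis of reduced integral cubic forms without isotropic pairs.
-/

namespace Pool.Agent.LibCubicLines

open Module

variable {p : ℕ} [hp : Fact p.Prime] {n : ℕ}

lemma exists_inv (x : ℤ_[p]) (h : ¬ (p : ℤ_[p]) ∣ x) : ∃ i, i * x = 1 := by
  have h1 : ‖x‖ = 1 := by
    rcases lt_or_eq_of_le (PadicInt.norm_le_one x) with h2 | h2
    · exact absurd ((PadicInt.norm_lt_one_iff_dvd x).1 h2) h
    · exact h2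
  obtain ⟨u, hu⟩ := PadicInt.isUnit_iff.2 h1
  exact ⟨↑u⁻¹, by rw [← hu]; simp⟩

section vertfacts

variable {C : Cubic ℤ_[p] (Fin n → ℤ_[p])} {x : Fin n → ℤ_[p]}

lemma vert_G (hx : x ∈ latt (modp C).vert) : (p : ℤ_[p]) ∣ C.G x := by
  rw [← toZMod_eq_zero_iff, ← modp_G]
  exact ((Cubic.mem_vert _).1 hx).1

lemma vert_D (hx : x ∈ latt (modp C).vert) (v : Fin n → ℤ_[p]) : (p : ℤ_[p]) ∣ C.D x v := by
  rw [← toZMod_eq_zero_iff, ← modp_D]
  exact (((Cubic.mem_vert _).1 hx).2 _).1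

lemma vert_D' (hx : x ∈ latt (modp C).vert) (v : Fin n → ℤ_[p]) : (p : ℤ_[p]) ∣ C.D v x := by
  rw [← toZMod_eq_zero_iff, ← modp_D]
  exact (((Cubic.mem_vert _).1 hx).2 _).2

lemma vert_T (hx : x ∈ latt (modp C).vert) (v v' : Fin n → ℤ_[p]) :
    (p : ℤ_[p]) ∣ C.T x v v' := by
  have h1 := C.D_add_left v v' x
  have h2 : C.T x v v' = C.D (v + v') x - C.D v x - C.D v' x := by
    rw [h1, C.T_swap12 x v v', C.T_swap23 v x v']; ring
  rw [h2]
  exact dvd_sub (dvd_sub (vert_D' hx _) (vert_D' hx _)) (vert_D' hx _)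

lemma indep_of_vert {u w : Fin n → ℤ_[p]} (hu : ¬ u ∈ latt (modp C).vert)
    (hw : w ∈ latt (modp C).vert) (hw0 : red w ≠ 0) :
    LinearIndependent (ZMod p) ![red u, red w] := by
  rw [LinearIndependent.pair_iff]
  intro s t hst
  have hs : s = 0 := by
    by_contra hs
    apply hu
    rw [mem_latt] at *
    have h1 : red u = (-(s⁻¹ * t)) • red w := by
      have h2 : s • red u = -(t • red w) := eq_neg_of_add_eq_zero_left hst
      calc red u = s⁻¹ • (s • red u) := by rw [smul_smul, inv_mul_cancel₀ hs, one_smul]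
        _ = _ := by rw [h2, smul_neg, smul_smul, neg_smul]
    rw [h1]
    exact Submodule.smul_mem _ _ hw
  refine ⟨hs, ?_⟩
  rw [hs, zero_smul, zero_add] at hst
  rcases smul_eq_zero.1 hst with h | h
  · exact h
  · exact absurd h hw0

end vertfacts

variable (C : Cubic ℤ_[p] (Fin n → ℤ_[p]))

lemma psq_not_dvd {x e : ℤ_[p]} (h : x = p * e) (h2 : ¬ (p : ℤ_[p]) ^ 2 ∣ x) :
    ¬ (p : ℤ_[p]) ∣ e := by
  rintro ⟨c, rfl⟩
  exact h2 ⟨c, by rw [h]; ring⟩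

lemma case_a (hno : NoLine C) (u1 x1 w1 y : Fin n → ℤ_[p]) (hu1 : (p : ℤ_[p]) ∣ C.G u1)
    (hx1 : ¬ (p : ℤ_[p]) ∣ C.D u1 x1) (hw1 : w1 ∈ latt (modp C).vert)
    (hy : y ∈ latt (modp C).vert) (hG : (p : ℤ_[p]) ^ 2 ∣ C.G w1)
    (hD : ¬ (p : ℤ_[p]) ^ 2 ∣ C.D w1 y) : False := by
  obtain ⟨ε, hε⟩ := vert_D hw1 y
  obtain ⟨i, hi⟩ := exists_inv ε (psq_not_dvd hε hD)
  obtain ⟨a, ha⟩ := vert_D hw1 u1
  -- the new u
  obtain ⟨u, hu⟩ : ∃ u, u = u1 + (-(a * i)) • y := ⟨_, rfl⟩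
  have hw1u : C.D w1 u = 0 := by
    rw [hu, C.D_exp_right, ha, hε]
    linear_combination (-(a * (p : ℤ_[p]))) * hi
  have hGu : (p : ℤ_[p]) ∣ C.G u := by
    rw [hu, C.G_exp]
    exact dvd_add (dvd_add (dvd_add hu1 (Dvd.dvd.mul_left (vert_D' hy _) _))
      (Dvd.dvd.mul_left (vert_D hy _) _)) (Dvd.dvd.mul_left (vert_G hy) _)
  have hux1 : ¬ (p : ℤ_[p]) ∣ C.D u x1 := by
    intro h
    apply hx1
    rw [hu, C.D_exp_left] at h
    have h1 : (p : ℤ_[p]) ∣ (-(a * i)) ^ 2 * C.D y x1 := Dvd.dvd.mul_left (vert_D hy _) _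
    have h2 : (p : ℤ_[p]) ∣ (-(a * i)) * C.T u1 y x1 := by
      rw [C.T_swap12]
      exact Dvd.dvd.mul_left (vert_T hy _ _) _
    rw [dvd_add_left h2, dvd_add_left h1] at h
    exact h
  obtain ⟨i', hi'⟩ := exists_inv _ hux1
  obtain ⟨a', ha'⟩ := vert_D' hw1 u
  obtain ⟨w, hw⟩ : ∃ w, w = w1 + (p * (-(a' * i'))) • x1 := ⟨_, rfl⟩
  have huw : C.D u w = 0 := by
    rw [hw, C.D_exp_right, ha']
    linear_combination (-(a' * (p : ℤ_[p]))) * hi'
  obtain ⟨g, hg⟩ := hG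
  obtain ⟨g1, hg1⟩ := vert_D hw1 x1
  have hGw : (p : ℤ_[p]) ^ 2 ∣ C.G w := by
    rw [hw, C.G_exp, hg, hg1]
    refine ⟨g + (-(a' * i')) * g1 + (a' * i') ^ 2 * C.D x1 w1
      - p * (a' * i') ^ 3 * C.G x1, ?_⟩
    ring
  obtain ⟨g2, hg2⟩ := vert_T hw1 x1 u
  have hwu : (p : ℤ_[p]) ^ 2 ∣ C.D w u := by
    rw [hw, C.D_exp_left, hw1u, hg2]
    refine ⟨(a' * i') ^ 2 * C.D x1 u + (-(a' * i')) * g2, ?_⟩
    ring
  obtain ⟨g3, hg3⟩ := vert_T hw1 x1 y
  obtain ⟨ε2, hε2⟩ : ∃ ε2, C.D w y = p * ε2 ∧ ¬ (p : ℤ_[p]) ∣ ε2 := by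
    refine ⟨ε + p * ((a' * i') ^ 2 * C.D x1 y + (-(a' * i')) * g3), ?_, ?_⟩
    · rw [hw, C.D_exp_left, hε, hg3]
      ring
    · intro h
      rw [dvd_add_left (dvd_mul_right _ _)] at h
      exact psq_not_dvd hε hD h
  obtain ⟨i2, hi2⟩ := exists_inv _ hε2.2
  have hredw : red w = red w1 := (red_eq_iff _ _).2 ⟨(-(a' * i')) • x1, by rw [hw, mul_smul]⟩
  have hwR : w ∈ latt (modp C).vert := by
    rw [mem_latt, hredw]; exact hw1
  obtain ⟨α, hα⟩ := vert_D hwR x1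
  obtain ⟨β, hβ⟩ := vert_D' hy u
  obtain ⟨γ, hγ⟩ := vert_T hwR y u
  obtain ⟨γ', hγ'⟩ := vert_T hwR x1 u
  have hs1 : C.T u x1 w = p * γ' := by
    rw [C.T_swap23, C.T_swap12, C.T_swap23]; exact hγ'
  have hs2 : C.T u y w = p * γ := by
    rw [C.T_swap23, C.T_swap12, C.T_swap23]; exact hγ
  obtain ⟨u', w', hu', hw', hline⟩ := line_of_approx C (modp C).vert u w 1 1 1 (by simp) hGu
    (by rw [huw]; exact dvd_zero _) hwu hGw
    (fun x y => by
      rw [C.T_swap23, C.T_swap12, pow_one]; exact vert_T hwR _ _)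
    (fun x => by rw [pow_one]; exact vert_D' hwR _)
    (fun x y hy => by rw [C.T_swap23, C.T_swap12, pow_one]; exact vert_T hy _ _)
    (fun y x hy => by rw [pow_one]; exact vert_D hy _)
    (fun y x hy => by rw [pow_one]; exact vert_T hwR _ _)
    (fun y y' hy hy' => by rw [pow_one]; exact vert_T hwR _ _)
    (fun y hy => by rw [pow_one]; exact vert_D hy _)
    (fun y y' hy hy' => by rw [pow_one]; exact dvd_mul_right _ _)
    (fun y hy => by rw [pow_one]; exact dvd_mul_right _ _)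
    (by
      intro t0 t1 t2 t3
      obtain ⟨s, hs⟩ : ∃ s, s = i2 * t3 := ⟨_, rfl⟩
      obtain ⟨A, hA⟩ : ∃ A, A = i' * t0 := ⟨_, rfl⟩
      obtain ⟨B, hB⟩ : ∃ B, B = i2 * (t2 - A * α - s * γ) := ⟨_, rfl⟩
      obtain ⟨d, hd⟩ : ∃ d, d = i' * (t1 - s * β - A * γ' - B * γ) := ⟨_, rfl⟩
      refine ⟨A • x1 + B • y, s • y + (p * d) • x1, ?_, ?_, ?_, ?_, ?_⟩
      · refine (latt _).add_mem ((latt _).smul_mem _ hy) ?_
        rw [mem_latt, (red_eq_zero_iff _).2 ⟨d • x1, by rw [mul_smul]⟩]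
        exact Submodule.zero_mem _
      · rw [C.D_add_right, C.D_smul_right, C.D_smul_right, hβ]
        exact ⟨B * β, by rw [hA]; linear_combination t0 * hi'⟩
      · rw [C.D_add_right, C.D_smul_right, C.D_smul_right, C.T_add_mid, C.T_smul_mid,
          C.T_smul_mid, hβ, hs1, hs2]
        exact ⟨0, by
          linear_combination (p : ℤ_[p]) * C.D u x1 * hd
            + (p : ℤ_[p]) * (t1 - s * β - A * γ' - B * γ) * hi'⟩
      · rw [C.D_add_right, C.D_smul_right, C.D_smul_right, C.T_add_mid, C.T_smul_mid,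
          C.T_smul_mid, hα, hε2.1, hγ, hγ']
        exact ⟨d * γ', by
          linear_combination (p : ℤ_[p]) * ε2 * hB + (p : ℤ_[p]) * (t2 - A * α - s * γ) * hi2⟩
      · rw [C.D_add_right, C.D_smul_right, C.D_smul_right, hα, hε2.1]
        exact ⟨d * α, by
          linear_combination (p : ℤ_[p]) * ε2 * hs + (p : ℤ_[p]) * t3 * hi2⟩)
  refine hno u' w' ?_ hline
  rw [hu', hw']
  apply indep_of_vert (C := C) _ hwR
  · intro h
    rw [hredw] at *
    obtain ⟨v, hv⟩ := (red_eq_zero_iff _).1 h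
    apply hD
    rw [hv, C.D_smul_left]
    exact dvd_mul_right _ _
  · intro h
    exact hux1 (vert_D h _)

lemma case_b (hno : NoLine C) (u x1 x2 z : Fin n → ℤ_[p]) (hz : z ∈ latt (modp C).vert)
    (hGz : (p : ℤ_[p]) ^ 2 ∣ C.G z) (hzx2 : ¬ (p : ℤ_[p]) ^ 2 ∣ C.D z x2)
    (hGu : (p : ℤ_[p]) ∣ C.G u) (hzu : (p : ℤ_[p]) ^ 2 ∣ C.D z u)
    (hux1 : ¬ (p : ℤ_[p]) ∣ C.D u x1) (hzx1 : (p : ℤ_[p]) ^ 2 ∣ C.D z x1) : False := by
  obtain ⟨ε, hε⟩ := vert_D hz x2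
  obtain ⟨i, hi⟩ := exists_inv ε (psq_not_dvd hε hzx2)
  obtain ⟨i', hi'⟩ := exists_inv _ hux1
  obtain ⟨c1, hc1⟩ := hzu
  obtain ⟨c2, hc2⟩ := hzx1
  obtain ⟨g, hg⟩ := hGz
  obtain ⟨k, hk⟩ := vert_D' hz u
  obtain ⟨b, hb⟩ : ∃ b, b = -(i * g) := ⟨_, rfl⟩
  obtain ⟨a, ha⟩ : ∃ a, a = -(i' * (k + b * C.D u x2)) := ⟨_, rfl⟩
  obtain ⟨δ, hδ⟩ : ∃ δ, δ = a • x1 + b • x2 := ⟨_, rfl⟩
  have hzδ : C.D z δ = p * (p * a * c2 + b * ε) := by
    rw [hδ, C.D_add_right, C.D_smul_right, C.D_smul_right, hc2, hε]; ring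
  obtain ⟨w, hw⟩ : ∃ w, w = z + (p : ℤ_[p]) • δ := ⟨_, rfl⟩
  have huw : C.D u w = 0 := by
    rw [hw, C.D_exp_right, hk, hδ, C.D_add_right, C.D_smul_right, C.D_smul_right]
    linear_combination (p : ℤ_[p]) * C.D u x1 * ha - (p : ℤ_[p]) * (k + b * C.D u x2) * hi'
  obtain ⟨g1, hg1⟩ := vert_D' hz δ
  have hGw : (p : ℤ_[p]) ^ 3 ∣ C.G w := by
    rw [hw, C.G_exp, hg, hzδ, hg1]
    exact ⟨a * c2 + g1 + C.G δ, by
      linear_combination (p : ℤ_[p]) ^ 2 * ε * hb - (p : ℤ_[p]) ^ 2 * g * hi⟩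
  obtain ⟨g2, hg2⟩ := vert_T hz δ u
  have hwu : (p : ℤ_[p]) ^ 2 ∣ C.D w u := by
    rw [hw, C.D_exp_left, hc1, hg2]
    exact ⟨c1 + C.D δ u + g2, by ring⟩
  have hredw : red w = red z := (red_eq_iff _ _).2 ⟨δ, hw⟩
  have hwR : w ∈ latt (modp C).vert := by
    rw [mem_latt, hredw]; exact hz
  obtain ⟨κ1, hκ1⟩ : ∃ κ1, C.D w x1 = p ^ 2 * κ1 := by
    obtain ⟨g3, hg3⟩ := vert_T hz δ x1
    rw [hw, C.D_exp_left, hc2, hg3]
    exact ⟨c2 + C.D δ x1 + g3, by ring⟩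
  obtain ⟨κ2, hκ2⟩ : ∃ κ2, C.D w x2 = p * ε + p ^ 2 * κ2 := by
    obtain ⟨g3, hg3⟩ := vert_T hz δ x2
    rw [hw, C.D_exp_left, hε, hg3]
    exact ⟨C.D δ x2 + g3, by ring⟩
  obtain ⟨τ1, hτ1⟩ := vert_T hwR u x1
  obtain ⟨τ2, hτ2⟩ := vert_T hwR u x2
  have hs1 : C.T u x1 w = p * τ1 := by
    rw [C.T_swap23, C.T_swap12]; exact hτ1
  have hs2 : C.T u x2 w = p * τ2 := by
    rw [C.T_swap23, C.T_swap12]; exact hτ2
  have hbot : ∀ y, y ∈ latt (⊥ : Submodule (ZMod p) (Fin n → ZMod p)) →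
      ∃ v : Fin n → ℤ_[p], y = (p : ℤ_[p]) • v := by
    intro y hy
    exact (red_eq_zero_iff _).1 ((Submodule.mem_bot (ZMod p)).1 hy)
  obtain ⟨u', w', hu', hw', hline⟩ := line_of_approx C ⊥ u w 1 1 2 (by simp) hGu
    (by rw [huw]; exact dvd_zero _) hwu hGw
    (fun x y => by
      rw [C.T_swap23, C.T_swap12, pow_one]; exact vert_T hwR _ _)
    (fun x => by rw [pow_one]; exact vert_D' hwR _)
    (fun x y hy => by
      obtain ⟨v, rfl⟩ := hbot y hy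
      rw [C.T_smul_right, pow_one]; exact dvd_mul_right _ _)
    (fun y x hy => by
      obtain ⟨v, rfl⟩ := hbot y hy
      rw [C.D_smul_left, pow_one, pow_two, mul_assoc]; exact dvd_mul_right _ _)
    (fun y x hy => by rw [pow_one]; exact vert_T hwR _ _)
    (fun y y' hy hy' => by
      obtain ⟨v, rfl⟩ := hbot y hy
      obtain ⟨v', rfl⟩ := hbot y' hy'
      rw [C.T_smul_mid, C.T_smul_right]
      exact ⟨C.T w v v', by ring⟩)
    (fun y hy => by
      obtain ⟨v, rfl⟩ := hbot y hy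
      rw [C.D_smul_left]
      exact dvd_mul_right _ _)
    (fun y y' hy hy' => by
      obtain ⟨v, rfl⟩ := hbot y hy
      rw [C.D_smul_left]
      exact ⟨p * C.D v y', by ring⟩)
    (fun y hy => by
      obtain ⟨v, rfl⟩ := hbot y hy
      rw [C.G_smul]
      exact ⟨p ^ 2 * C.G v, by ring⟩)
    (by
      intro t0 t1 t2 t3
      obtain ⟨B, hB⟩ : ∃ B, B = i * t2 := ⟨_, rfl⟩
      obtain ⟨A, hA⟩ : ∃ A, A = i' * (t0 - B * C.D u x2) := ⟨_, rfl⟩
      obtain ⟨d, hd⟩ : ∃ d, d = i * t3 := ⟨_, rfl⟩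
      obtain ⟨c, hc⟩ : ∃ c, c = i' * (t1 - d * C.D u x2 - A * τ1 - B * τ2) := ⟨_, rfl⟩
      obtain ⟨σ, hσ⟩ := vert_T hwR (c • x1 + d • x2) u
      refine ⟨A • x1 + B • x2, (p : ℤ_[p]) • (c • x1 + d • x2), ?_, ?_, ?_, ?_, ?_⟩
      · rw [mem_latt, (red_eq_zero_iff _).2 ⟨_, rfl⟩]
        exact Submodule.zero_mem _
      · rw [C.D_add_right, C.D_smul_right, C.D_smul_right]
        exact ⟨0, by
          linear_combination C.D u x1 * hA + (t0 - B * C.D u x2) * hi'⟩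
      · rw [C.D_smul_right, C.D_add_right, C.D_smul_right, C.D_smul_right, C.T_add_mid,
          C.T_smul_mid, C.T_smul_mid, hs1, hs2]
        exact ⟨0, by
          linear_combination (p : ℤ_[p]) * C.D u x1 * hc
            + (p : ℤ_[p]) * (t1 - d * C.D u x2 - A * τ1 - B * τ2) * hi'⟩
      · rw [C.D_add_right, C.D_smul_right, C.D_smul_right, C.T_smul_mid, hσ, hκ1, hκ2]
        exact ⟨A * κ1 + B * κ2 + σ, by
          linear_combination (p : ℤ_[p]) * ε * hB + (p : ℤ_[p]) * t2 * hi⟩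
      · rw [C.D_smul_right, C.D_add_right, C.D_smul_right, C.D_smul_right, hκ1, hκ2]
        exact ⟨c * κ1 + d * κ2, by
          linear_combination (p : ℤ_[p]) ^ 2 * ε * hd + (p : ℤ_[p]) ^ 2 * t3 * hi⟩)
  refine hno u' w' ?_ hline
  rw [hu', hw']
  apply indep_of_vert (C := C) _ hwR
  · intro h
    rw [hredw] at h
    obtain ⟨v, hv⟩ := (red_eq_zero_iff _).1 h
    apply hzx2
    rw [hv, C.D_smul_left]
    exact dvd_mul_right _ _
  · intro h
    exact hux1 (vert_D h _)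

lemma case_c (hno : NoLine C) (W : Submodule (ZMod p) (Fin n → ZMod p))
    (hWR : W ≤ (modp C).vert) (hS : ∀ x ∈ latt W, ∀ v, (p : ℤ_[p]) ^ 2 ∣ C.D x v)
    (hWG : ∀ x ∈ latt W, (p : ℤ_[p]) ^ 2 ∣ C.G x)
    (z z' u x1 : Fin n → ℤ_[p]) (hz : z ∈ latt W) (hz' : z' ∈ latt W)
    (hGz : (p : ℤ_[p]) ^ 3 ∣ C.G z) (hzz' : ¬ (p : ℤ_[p]) ^ 3 ∣ C.D z z')
    (hGu1 : (p : ℤ_[p]) ∣ C.G u) (hux : ¬ (p : ℤ_[p]) ∣ C.D u x1) : False := by
  have hLR : ∀ x, x ∈ latt W → x ∈ latt (modp C).vert := fun x hx => hWR hx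
  have hTW : ∀ x y v, x ∈ latt W → y ∈ latt W → (p : ℤ_[p]) ^ 2 ∣ C.T x y v := by
    intro x y v hx hy
    have h1 := C.D_add_left x y v
    have h2 : C.T x y v = C.D (x + y) v - C.D x v - C.D y v := by rw [h1]; ring
    rw [h2]
    exact dvd_sub (dvd_sub (hS _ ((latt W).add_mem hx hy) _) (hS _ hx _)) (hS _ hy _)
  obtain ⟨ε, hε⟩ := hS z hz z'
  have hεn : ¬ (p : ℤ_[p]) ∣ ε := by
    rintro ⟨c, rfl⟩
    exact hzz' ⟨c, by rw [hε]; ring⟩
  obtain ⟨i, hi⟩ := exists_inv _ hux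
  obtain ⟨k, hk⟩ := vert_D' (hLR z hz) u
  obtain ⟨a, ha⟩ : ∃ a, a = -(i * k) := ⟨_, rfl⟩
  obtain ⟨w, hw⟩ : ∃ w, w = z + (p : ℤ_[p]) • (a • x1) := ⟨_, rfl⟩
  have hw2 : w = z + ((p : ℤ_[p]) * a) • x1 := by rw [hw, mul_smul]
  have huw : C.D u w = 0 := by
    rw [hw2, C.D_exp_right, hk]
    linear_combination (p : ℤ_[p]) * C.D u x1 * ha - (p : ℤ_[p]) * k * hi
  obtain ⟨g, hg⟩ := hGz
  obtain ⟨g1, hg1⟩ := hS z hz x1
  obtain ⟨g2, hg2⟩ := vert_D' (hLR z hz) x1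
  have hGw : (p : ℤ_[p]) ^ 3 ∣ C.G w := by
    rw [hw2, C.G_exp, hg, hg1, hg2]
    exact ⟨g + a * g1 + a ^ 2 * g2 + a ^ 3 * C.G x1, by ring⟩
  obtain ⟨m, hm⟩ : ∃ m, C.D w u = p ^ 2 * m := by
    obtain ⟨g3, hg3⟩ := hS z hz u
    obtain ⟨g4, hg4⟩ := vert_T (hLR z hz) x1 u
    rw [hw2, C.D_exp_left, hg3, hg4]
    exact ⟨g3 + a ^ 2 * C.D x1 u + a * g4, by ring⟩
  obtain ⟨ε2, hε2, hε2n⟩ : ∃ ε2, C.D w z' = p ^ 2 * ε2 ∧ ¬ (p : ℤ_[p]) ∣ ε2 := by
    obtain ⟨g3, hg3⟩ := vert_D' (hLR z' hz') x1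
    obtain ⟨g4, hg4⟩ := hTW z z' x1 hz hz'
    refine ⟨ε + p * (a ^ 2 * g3 + a * g4), ?_, ?_⟩
    · rw [hw2, C.D_exp_left, hε, hg3, C.T_swap23, hg4]
      ring
    · intro h
      rw [dvd_add_left (dvd_mul_right _ _)] at h
      exact hεn h
  obtain ⟨i2, hi2⟩ := exists_inv _ hε2n
  have hredw : red w = red z := (red_eq_iff _ _).2 ⟨_, hw⟩
  have hwW : w ∈ latt W := by
    rw [mem_latt, hredw]; exact hz
  obtain ⟨v, hv⟩ : ∃ v, v = u + (-(i2 * m)) • z' := ⟨_, rfl⟩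
  have hwv : C.D w v = 0 := by
    rw [hv, C.D_exp_right, hm, hε2]
    linear_combination (-(m * (p : ℤ_[p]) ^ 2)) * hi2
  have hvw : (p : ℤ_[p]) ^ 2 ∣ C.D v w := by
    obtain ⟨g3, hg3⟩ := hS z' hz' w
    obtain ⟨g4, hg4⟩ := hTW z' w u hz' hwW
    have h5 : C.T u z' w = p ^ 2 * g4 := by
      rw [C.T_swap12, C.T_swap23]; exact hg4
    rw [hv, C.D_exp_left, huw, hg3, h5]
    exact ⟨(-(i2 * m)) ^ 2 * g3 + (-(i2 * m)) * g4, by ring⟩
  have hGv : (p : ℤ_[p]) ∣ C.G v := by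
    rw [hv, C.G_exp]
    exact dvd_add (dvd_add (dvd_add hGu1 (Dvd.dvd.mul_left (vert_D' (hLR z' hz') _) _))
      (Dvd.dvd.mul_left (vert_D (hLR z' hz') _) _)) (Dvd.dvd.mul_left (vert_G (hLR z' hz')) _)
  have hvx1 : ¬ (p : ℤ_[p]) ∣ C.D v x1 := by
    intro h
    apply hux
    rw [hv, C.D_exp_left] at h
    have h1 : (p : ℤ_[p]) ∣ (-(i2 * m)) ^ 2 * C.D z' x1 :=
      Dvd.dvd.mul_left (vert_D (hLR z' hz') _) _
    have h2 : (p : ℤ_[p]) ∣ (-(i2 * m)) * C.T u z' x1 := by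
      rw [C.T_swap12]
      exact Dvd.dvd.mul_left (vert_T (hLR z' hz') _ _) _
    rw [dvd_add_left h2, dvd_add_left h1] at h
    exact h
  obtain ⟨i3, hi3⟩ := exists_inv _ hvx1
  obtain ⟨α, hα⟩ := hS w hwW x1
  obtain ⟨β, hβ⟩ := vert_D' (hLR z' hz') v
  obtain ⟨γ', hγ'⟩ := vert_T (hLR w hwW) x1 v
  obtain ⟨ζ, hζ⟩ := hTW w z' v hwW hz'
  have hs1 : C.T v x1 w = p * γ' := by
    rw [C.T_swap23, C.T_swap12, C.T_swap23]; exact hγ'
  have hs2 : C.T v z' w = p ^ 2 * ζ := by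
    rw [C.T_swap23, C.T_swap12, C.T_swap23]; exact hζ
  have hp2 : (p : ℤ_[p]) ^ 1 ∣ p ^ 2 := pow_dvd_pow _ (by norm_num)
  obtain ⟨u', w', hu', hw', hline⟩ := line_of_approx C W v w 1 2 2 (by simp) hGv
    hvw (by rw [hwv]; exact dvd_zero _) hGw
    (fun x y => by
      rw [C.T_swap23, C.T_swap12, pow_one]; exact vert_T (hLR w hwW) _ _)
    (fun x => by rw [pow_one]; exact vert_D' (hLR w hwW) _)
    (fun x y hy => by rw [C.T_swap23, C.T_swap12, pow_one]; exact vert_T (hLR y hy) _ _)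
    (fun y x hy => hS y hy x)
    (fun y x hy => hTW w y x hwW hy)
    (fun y y' hy hy' => hTW w y y' hwW hy)
    (fun y hy => hS y hy w)
    (fun y y' hy hy' => Dvd.dvd.mul_left (hS y hy y') _)
    (fun y hy => Dvd.dvd.mul_left (hWG y hy) _)
    (by
      intro t0 t1 t2 t3
      obtain ⟨s, hs⟩ : ∃ s, s = i2 * t3 := ⟨_, rfl⟩
      obtain ⟨A, hA⟩ : ∃ A, A = i3 * t0 := ⟨_, rfl⟩
      obtain ⟨d, hd⟩ : ∃ d, d = i3 * (t1 - s * β - A * γ') := ⟨_, rfl⟩
      obtain ⟨B, hB⟩ : ∃ B, B = i2 * (t2 - A * α - s * ζ - d * γ') := ⟨_, rfl⟩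
      refine ⟨A • x1 + B • z', s • z' + (p * d) • x1, ?_, ?_, ?_, ?_, ?_⟩
      · refine (latt _).add_mem ((latt _).smul_mem _ hz') ?_
        rw [mem_latt, (red_eq_zero_iff _).2 ⟨d • x1, by rw [mul_smul]⟩]
        exact Submodule.zero_mem _
      · rw [C.D_add_right, C.D_smul_right, C.D_smul_right, hβ]
        exact ⟨B * β, by
          linear_combination C.D v x1 * hA + t0 * hi3⟩
      · rw [C.D_add_right, C.D_smul_right, C.D_smul_right, C.T_add_mid, C.T_smul_mid,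
          C.T_smul_mid, hβ, hs1, hs2]
        exact ⟨B * ζ, by
          linear_combination (p : ℤ_[p]) * C.D v x1 * hd
            + (p : ℤ_[p]) * (t1 - s * β - A * γ') * hi3⟩
      · rw [C.D_add_right, C.D_smul_right, C.D_smul_right, C.T_add_mid, C.T_smul_mid,
          C.T_smul_mid, hα, hε2, hζ, hγ']
        exact ⟨0, by
          linear_combination (p : ℤ_[p]) ^ 2 * ε2 * hB
            + (p : ℤ_[p]) ^ 2 * (t2 - A * α - s * ζ - d * γ') * hi2⟩
      · rw [C.D_add_right, C.D_smul_right, C.D_smul_right, hα, hε2]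
        exact ⟨d * α, by
          linear_combination (p : ℤ_[p]) ^ 2 * ε2 * hs + (p : ℤ_[p]) ^ 2 * t3 * hi2⟩)
  refine hno u' w' ?_ hline
  rw [hu', hw']
  apply indep_of_vert (C := C) _ (hLR w hwW)
  · intro h
    rw [hredw] at h
    obtain ⟨q, hq⟩ := (red_eq_zero_iff _).1 h
    apply hzz'
    obtain ⟨g3, hg3⟩ := vert_D' (hLR z' hz') q
    rw [hq, C.D_smul_left, hg3]
    exact ⟨g3, by ring⟩
  · intro h
    exact hvx1 (vert_D h _)

/-- a smooth isotropic pair modulo `p` is linearly independent -/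
lemma indep_of_smooth {K V : Type*} [Field K] [AddCommGroup V] [Module K V] (C : Cubic K V)
    {u w : V} (h : C.IsSmoothLine u w) : LinearIndependent K ![u, w] := by
  rw [LinearIndependent.pair_iff]
  intro s t hst
  by_cases ht : t = 0
  · refine ⟨?_, ht⟩
    by_contra hs
    have hu : u = 0 := by
      rw [ht, zero_smul, add_zero] at hst
      exact (smul_eq_zero.1 hst).resolve_left hs
    obtain ⟨η, δ, h1, -, -, -⟩ := h.2 1 0 0 0
    rw [hu, C.D_zero_left] at h1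
    exact zero_ne_one h1
  · exfalso
    have hw : w = (-(t⁻¹ * s)) • u := by
      have h2 : t • w = -(s • u) := eq_neg_of_add_eq_zero_right hst
      calc w = t⁻¹ • (t • w) := by rw [smul_smul, inv_mul_cancel₀ ht, one_smul]
        _ = _ := by rw [h2, smul_neg, smul_smul, neg_smul]
    obtain ⟨η, δ, h1, h2, h3, h4⟩ := h.2 0 0 0 1
    rw [hw] at h2 h3 h4
    rw [C.T_smul_mid, C.T_self] at h2
    rw [C.D_smul_left] at h4
    rw [h1] at h2
    have h5 : C.D u δ = 0 := by simpa using h2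
    rw [h5] at h4
    simp at h4

lemma smooth_case (hno : NoLine C) : ¬ ∃ u w, (modp C).IsSmoothLine u w := by
  rintro ⟨u, w, h⟩
  have hind := indep_of_smooth _ h
  obtain ⟨⟨h1, h2, h3, h4⟩, hs⟩ := h
  have e1 : (modp C).G (red (lift u)) = 0 := by rw [red_lift]; exact h1
  have e2 : (modp C).D (red (lift u)) (red (lift w)) = 0 := by rw [red_lift, red_lift]; exact h2
  have e3 : (modp C).D (red (lift w)) (red (lift u)) = 0 := by rw [red_lift, red_lift]; exact h3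
  have e4 : (modp C).G (red (lift w)) = 0 := by rw [red_lift]; exact h4
  rw [modp_G, toZMod_eq_zero_iff] at e1 e4
  rw [modp_D, toZMod_eq_zero_iff] at e2 e3
  obtain ⟨u', w', hu', hw', hline⟩ := line_of_approx C ⊤ (lift u) (lift w) 0 0 0 (by simp)
    e1 (by simpa using e2) (by simpa using e3) (by simpa using e4)
    (fun x y => by simp) (fun x => by simp) (fun x y hy => by simp) (fun x y hy => by simp)
    (fun x y hy => by simp) (fun x y hx hy => by simp) (fun x hx => by simp)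
    (fun x y hx hy => by simp) (fun x hx => by simp)
    (by
      intro t0 t1 t2 t3
      obtain ⟨η, δ, k0, k1, k2, k3⟩ := hs (PadicInt.toZMod t0) (PadicInt.toZMod t1)
        (PadicInt.toZMod t2) (PadicInt.toZMod t3)
      have a1 : ∀ a, lift (p := p) (red (lift a)) = lift (n := n) a := by
        intro a; rw [red_lift]
      have f0 : (modp C).D u η = PadicInt.toZMod (C.D (lift u) (lift η)) := rfl
      have f1 : (modp C).D u δ = PadicInt.toZMod (C.D (lift u) (lift δ)) := rfl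
      have f2 : (modp C).D w η = PadicInt.toZMod (C.D (lift w) (lift η)) := rfl
      have f3 : (modp C).D w δ = PadicInt.toZMod (C.D (lift w) (lift δ)) := rfl
      have f4 : (modp C).T u w η = PadicInt.toZMod (C.T (lift u) (lift w) (lift η)) := rfl
      have f5 : (modp C).T u w δ = PadicInt.toZMod (C.T (lift u) (lift w) (lift δ)) := rfl
      refine ⟨lift η, lift δ, Submodule.mem_top, ?_, ?_, ?_, ?_⟩
      · rw [← toZMod_eq_zero_iff, map_sub, ← f0, k0, sub_self]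
      · rw [zero_add, pow_one, pow_zero, one_mul, ← toZMod_eq_zero_iff, map_sub, map_add, ← f1,
          C.T_swap23, ← f4, add_comm, k1, sub_self]
      · rw [zero_add, pow_one, pow_zero, one_mul, ← toZMod_eq_zero_iff, map_sub, map_add, ← f2,
          C.T_swap23, C.T_swap12, ← f5, k2, sub_self]
      · rw [zero_add, pow_one, pow_zero, one_mul, ← toZMod_eq_zero_iff, map_sub, ← f3,
          k3, sub_self])
  refine hno u' w' ?_ hline
  rw [hu', hw', red_lift, red_lift]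
  exact hind

section lam

variable {C} {z : Fin n → ℤ_[p]} (hz : z ∈ latt (modp C).vert)

include hz

lemma quo_D_congr (x y : Fin n → ℤ_[p]) (h : red x = red y) :
    quo 1 (C.D z x) = quo 1 (C.D z y) := by
  obtain ⟨v, rfl⟩ := (red_eq_iff _ _).1 h
  obtain ⟨a, ha⟩ := vert_D hz y
  obtain ⟨b, hb⟩ := vert_D hz v
  have e1 : C.D z y = (p : ℤ_[p]) ^ 1 * a := by rw [ha, pow_one]
  have e2 : C.D z (y + (p : ℤ_[p]) • v) = (p : ℤ_[p]) ^ 1 * (a + (p : ℤ_[p]) * b) := by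
    rw [C.D_exp_right, ha, hb]; ring
  rw [quo_of_eq e1, quo_of_eq e2]
  simp

/-- the linear form `D(z, .) / p` modulo `p` for `z` over the vertex -/
noncomputable def lam : (Fin n → ZMod p) →ₗ[ZMod p] ZMod p where
  toFun x := quo 1 (C.D z (lift x))
  map_add' x y := by
    have h1 : (p : ℤ_[p]) ^ 1 ∣ C.D z (lift x) := by rw [pow_one]; exact vert_D hz _
    have h2 : (p : ℤ_[p]) ^ 1 ∣ C.D z (lift y) := by rw [pow_one]; exact vert_D hz _
    rw [quo_D_congr hz (lift (x + y)) (lift x + lift y) (by rw [red_add]; simp), C.D_add_right,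
      quo_add h1 h2]
  map_smul' a x := by
    have h1 : (p : ℤ_[p]) ^ 1 ∣ C.D z (lift x) := by rw [pow_one]; exact vert_D hz _
    rw [quo_D_congr hz (lift (a • x)) (((a.val : ℕ) : ℤ_[p]) • lift x) (by rw [red_smul]; simp),
      C.D_smul_right, quo_smul _ h1, toZMod_val]
    simp

lemma lam_red (x : Fin n → ℤ_[p]) : lam hz (red x) = quo 1 (C.D z x) :=
  quo_D_congr hz _ _ (red_lift _)

lemma lam_eq_zero (x : Fin n → ZMod p) : lam hz x = 0 ↔ (p : ℤ_[p]) ^ 2 ∣ C.D z (lift x) := by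
  have h1 : (p : ℤ_[p]) ^ 1 ∣ C.D z (lift x) := by rw [pow_one]; exact vert_D hz _
  exact quo_eq_zero h1

end lam

lemma not_vanishOn (C : Cubic ℤ_[p] (Fin 13 → ℤ_[p])) (hred : Reduced C)
    (W : Submodule (ZMod p) (Fin 13 → ZMod p)) (hW : 13 ≤ finrank (ZMod p) W + 4) :
    ¬ (modp C).VanishOn W := by
  intro hv
  have h1 := hred W 1 (by
    intro x y z hx hy hz
    obtain ⟨a, b, c⟩ := hv _ hx _ hy _ hz
    rw [modp_G, toZMod_eq_zero_iff] at a
    rw [modp_D, toZMod_eq_zero_iff] at b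
    rw [modp_T, toZMod_eq_zero_iff] at c
    rw [pow_one]
    exact ⟨a, b, c⟩)
  omega

lemma smooth_in (C : Cubic ℤ_[p] (Fin 13 → ℤ_[p])) (hred : Reduced C)
    (H : Submodule (ZMod p) (Fin 13 → ZMod p)) (hH : 13 ≤ finrank (ZMod p) H + 1) :
    ∃ u ∈ H, (modp C).G u = 0 ∧ ∃ x ∈ H, (modp C).D u x ≠ 0 := by
  obtain ⟨u, hu, v, hv⟩ := ((modp C).comap H.subtype).exists_smooth_zero (by
    intro W' hW' hvan
    apply not_vanishOn C hred (W'.map H.subtype)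
    · rw [Submodule.finrank_map_subtype_eq]
      omega
    · intro x hx y hy z hz
      obtain ⟨x', hx', rfl⟩ := Submodule.mem_map.1 hx
      obtain ⟨y', hy', rfl⟩ := Submodule.mem_map.1 hy
      obtain ⟨z', hz', rfl⟩ := Submodule.mem_map.1 hz
      exact hvan x' hx' y' hy' z' hz')
  exact ⟨u, u.2, hu, v, v.2, hv⟩

/-- Chart analysis. -/
theorem chart (C : Cubic ℤ_[p] (Fin 13 → ℤ_[p])) (hred : Reduced C) (hno : NoLine C) :
    finrank (ZMod p) (modp C).vert ≤ 6 ∧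
    (∀ W : Submodule (ZMod p) (Fin 13 → ZMod p), 13 ≤ finrank (ZMod p) W + 4 →
      ¬ (modp C).VanishOn W) ∧
    ¬ ∃ u w, (modp C).IsSmoothLine u w := by
  refine ⟨?_, not_vanishOn C hred, smooth_case C hno⟩
  -- a smooth zero
  obtain ⟨u, -, hu, x1, -, hx1⟩ := smooth_in C hred ⊤ (by simp)
  have hu' : (p : ℤ_[p]) ∣ C.G (lift u) := by
    rw [← toZMod_eq_zero_iff]; exact hu
  have hx1' : ¬ (p : ℤ_[p]) ∣ C.D (lift u) (lift x1) := by
    rw [← toZMod_eq_zero_iff]; exact hx1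
  -- first level
  have hL1 : LevelOK C (modp C).vert 1 :=
    ⟨pow_dvd_pow _ (by norm_num), fun x hx => by rw [pow_one]; exact vert_G hx,
      fun x hx v => by rw [pow_one]; exact vert_D hx v,
      fun x hx v => by rw [pow_one]; exact dvd_mul_right _ _⟩
  obtain ⟨W, hWR, hWf, hWG, hWD⟩ := level_no_smooth hL1 (by
    intro w y hw hy hG
    by_contra hD
    exact case_a C hno _ _ w y hu' hx1' hw hy hG hD)
  -- the second step
  have hS : ∀ x ∈ latt W, ∀ v, (p : ℤ_[p]) ^ 2 ∣ C.D x v := by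
    intro z hz x2
    by_contra hD
    have hzR : z ∈ latt (modp C).vert := hWR hz
    have hdim : 13 ≤ finrank (ZMod p) (LinearMap.ker (lam hzR)) + 1 := by
      have h1 := LinearMap.finrank_range_add_finrank_ker (lam hzR)
      have h2 : finrank (ZMod p) (LinearMap.range (lam hzR)) ≤ 1 := by
        have := Submodule.finrank_le (LinearMap.range (lam hzR))
        simpa using this
      have h3 : finrank (ZMod p) (Fin 13 → ZMod p) = 13 := by simp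
      omega
    obtain ⟨u, hu, hGu, x, hx, hux⟩ := smooth_in C hred _ hdim
    rw [LinearMap.mem_ker, lam_eq_zero] at hu hx
    refine case_b C hno (lift u) (lift x) x2 z hzR (hWG z hz) hD ?_ hu ?_ hx
    · rw [← toZMod_eq_zero_iff]; exact hGu
    · rw [← toZMod_eq_zero_iff]; exact hux
  have hL2 : LevelOK C W 2 :=
    ⟨dvd_refl _, hWG, hS, fun x hx v => by
      rw [pow_two]; exact mul_dvd_mul_left _ (vert_D' (hWR hx) v)⟩
  obtain ⟨W', hWW', hWf', hWG', hWD'⟩ := level_no_smooth hL2 (by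
    intro w y hw hy hG
    by_contra hD
    exact case_c C hno W hWR hS hWG w y _ _ hw hy hG hD hu' hx1')
  have h3 := hred W' 3 (by
    intro x y z hx hy hz
    refine ⟨hWG' x hx, hWD' x hx y (hWW' hy), ?_⟩
    have h1 := C.D_add_left x y z
    have h2 : C.T x y z = C.D (x + y) z - C.D x z - C.D y z := by rw [h1]; ring
    rw [h2]
    exact dvd_sub (dvd_sub (hWD' _ ((latt W').add_mem hx hy) z (hWW' hz))
      (hWD' _ hx z (hWW' hz))) (hWD' _ hy z (hWW' hz)))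
  omega

end Pool.Agent.LibCubicLines
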