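import Pool.Agent.LibCubicLines.Basic

/-!
Chevalley-Warning wrappers and the lemma on cubic forms without smooth zeros.
-/

namespace Pool.Agent.LibCubicLines

open Module MvPolynomial

namespace Cubic

section poly

variable {K V : Type*} [Field K] [AddCommGroup V] [Module K V] (C : Cubic K V)
variable {ι : Type*} [DecidableEq ι] (b : ι → V)

lemma poly_lin (y : V) (s : Finset ι) : ∃ P : MvPolynomial ι K, P.totalDegree ≤ 1 ∧
    ∀ x : ι → K, eval x P = C.D y (∑ i ∈ s, x i • b i) := by
  induction s using Finset.induction_on with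
  | empty => exact ⟨0, by simp, fun x => by simp [C.D_zero_right]⟩
  | insert i s hi ih =>
    obtain ⟨P, hP, hx⟩ := ih
    refine ⟨MvPolynomial.C (C.D y (b i)) * X i + P, ?_, fun x => ?_⟩
    · refine (totalDegree_add _ _).trans (max_le ?_ hP)
      refine (totalDegree_mul _ _).trans ?_
      simp [totalDegree_X]
    · rw [Finset.sum_insert hi, C.D_add_right, C.D_smul_right, ← hx]
      simp [mul_comm]

lemma poly_tri (y v : V) (s : Finset ι) : ∃ P : MvPolynomial ι K, P.totalDegree ≤ 1 ∧
    ∀ x : ι → K, eval x P = C.T (∑ i ∈ s, x i • b i) y v := by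
  induction s using Finset.induction_on with
  | empty => exact ⟨0, by simp, fun x => by simp [C.T_zero_left]⟩
  | insert i s hi ih =>
    obtain ⟨P, hP, hx⟩ := ih
    refine ⟨MvPolynomial.C (C.T (b i) y v) * X i + P, ?_, fun x => ?_⟩
    · refine (totalDegree_add _ _).trans (max_le ?_ hP)
      refine (totalDegree_mul _ _).trans ?_
      simp [totalDegree_X]
    · rw [Finset.sum_insert hi, C.T_add_left, C.T_smul_left, ← hx]
      simp [mul_comm]

lemma poly_quad (v : V) (s : Finset ι) : ∃ P : MvPolynomial ι K, P.totalDegree ≤ 2 ∧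
    ∀ x : ι → K, eval x P = C.D (∑ i ∈ s, x i • b i) v := by
  induction s using Finset.induction_on with
  | empty => exact ⟨0, by simp, fun x => by simp [C.D_zero_left]⟩
  | insert i s hi ih =>
    obtain ⟨P, hP, hx⟩ := ih
    obtain ⟨P', hP', hx'⟩ := C.poly_tri b (b i) v s
    refine ⟨MvPolynomial.C (C.D (b i) v) * X i ^ 2 + P + X i * P', ?_, fun x => ?_⟩
    · refine (totalDegree_add _ _).trans (max_le ((totalDegree_add _ _).trans (max_le ?_ hP)) ?_)
      · refine (totalDegree_mul _ _).trans ?_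
        simp [totalDegree_X_pow]
      · refine (totalDegree_mul _ _).trans ?_
        rw [totalDegree_X]; omega
    · rw [Finset.sum_insert hi, C.D_add_left, C.D_smul_left, ← hx, C.T_smul_left, C.T_swap12,
        ← hx']
      simp [mul_comm]

lemma poly_cub (s : Finset ι) : ∃ P : MvPolynomial ι K, P.totalDegree ≤ 3 ∧
    ∀ x : ι → K, eval x P = C.G (∑ i ∈ s, x i • b i) := by
  induction s using Finset.induction_on with
  | empty => exact ⟨0, by simp, fun x => by simp [C.G_zero]⟩
  | insert i s hi ih =>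
    obtain ⟨P, hP, hx⟩ := ih
    obtain ⟨P', hP', hx'⟩ := C.poly_lin b (b i) s
    obtain ⟨P'', hP'', hx''⟩ := C.poly_quad b (b i) s
    refine ⟨MvPolynomial.C (C.G (b i)) * X i ^ 3 + X i ^ 2 * P' + X i * P'' + P, ?_, fun x => ?_⟩
    · refine (totalDegree_add _ _).trans (max_le ((totalDegree_add _ _).trans (max_le
        ((totalDegree_add _ _).trans (max_le ?_ ?_)) ?_)) hP)
      · refine (totalDegree_mul _ _).trans ?_
        simp [totalDegree_X_pow]
      · refine (totalDegree_mul _ _).trans ?_
        rw [totalDegree_X_pow]; omega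
      · refine (totalDegree_mul _ _).trans ?_
        rw [totalDegree_X]; omega
    · rw [Finset.sum_insert hi, C.G_add, C.G_smul, C.D_smul_left, C.D_smul_right, ← hx, ← hx',
        ← hx'']
      simp [mul_comm]

end poly

section cw

variable {K V : Type*} [Field K] [Fintype K] [AddCommGroup V] [Module K V] [FiniteDimensional K V]
  (C : Cubic K V)

/-- zero of a cubic form in a subspace of dimension at least four -/
lemma exists_zero (W : Submodule K V) (hW : 4 ≤ finrank K W) :
    ∃ x ∈ W, x ≠ 0 ∧ C.G x = 0 := by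
  classical
  obtain ⟨p, hp⟩ := CharP.exists K
  let b := Module.finBasis K W
  obtain ⟨P, hP, hPx⟩ := C.poly_cub (fun i => (b i : V)) Finset.univ
  have h1 := char_dvd_card_solutions p (f := P) (by
    rw [Fintype.card_fin]; omega)
  haveI : Fact p.Prime := ⟨CharP.char_is_prime K p⟩
  have h0 : eval (0 : Fin (finrank K W) → K) P = 0 := by
    rw [hPx]; simp [C.G_zero]
  haveI : Nonempty {x : Fin (finrank K W) → K // eval x P = 0} := ⟨⟨0, h0⟩⟩
  have h2 : 1 < Fintype.card {x : Fin (finrank K W) → K // eval x P = 0} :=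
    lt_of_lt_of_le (Fact.out : p.Prime).one_lt (Nat.le_of_dvd Fintype.card_pos h1)
  obtain ⟨⟨x, hx⟩, hne⟩ := Fintype.exists_ne_of_one_lt_card h2 ⟨0, h0⟩
  have hx0 : x ≠ 0 := fun h => hne (Subtype.ext h)
  refine ⟨∑ i, x i • (b i : V), ?_, ?_, ?_⟩
  · exact Submodule.sum_mem _ fun i _ => W.smul_mem _ (b i).2
  · intro h
    apply hx0
    have h3 : (∑ i, x i • b i) = 0 := by
      apply Subtype.ext
      simpa using h
    funext i
    exact Fintype.linearIndependent_iff.mp b.linearIndependent x h3 i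
  · rw [← hPx, hx]

/-- common zero of the cubic form and a polar quadric in a subspace of dimension at least six -/
lemma exists_pair_zero (e : V) (W : Submodule K V) (hW : 6 ≤ finrank K W) :
    ∃ x ∈ W, x ≠ 0 ∧ C.D x e = 0 ∧ C.G x = 0 := by
  classical
  obtain ⟨p, hp⟩ := CharP.exists K
  let b := Module.finBasis K W
  obtain ⟨P, hP, hPx⟩ := C.poly_cub (fun i => (b i : V)) Finset.univ
  obtain ⟨Q, hQ, hQx⟩ := C.poly_quad (fun i => (b i : V)) e Finset.univ
  have h1 := char_dvd_card_solutions_of_add_lt p (f₁ := Q) (f₂ := P) (by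
    rw [Fintype.card_fin]; omega)
  haveI : Fact p.Prime := ⟨CharP.char_is_prime K p⟩
  have h0 : eval (0 : Fin (finrank K W) → K) Q = 0 ∧ eval (0 : Fin (finrank K W) → K) P = 0 := by
    rw [hPx, hQx]; simp [C.G_zero, C.D_zero_left]
  haveI : Nonempty {x : Fin (finrank K W) → K // eval x Q = 0 ∧ eval x P = 0} := ⟨⟨0, h0⟩⟩
  have h2 : 1 < Fintype.card {x : Fin (finrank K W) → K // eval x Q = 0 ∧ eval x P = 0} :=
    lt_of_lt_of_le (Fact.out : p.Prime).one_lt (Nat.le_of_dvd Fintype.card_pos h1)
  obtain ⟨⟨x, hx⟩, hne⟩ := Fintype.exists_ne_of_one_lt_card h2 ⟨0, h0⟩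
  have hx0 : x ≠ 0 := fun h => hne (Subtype.ext h)
  refine ⟨∑ i, x i • (b i : V), ?_, ?_, ?_, ?_⟩
  · exact Submodule.sum_mem _ fun i _ => W.smul_mem _ (b i).2
  · intro h
    apply hx0
    have h3 : (∑ i, x i • b i) = 0 := by
      apply Subtype.ext
      simpa using h
    funext i
    exact Fintype.linearIndependent_iff.mp b.linearIndependent x h3 i
  · rw [← hQx, hx.1]
  · rw [← hPx, hx.2]

/-- Lemma A: a cubic form without smooth zeros is a cone over an anisotropic form. -/
theorem vert_of_no_smooth (hns : ∀ x, C.G x = 0 → ∀ y, C.D x y = 0) :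
    (∀ x, C.G x = 0 ↔ x ∈ C.vert) ∧ finrank K V ≤ finrank K C.vert + 3 := by
  have key : ∀ e, C.G e = 0 → ∀ x, C.D x e = 0 := by
    intro e he x
    by_contra hne
    have hDe := hns e he
    set l : K := -C.G x / C.D x e with hl
    have h1 : C.G (x + l • e) = 0 := by
      rw [C.G_add, C.D_smul_right, C.D_smul_left, C.G_smul, hDe, he, hl]
      field_simp
      ring
    have h2 := hns _ h1 e
    rw [C.D_add_left, C.D_smul_left, hDe e, C.T_smul_mid] at h2
    have h3 : C.T x e e = 0 := by
      rw [C.T_swap12, C.T_swap23, C.T_self, hDe, mul_zero]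
    rw [h3] at h2
    apply hne
    simpa using h2
  have hiff : ∀ x, C.G x = 0 ↔ x ∈ C.vert := by
    intro e
    constructor
    · intro he
      exact ⟨he, fun x => ⟨hns e he x, key e he x⟩⟩
    · exact fun h => h.1
  refine ⟨hiff, ?_⟩
  obtain ⟨W, hW⟩ := Submodule.exists_isCompl C.vert
  have h1 : finrank K C.vert + finrank K W = finrank K V := Submodule.finrank_add_eq_of_isCompl hW
  have h2 : finrank K W ≤ 3 := by
    by_contra h
    obtain ⟨x, hx, hx0, hGx⟩ := C.exists_zero W (by omega)
    have h3 : x ∈ C.vert ⊓ W := ⟨(hiff x).1 hGx, hx⟩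
    rw [hW.inf_eq_bot] at h3
    exact hx0 ((Submodule.mem_bot K).1 h3)
  omega

/-- the vertex is a subspace on which the form vanishes -/
lemma vanishOn_vert : C.VanishOn C.vert := by
  intro x hx y hy z hz
  refine ⟨hx.1, (hx.2 y).1, ?_⟩
  have h := C.D_add_left x y z
  rw [(hz.2 _).2, (hz.2 _).2, (hz.2 _).2] at h
  simpa using h.symm

/-- a cubic form vanishing on no subspace of codimension at most three has a smooth zero -/
theorem exists_smooth_zero (h : ∀ W : Submodule K V, finrank K V ≤ finrank K W + 3 → ¬ C.VanishOn W) :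
    ∃ u, C.G u = 0 ∧ ∃ v, C.D u v ≠ 0 := by
  by_contra hcon
  push Not at hcon
  exact h _ (C.vert_of_no_smooth hcon).2 C.vanishOn_vert

end cw

end Cubic

end Pool.Agent.LibCubicLines
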