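import Pool.Agent.LibCubicLines.SmoothLines

/-!
Cubic forms over a finite field which vanish on no subspace of codimension at most four and whose
vertex has codimension at least seven: a line outside the vertex forces a smooth line.
-/

namespace Pool.Agent.LibCubicLines

open Module

namespace Cubic

section linalg

variable {K V : Type*} [Field K] [AddCommGroup V] [Module K V] [FiniteDimensional K V]

lemma exists_disjoint_sub (S B A : Submodule K V) (hA : Disjoint A B) :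
    ∃ W : Submodule K V, A ≤ W ∧ Disjoint (W ⊓ S) B ∧
      finrank K S ≤ finrank K (W ⊓ S : Submodule K V) + finrank K B := by
  obtain ⟨W, hAW, hW⟩ := hA.exists_isCompl
  refine ⟨W, hAW, hW.disjoint.mono_left inf_le_left, ?_⟩
  have h1 := Submodule.finrank_sup_add_finrank_inf_eq W S
  have h2 : finrank K (W ⊔ S : Submodule K V) ≤ finrank K V := Submodule.finrank_le _
  have h3 := Submodule.finrank_add_eq_of_isCompl hW
  omega

lemma finrank_le_ker (φ : V →ₗ[K] K) (S : Submodule K V) :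
    finrank K S ≤ finrank K (S ⊓ LinearMap.ker φ : Submodule K V) + 1 := by
  have h1 := Submodule.finrank_sup_add_finrank_inf_eq S (LinearMap.ker φ)
  have h2 : finrank K (S ⊔ LinearMap.ker φ : Submodule K V) ≤ finrank K V := Submodule.finrank_le _
  have h3 := LinearMap.finrank_range_add_finrank_ker φ
  have h4 : finrank K (LinearMap.range φ) ≤ 1 := by
    have := Submodule.finrank_le (LinearMap.range φ)
    simpa using this
  omega

end linalg

variable {K V : Type*} [Field K] [AddCommGroup V] [Module K V] (C : Cubic K V)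

lemma D_sub_right (x y z : V) : C.D x (y - z) = C.D x y - C.D x z := by
  have := map_sub (C.DL x) y z
  simpa using this

lemma D_neg_right (x y : V) : C.D x (-y) = - C.D x y := by
  have := map_neg (C.DL x) y
  simpa using this

section side

variable [Fintype K] [FiniteDimensional K V]

/-- a zero of the form off the hyperplane `φ = 0` inside the hyperplane `ψ = 0` -/
lemma exists_side_zero {φ ψ : V →ₗ[K] K} (Z : Submodule K V)
    (hZ : ∀ x, φ x = 0 → ψ x = 0 → C.G x = 0 → x ∈ Z) (hdim : finrank K Z + 5 ≤ finrank K V)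
    {x₁ : V} (h1 : ψ x₁ = 0) (h2 : φ x₁ ≠ 0) (hx₁ : x₁ ∉ Z) :
    ∃ x, ψ x = 0 ∧ φ x = φ x₁ ∧ C.G x = 0 ∧ (x - x₁ ∈ Z → x = x₁) := by
  have hd : Disjoint (K ∙ x₁) Z := (Submodule.disjoint_span_singleton_of_notMem hx₁).symm
  obtain ⟨W, hW1, hW2⟩ := hd.exists_isCompl
  have hxW : x₁ ∈ W := hW1 (Submodule.mem_span_singleton_self x₁)
  have h3 := Submodule.finrank_add_eq_of_isCompl hW2
  have h4 := finrank_le_ker ψ W
  obtain ⟨x, hx, hx0, hGx⟩ := C.exists_zero (W ⊓ LinearMap.ker ψ) (by omega)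
  have hxψ : ψ x = 0 := hx.2
  have hφ : φ x ≠ 0 := by
    intro h
    have h5 : x ∈ W ⊓ Z := ⟨hx.1, hZ x h hxψ hGx⟩
    rw [hW2.inf_eq_bot] at h5
    exact hx0 ((Submodule.mem_bot K).1 h5)
  refine ⟨(φ x₁ / φ x) • x, ?_, ?_, ?_, ?_⟩
  · rw [map_smul, hxψ, smul_zero]
  · rw [map_smul, smul_eq_mul]; field_simp
  · rw [C.G_smul, hGx, mul_zero]
  · intro h
    have h5 : (φ x₁ / φ x) • x - x₁ ∈ W ⊓ Z :=
      ⟨W.sub_mem (W.smul_mem _ hx.1) hxW, h⟩
    rw [hW2.inf_eq_bot] at h5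
    exact sub_eq_zero.1 ((Submodule.mem_bot K).1 h5)

/-- smooth zeros on one side -/
lemma exists_smooth_side (h5 : ∀ W : Submodule K V, finrank K V ≤ finrank K W + 4 → ¬ C.VanishOn W)
    (φ ψ : V →ₗ[K] K)
    (hns : ∀ m, φ m = 0 → ψ m = 0 → C.G m = 0 → ∀ v, φ v = 0 → ψ v = 0 → C.D m v = 0) :
    ∃ m, ψ m = 0 ∧ φ m ≠ 0 ∧ C.G m = 0 ∧ ∃ v, ψ v = 0 ∧ C.D m v ≠ 0 := by
  by_contra hcon
  have hstar : ∀ m, ψ m = 0 → φ m ≠ 0 → C.G m = 0 → ∀ v, ψ v = 0 → C.D m v = 0 := by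
    intro m h1 h2 h3 v hv
    by_contra h
    exact hcon ⟨m, h1, h2, h3, v, hv, h⟩
  -- the zeros in W₀
  set W₀ : Submodule K V := LinearMap.ker φ ⊓ LinearMap.ker ψ with hW₀
  have hW₀dim : finrank K V ≤ finrank K W₀ + 2 := by
    have h1 := finrank_le_ker φ (⊤ : Submodule K V)
    rw [top_inf_eq] at h1
    have h2 := finrank_le_ker ψ (LinearMap.ker φ)
    have h3 : finrank K (⊤ : Submodule K V) = finrank K V := finrank_top K V
    rw [hW₀]
    omega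
  obtain ⟨hv1, hv2⟩ := (C.comap W₀.subtype).vert_of_no_smooth (by
    rintro ⟨x, hx⟩ hGx ⟨y, hy⟩
    exact hns x hx.1 hx.2 hGx y hy.1 hy.2)
  set Z : Submodule K V := (C.comap W₀.subtype).vert.map W₀.subtype with hZdef
  have hZmem : ∀ x, φ x = 0 → ψ x = 0 → C.G x = 0 → x ∈ Z := by
    intro x h1 h2 h3
    exact ⟨⟨x, h1, h2⟩, (hv1 ⟨x, h1, h2⟩).1 h3, rfl⟩
  have hZG : ∀ x ∈ Z, φ x = 0 ∧ ψ x = 0 ∧ C.G x = 0 := by
    rintro _ ⟨⟨x, hx⟩, hx', rfl⟩
    exact ⟨hx.1, hx.2, (hv1 ⟨x, hx⟩).2 hx'⟩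
  have hZvan : C.VanishOn Z := by
    rintro _ ⟨x, hx, rfl⟩ _ ⟨y, hy, rfl⟩ _ ⟨z, hz, rfl⟩
    exact (C.comap W₀.subtype).vanishOn_vert x hx y hy z hz
  have hZfin : finrank K Z = finrank K (C.comap W₀.subtype).vert :=
    Submodule.finrank_map_subtype_eq _ _
  have hZdim : finrank K Z + 5 ≤ finrank K V := by
    by_contra h
    exact h5 Z (by omega) hZvan
  -- a smooth zero of the restriction to ker ψ
  set U : Submodule K V := LinearMap.ker ψ with hU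
  have hUdim : finrank K V ≤ finrank K U + 1 := by
    have h1 := finrank_le_ker ψ (⊤ : Submodule K V)
    rw [top_inf_eq] at h1
    have h3 : finrank K (⊤ : Submodule K V) = finrank K V := finrank_top K V
    rw [hU]
    omega
  obtain ⟨⟨ω, hωU⟩, hGω, ⟨v, hvU⟩, hDω⟩ := (C.comap U.subtype).exists_smooth_zero (by
    intro W hW hvan
    refine h5 (W.map U.subtype) ?_ ?_
    · rw [Submodule.finrank_map_subtype_eq]
      omega
    · rintro _ ⟨x, hx, rfl⟩ _ ⟨y, hy, rfl⟩ _ ⟨z, hz, rfl⟩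
      exact hvan x hx y hy z hz)
  change C.G ω = 0 at hGω
  change C.D ω v ≠ 0 at hDω
  have hωψ : ψ ω = 0 := hωU
  have hvψ : ψ v = 0 := hvU
  have hωφ : φ ω = 0 := by
    by_contra h
    exact hDω (hstar ω hωψ h hGω v hvψ)
  have hωZ : ω ∈ Z := hZmem ω hωφ hωψ hGω
  have hvφ : φ v ≠ 0 := fun h => hDω (hns ω hωφ hωψ hGω v h hvψ)
  have hvZ : v ∉ Z := fun h => hvφ (hZG v h).1
  obtain ⟨x₀, hx₀ψ, hx₀φ, hGx₀, -⟩ := C.exists_side_zero Z hZmem hZdim hvψ hvφ hvZ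
  have hx₀φ' : φ x₀ ≠ 0 := by rw [hx₀φ]; exact hvφ
  have hDωx₀ : C.D ω x₀ ≠ 0 := by
    have h1 := hns ω hωφ hωψ hGω (v - x₀) (by rw [map_sub, hx₀φ, sub_self])
      (by rw [map_sub, hvψ, hx₀ψ, sub_self])
    rw [C.D_sub_right, sub_eq_zero] at h1
    rwa [← h1]
  have hDx₀ω : C.D x₀ ω = 0 := hstar x₀ hx₀ψ hx₀φ' hGx₀ ω hωψ
  have hG1 : C.G (x₀ + ω) ≠ 0 := by
    rw [C.G_add, hGx₀, hDx₀ω, hGω]
    simpa using hDωx₀
  have h1ψ : ψ (x₀ + ω) = 0 := by rw [map_add, hx₀ψ, hωψ, add_zero]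
  have h1φ : φ (x₀ + ω) = φ x₀ := by rw [map_add, hωφ, add_zero]
  have h1φ' : φ (x₀ + ω) ≠ 0 := by rw [h1φ]; exact hx₀φ'
  obtain ⟨x, hxψ, hxφ, hGx, hxeq⟩ := C.exists_side_zero Z hZmem hZdim h1ψ h1φ'
    (fun h => h1φ' (hZG _ h).1)
  have hxφ' : φ x ≠ 0 := by rw [hxφ]; exact h1φ'
  -- the difference of two such zeros is in Z
  have hwψ : ψ (x - x₀) = 0 := by rw [map_sub, hxψ, hx₀ψ, sub_self]
  have hwφ : φ (x - x₀) = 0 := by rw [map_sub, hxφ, h1φ, sub_self]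
  have hGw : C.G (x - x₀) = 0 := by
    set w := x - x₀ with hw
    have hxw : x = x₀ + w := by rw [hw]; abel
    have e1 : C.D w x₀ = 0 := by
      have h1 := hstar x hxψ hxφ' hGx x₀ hx₀ψ
      rw [hxw, C.D_add_left, hstar x₀ hx₀ψ hx₀φ' hGx₀ x₀ hx₀ψ, C.T_swap23, C.T_self,
        hstar x₀ hx₀ψ hx₀φ' hGx₀ w hwψ] at h1
      simpa using h1
    have h2 := hGx
    rw [hxw, C.G_add, hGx₀, hstar x₀ hx₀ψ hx₀φ' hGx₀ w hwψ, e1] at h2
    simpa using h2
  have hwZ : x - x₀ ∈ Z := hZmem _ hwφ hwψ hGw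
  have h6 : x - (x₀ + ω) ∈ Z := by
    have : x - (x₀ + ω) = (x - x₀) - ω := by abel
    rw [this]
    exact Z.sub_mem hwZ hωZ
  have h7 := hxeq h6
  rw [h7] at hGx
  exact hG1 hGx

end side

end Cubic

end Pool.Agent.LibCubicLines
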