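import Pool.Agent.LibCubicLines.Basic

/-!
Hensel lemma for finitely many functions on a module over the p-adic integers, and its
application to isotropic pairs of integral cubic forms.
-/

namespace Pool.Agent.LibCubicLines

section

variable {p : ℕ} [hp : Fact p.Prime]

lemma exists_limit (f : ℕ → ℤ_[p]) (hf : ∀ m, (p : ℤ_[p]) ^ m ∣ f (m + 1) - f m) :
    ∃ L, ∀ m, (p : ℤ_[p]) ^ m ∣ L - f m := by
  have key : ∀ m n, m ≤ n → (p : ℤ_[p]) ^ m ∣ f n - f m := by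
    intro m n hmn
    induction n, hmn using Nat.le_induction with
    | base => simp
    | succ n hmn ih =>
      have h1 : (p : ℤ_[p]) ^ m ∣ f (n + 1) - f n := (pow_dvd_pow _ hmn).trans (hf n)
      have : f (n + 1) - f m = (f (n + 1) - f n) + (f n - f m) := by ring
      rw [this]
      exact dvd_add h1 ih
  have hc : IsPrecomplete (IsLocalRing.maximalIdeal ℤ_[p]) ℤ_[p] := inferInstance
  have hI : ∀ m, (IsLocalRing.maximalIdeal ℤ_[p]) ^ m • (⊤ : Submodule ℤ_[p] ℤ_[p])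
      = Ideal.span {(p : ℤ_[p]) ^ m} := by
    intro m
    rw [PadicInt.maximalIdeal_eq_span_p, Ideal.span_singleton_pow]
    simp
  obtain ⟨L, hL⟩ := hc.prec (f := f) (by
    intro m n hmn
    rw [SModEq.sub_mem, hI, Ideal.mem_span_singleton]
    have := key m n hmn
    rw [← neg_sub]
    exact (dvd_neg).2 this)
  refine ⟨L, fun m => ?_⟩
  have h2 := hL m
  rw [SModEq.sub_mem, hI, Ideal.mem_span_singleton] at h2
  rw [← neg_sub]
  exact (dvd_neg).2 h2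

lemma eq_zero_of_forall_dvd (x : ℤ_[p]) (h : ∀ m, (p : ℤ_[p]) ^ m ∣ x) : x = 0 := by
  by_contra hx
  have hfin : FiniteMultiplicity (p : ℤ_[p]) x :=
    FiniteMultiplicity.of_prime_left PadicInt.prime_p hx
  exact hfin.not_pow_dvd_of_multiplicity_lt (lt_add_one _) (h _)

/-- Hensel lemma: finitely many functions whose first order parts are onto modulo `p`. -/
theorem hensel {X : Type*} [AddCommGroup X] [Module ℤ_[p] X] {ι : Type*} [Fintype ι]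
    [DecidableEq ι]
    (E : ι → X → ℤ_[p]) (l : ι → X →ₗ[ℤ_[p]] ℤ_[p]) (e : ι → ℕ)
    (h0 : ∀ i, (p : ℤ_[p]) ^ e i ∣ E i 0)
    (h1 : ∀ i x z (j : ℕ), (p : ℤ_[p]) ^ (e i + j + 1) ∣
      E i (x + (p : ℤ_[p]) ^ j • z) - E i x - (p : ℤ_[p]) ^ j * l i z)
    (hs : ∀ b : ι → ℤ_[p], ∃ z, ∀ i, (p : ℤ_[p]) ^ (e i + 1) ∣ l i z - (p : ℤ_[p]) ^ e i * b i) :
    ∃ x, ∀ i, E i x = 0 := by
  classical
  choose ξ hξ using fun i : ι => hs (Pi.single i 1)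
  -- the parametrisation
  let S : (ι → ℤ_[p]) → X := fun a => ∑ i, a i • ξ i
  have hSadd : ∀ a b, S (a + b) = S a + S b := by
    intro a b
    simp [S, add_smul, Finset.sum_add_distrib]
  have hSsmul : ∀ (c : ℤ_[p]) a, S (c • a) = c • S a := by
    intro c a
    simp [S, mul_smul, Finset.smul_sum]
  -- value of l on S b
  have hlS : ∀ i (b : ι → ℤ_[p]), (p : ℤ_[p]) ^ (e i + 1) ∣ l i (S b) - (p : ℤ_[p]) ^ e i * b i := by
    intro i b
    have h3 : l i (S b) - (p : ℤ_[p]) ^ e i * b i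
        = ∑ k, b k * (l i (ξ k) - (p : ℤ_[p]) ^ e i * (Pi.single k (1 : ℤ_[p]) : ι → ℤ_[p]) i) := by
      simp only [S, map_sum, map_smul, smul_eq_mul, mul_sub, Finset.sum_sub_distrib]
      congr 1
      rw [Finset.sum_eq_single i]
      · simp [mul_comm]
      · intro k _ hk
        simp [hk.symm]
      · simp
    rw [h3]
    exact Finset.dvd_sum fun k _ => Dvd.dvd.mul_left (hξ k i) _
  -- one step
  have step : ∀ (m : ℕ) (a : ι → ℤ_[p]), (∀ i, (p : ℤ_[p]) ^ (e i + m) ∣ E i (S a)) →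
      ∃ b : ι → ℤ_[p], ∀ i, (p : ℤ_[p]) ^ (e i + (m + 1)) ∣ E i (S (a + (p : ℤ_[p]) ^ m • b)) := by
    intro m a ha
    choose c hc using ha
    refine ⟨-c, fun i => ?_⟩
    obtain ⟨q, hq⟩ := h1 i (S a) (S (-c)) m
    obtain ⟨r, hr⟩ := hlS i (-c)
    rw [hSadd, hSsmul]
    refine ⟨q + r, ?_⟩
    have hcq : E i (S a + (p : ℤ_[p]) ^ m • S (-c)) =
      (p : ℤ_[p]) ^ (e i + m + 1) * q + E i (S a) + (p : ℤ_[p]) ^ m * l i (S (-c)) := by
        rw [← hq]; ring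
    have hcr : l i (S (-c)) = (p : ℤ_[p]) ^ (e i + 1) * r - (p : ℤ_[p]) ^ e i * c i := by
      have : l i (S (-c)) = (l i (S (-c)) - (p : ℤ_[p]) ^ e i * (-c) i) + (p : ℤ_[p]) ^ e i * (-c) i := by
        ring
      rw [this, hr]
      simp
      ring
    rw [hcq, hcr, hc i]
    ring
  choose! B hB using step
  let F : ℕ → (ι → ℤ_[p]) := fun m => Nat.rec 0 (fun m a => a + (p : ℤ_[p]) ^ m • B m a) m
  have hF0 : F 0 = 0 := rfl
  have hFs : ∀ m, F (m + 1) = F m + (p : ℤ_[p]) ^ m • B m (F m) := fun m => rfl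
  have hFE : ∀ m i, (p : ℤ_[p]) ^ (e i + m) ∣ E i (S (F m)) := by
    intro m
    induction m with
    | zero =>
      intro i
      have : S (F 0) = 0 := by simp [hF0, S]
      rw [this]
      simpa using h0 i
    | succ m ih =>
      intro i
      rw [hFs]
      exact hB m (F m) ih i
  have hlim : ∀ i, ∃ L, ∀ m, (p : ℤ_[p]) ^ m ∣ L - F m i := by
    intro i
    apply exists_limit
    intro m
    rw [hFs]
    simp
  choose L hL using hlim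
  have hLd : ∀ m, ∃ b : ι → ℤ_[p], L = F m + (p : ℤ_[p]) ^ m • b := by
    intro m
    choose b hb using fun i => hL i m
    refine ⟨b, ?_⟩
    funext i
    simp only [Pi.add_apply, Pi.smul_apply, smul_eq_mul]
    rw [← hb i]
    ring
  refine ⟨S L, fun i => ?_⟩
  apply eq_zero_of_forall_dvd
  intro m
  obtain ⟨b, hb⟩ := hLd m
  rw [hb, hSadd, hSsmul]
  obtain ⟨q, hq⟩ := h1 i (S (F m)) (S b) m
  obtain ⟨r, hr⟩ := hFE m i
  have : E i (S (F m) + (p : ℤ_[p]) ^ m • S b) =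
      (p : ℤ_[p]) ^ (e i + m + 1) * q + E i (S (F m)) + (p : ℤ_[p]) ^ m * l i (S b) := by
    rw [← hq]; ring
  rw [this, hr]
  refine dvd_add (dvd_add ?_ ?_) (dvd_mul_right _ _)
  · exact Dvd.dvd.mul_right (pow_dvd_pow _ (by omega)) _
  · exact Dvd.dvd.mul_right (pow_dvd_pow _ (by omega)) _

end

namespace Cubic

variable {R V : Type*} [CommRing R] [AddCommGroup V] [Module R V] (C : Cubic R V)

lemma G_exp (a : R) (x η : V) :
    C.G (x + a • η) = C.G x + a * C.D x η + a ^ 2 * C.D η x + a ^ 3 * C.G η := by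
  rw [C.G_add, C.G_smul, C.D_smul_left, C.D_smul_right]

lemma D_exp (a b : R) (x η w y : V) :
    C.D (x + a • η) (w + b • y) = C.D x w + b * C.D x y + a ^ 2 * C.D η w + a ^ 2 * b * C.D η y
      + a * C.T x η w + a * b * C.T x η y := by
  rw [C.D_add_left, C.D_add_right, C.D_add_right, C.D_smul_left, C.D_smul_left, C.D_smul_right,
    C.D_smul_right, C.T_smul_mid, C.T_add_right, C.T_smul_right]
  ring

lemma D_exp_left (a : R) (x η w : V) :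
    C.D (x + a • η) w = C.D x w + a ^ 2 * C.D η w + a * C.T x η w := by
  rw [C.D_add_left, C.D_smul_left, C.T_smul_mid]

lemma D_exp_right (b : R) (x w y : V) :
    C.D x (w + b • y) = C.D x w + b * C.D x y := by
  rw [C.D_add_right, C.D_smul_right]

lemma T_exp (a b c : R) (x x' y y' z z' : V) :
    C.T (x + a • x') (y + b • y') (z + c • z') = C.T x y z + a * C.T x' y z + b * C.T x y' z
      + c * C.T x y z' + a * b * C.T x' y' z + a * c * C.T x' y z' + b * c * C.T x y' z'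
      + a * b * c * C.T x' y' z' := by
  simp only [C.T_add_left, C.T_add_mid, C.T_add_right, C.T_smul_left, C.T_smul_mid, C.T_smul_right]
  ring

end Cubic

section lines

variable {p : ℕ} [hp : Fact p.Prime] {n : ℕ}

/-- the lattice of vectors whose reduction lies in `W` -/
noncomputable def latt (W : Submodule (ZMod p) (Fin n → ZMod p)) :
    Submodule ℤ_[p] (Fin n → ℤ_[p]) where
  carrier := {x | red x ∈ W}
  zero_mem' := by
    show red 0 ∈ W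
    rw [red_zero]
    exact W.zero_mem
  add_mem' := by
    intro a b ha hb
    show red (a + b) ∈ W
    rw [red_add]
    exact W.add_mem ha hb
  smul_mem' := by
    intro c a ha
    show red (c • a) ∈ W
    rw [red_smul]
    exact W.smul_mem _ ha

lemma mem_latt {W : Submodule (ZMod p) (Fin n → ZMod p)} {x : Fin n → ℤ_[p]} :
    x ∈ latt W ↔ red x ∈ W := Iff.rfl

/-- An approximate isotropic pair with onto differential lifts to an isotropic pair. -/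
theorem line_of_approx (C : Cubic ℤ_[p] (Fin n → ℤ_[p]))
    (W : Submodule (ZMod p) (Fin n → ZMod p)) (u0 w0 : Fin n → ℤ_[p]) (f1 f2 f3 : ℕ)
    (hf1 : (p : ℤ_[p]) ^ f1 ∣ p)
    (b0 : (p : ℤ_[p]) ∣ C.G u0) (b1 : (p : ℤ_[p]) ^ (f1 + 1) ∣ C.D u0 w0)
    (b2 : (p : ℤ_[p]) ^ (f2 + 1) ∣ C.D w0 u0) (b3 : (p : ℤ_[p]) ^ (f3 + 1) ∣ C.G w0)
    (c11 : ∀ x y, (p : ℤ_[p]) ^ f1 ∣ C.T x y w0)
    (c12 : ∀ x, (p : ℤ_[p]) ^ f1 ∣ C.D x w0)
    (c13 : ∀ x y, y ∈ latt W → (p : ℤ_[p]) ^ f1 ∣ C.T u0 x y)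
    (c21 : ∀ y x, y ∈ latt W → (p : ℤ_[p]) ^ f2 ∣ C.D y x)
    (c22 : ∀ y x, y ∈ latt W → (p : ℤ_[p]) ^ f2 ∣ C.T w0 y x)
    (c31 : ∀ y y', y ∈ latt W → y' ∈ latt W → (p : ℤ_[p]) ^ f3 ∣ C.T w0 y y')
    (c32 : ∀ y, y ∈ latt W → (p : ℤ_[p]) ^ f3 ∣ C.D y w0)
    (c33 : ∀ y y', y ∈ latt W → y' ∈ latt W → (p : ℤ_[p]) ^ f3 ∣ p * C.D y y')
    (c34 : ∀ y, y ∈ latt W → (p : ℤ_[p]) ^ f3 ∣ p * C.G y)
    (hs : ∀ t0 t1 t2 t3 : ℤ_[p], ∃ η y, y ∈ latt W ∧ (p : ℤ_[p]) ∣ C.D u0 η - t0 ∧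
      (p : ℤ_[p]) ^ (f1 + 1) ∣ C.D u0 y + C.T u0 η w0 - (p : ℤ_[p]) ^ f1 * t1 ∧
      (p : ℤ_[p]) ^ (f2 + 1) ∣ C.D w0 η + C.T w0 y u0 - (p : ℤ_[p]) ^ f2 * t2 ∧
      (p : ℤ_[p]) ^ (f3 + 1) ∣ C.D w0 y - (p : ℤ_[p]) ^ f3 * t3) :
    ∃ u w, red u = red u0 ∧ red w = red w0 ∧ C.IsLine u w := by
  have hTyy : ∀ y y' x, y ∈ latt W → y' ∈ latt W → (p : ℤ_[p]) ^ f2 ∣ C.T y y' x := by
    intro y y' x hy hy'
    have h1 := C.D_add_left y y' x
    have h2 : C.T y y' x = C.D (y + y') x - C.D y x - C.D y' x := by rw [h1]; ring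
    rw [h2]
    exact dvd_sub (dvd_sub (c21 _ _ ((latt W).add_mem hy hy')) (c21 _ _ hy)) (c21 _ _ hy')
  let X := (Fin n → ℤ_[p]) × latt W
  let E : Fin 4 → X → ℤ_[p] := ![
    fun x => C.G (u0 + (p : ℤ_[p]) • x.1),
    fun x => C.D (u0 + (p : ℤ_[p]) • x.1) (w0 + (p : ℤ_[p]) • (x.2 : Fin n → ℤ_[p])),
    fun x => C.D (w0 + (p : ℤ_[p]) • (x.2 : Fin n → ℤ_[p])) (u0 + (p : ℤ_[p]) • x.1),
    fun x => C.G (w0 + (p : ℤ_[p]) • (x.2 : Fin n → ℤ_[p]))]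
  let l : Fin 4 → X →ₗ[ℤ_[p]] ℤ_[p] := ![
    (p : ℤ_[p]) • (C.DL u0 ∘ₗ LinearMap.fst _ _ _),
    (p : ℤ_[p]) • (C.DL u0 ∘ₗ (latt W).subtype ∘ₗ LinearMap.snd _ _ _ +
      C.TL u0 w0 ∘ₗ LinearMap.fst _ _ _),
    (p : ℤ_[p]) • (C.DL w0 ∘ₗ LinearMap.fst _ _ _ +
      C.TL w0 u0 ∘ₗ (latt W).subtype ∘ₗ LinearMap.snd _ _ _),
    (p : ℤ_[p]) • (C.DL w0 ∘ₗ (latt W).subtype ∘ₗ LinearMap.snd _ _ _)]
  let e : Fin 4 → ℕ := ![1, f1 + 1, f2 + 1, f3 + 1]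
  have hex : ∃ x, ∀ i, E i x = 0 := by
    apply hensel E l e
    · rw [Fin.forall_fin_succ, Fin.forall_fin_succ, Fin.forall_fin_succ, Fin.forall_fin_succ]
      refine ⟨?_, ?_, ?_, ?_, fun i => i.elim0⟩
      · simpa [E, e] using b0
      · simpa [E, e] using b1
      · simpa [E, e] using b2
      · simpa [E, e] using b3
    · rw [Fin.forall_fin_succ, Fin.forall_fin_succ, Fin.forall_fin_succ, Fin.forall_fin_succ]
      refine ⟨?_, ?_, ?_, ?_, fun i => i.elim0⟩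
      · rintro ⟨η', y', hy'⟩ ⟨η, y, hy⟩ j
        show (p : ℤ_[p]) ^ (1 + j + 1) ∣ C.G (u0 + (p : ℤ_[p]) • (η' + (p : ℤ_[p]) ^ j • η))
          - C.G (u0 + (p : ℤ_[p]) • η') - (p : ℤ_[p]) ^ j * (p * C.D u0 η)
        have h2 : u0 + (p : ℤ_[p]) • (η' + (p : ℤ_[p]) ^ j • η) =
          (u0 + (p : ℤ_[p]) • η') + ((p : ℤ_[p]) * (p : ℤ_[p]) ^ j) • η := by
            rw [smul_add, mul_smul, add_assoc]
        rw [h2, C.G_exp, C.D_exp_left]
        refine ⟨p * C.D η' η + C.T u0 η' η + (p : ℤ_[p]) ^ j * C.D η (u0 + (p : ℤ_[p]) • η')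
          + (p : ℤ_[p]) ^ (2 * j + 1) * C.G η, ?_⟩
        ring
      · rintro ⟨η', y', hy'⟩ ⟨η, y, hy⟩ j
        show (p : ℤ_[p]) ^ ((f1 + 1) + j + 1) ∣ C.D (u0 + (p : ℤ_[p]) • (η' + (p : ℤ_[p]) ^ j • η))
            (w0 + (p : ℤ_[p]) • (y' + (p : ℤ_[p]) ^ j • y))
          - C.D (u0 + (p : ℤ_[p]) • η') (w0 + (p : ℤ_[p]) • y')
          - (p : ℤ_[p]) ^ j * (p * (C.D u0 y + C.T u0 w0 η))
        have h2 : u0 + (p : ℤ_[p]) • (η' + (p : ℤ_[p]) ^ j • η) =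
          (u0 + (p : ℤ_[p]) • η') + ((p : ℤ_[p]) * (p : ℤ_[p]) ^ j) • η := by
            rw [smul_add, mul_smul, add_assoc]
        have h3 : w0 + (p : ℤ_[p]) • (y' + (p : ℤ_[p]) ^ j • y) =
          (w0 + (p : ℤ_[p]) • y') + ((p : ℤ_[p]) * (p : ℤ_[p]) ^ j) • y := by
            rw [smul_add, mul_smul, add_assoc]
        obtain ⟨q, hq⟩ := hf1
        obtain ⟨a1, ha1⟩ := c13 η' y hy
        obtain ⟨a2, ha2⟩ := c13 η y' hy'
        obtain ⟨a3, ha3⟩ := c11 η' η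
        obtain ⟨a4, ha4⟩ := c12 η
        obtain ⟨a5, ha5⟩ := c13 η y hy
        have e1 : C.D (u0 + (p : ℤ_[p]) • η') y = C.D u0 y + (p : ℤ_[p]) ^ 2 * C.D η' y
            + p * C.T u0 η' y := C.D_exp_left _ _ _ _
        have e2 : C.D η (w0 + (p : ℤ_[p]) • y') = C.D η w0 + p * C.D η y' := C.D_exp_right _ _ _ _
        have e3 : C.T (u0 + (p : ℤ_[p]) • η') η (w0 + (p : ℤ_[p]) • y') = C.T u0 w0 η
            + p * C.T η' η w0 + p * C.T u0 η y' + p ^ 2 * C.T η' η y' := by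
          rw [C.T_add_left, C.T_add_right, C.T_add_right, C.T_smul_left, C.T_smul_left,
            C.T_smul_right, C.T_smul_right, C.T_swap23 u0 η w0]
          ring
        have e4 : C.T (u0 + (p : ℤ_[p]) • η') η y = C.T u0 η y + p * C.T η' η y := by
          rw [C.T_add_left, C.T_smul_left]
        rw [h2, h3, C.D_exp, e1, e2, e3, e4, ha1, ha2, ha3, ha4, ha5]
        refine ⟨q * C.D η' y + a1 + a2 + a3 + q * C.T η' η y' + (p : ℤ_[p]) ^ j * (a4 + q * C.D η y'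
          + a5 + q * C.T η' η y) + (p : ℤ_[p]) ^ (2 * j) * q * C.D η y, ?_⟩
        have hq2 : (p : ℤ_[p]) ^ ((f1 + 1) + j + 1) * q = p ^ (j + 2) * p := by
          rw [show (f1 + 1) + j + 1 = j + 2 + f1 by ring, pow_add, mul_assoc, ← hq]
        linear_combination (C.D η' y + C.T η' η y' + (p : ℤ_[p]) ^ j * (C.D η y' + C.T η' η y) +
          (p : ℤ_[p]) ^ (2 * j) * C.D η y) * (-hq2)
      · rintro ⟨η', y', hy'⟩ ⟨η, y, hy⟩ j
        show (p : ℤ_[p]) ^ ((f2 + 1) + j + 1) ∣ C.D (w0 + (p : ℤ_[p]) • (y' + (p : ℤ_[p]) ^ j • y))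
            (u0 + (p : ℤ_[p]) • (η' + (p : ℤ_[p]) ^ j • η))
          - C.D (w0 + (p : ℤ_[p]) • y') (u0 + (p : ℤ_[p]) • η')
          - (p : ℤ_[p]) ^ j * (p * (C.D w0 η + C.T w0 u0 y))
        have h2 : u0 + (p : ℤ_[p]) • (η' + (p : ℤ_[p]) ^ j • η) =
          (u0 + (p : ℤ_[p]) • η') + ((p : ℤ_[p]) * (p : ℤ_[p]) ^ j) • η := by
            rw [smul_add, mul_smul, add_assoc]
        have h3 : w0 + (p : ℤ_[p]) • (y' + (p : ℤ_[p]) ^ j • y) =
          (w0 + (p : ℤ_[p]) • y') + ((p : ℤ_[p]) * (p : ℤ_[p]) ^ j) • y := by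
            rw [smul_add, mul_smul, add_assoc]
        obtain ⟨a1, ha1⟩ := c21 y' η hy'
        obtain ⟨a2, ha2⟩ := c22 y' η hy'
        obtain ⟨a3, ha3⟩ := c22 y η' hy
        obtain ⟨a4, ha4⟩ := hTyy y' y u0 hy' hy
        obtain ⟨a5, ha5⟩ := hTyy y' y η' hy' hy
        obtain ⟨a6, ha6⟩ := c21 y u0 hy
        obtain ⟨a7, ha7⟩ := c21 y η' hy
        obtain ⟨a8, ha8⟩ := c21 y η hy
        obtain ⟨a9, ha9⟩ := c22 y η hy
        obtain ⟨a10, ha10⟩ := hTyy y' y η hy' hy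
        have e1 : C.D (w0 + (p : ℤ_[p]) • y') η = C.D w0 η + (p : ℤ_[p]) ^ 2 * C.D y' η
            + p * C.T w0 y' η := C.D_exp_left _ _ _ _
        have e2 : C.D y (u0 + (p : ℤ_[p]) • η') = C.D y u0 + p * C.D y η' := C.D_exp_right _ _ _ _
        have e3 : C.T (w0 + (p : ℤ_[p]) • y') y (u0 + (p : ℤ_[p]) • η') = C.T w0 u0 y
            + p * C.T y' y u0 + p * C.T w0 y η' + p ^ 2 * C.T y' y η' := by
          rw [C.T_add_left, C.T_add_right, C.T_add_right, C.T_smul_left, C.T_smul_left,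
            C.T_smul_right, C.T_smul_right, C.T_swap23 w0 y u0]
          ring
        have e4 : C.T (w0 + (p : ℤ_[p]) • y') y η = C.T w0 y η + p * C.T y' y η := by
          rw [C.T_add_left, C.T_smul_left]
        rw [h2, h3, C.D_exp, e1, e2, e3, e4, ha1, ha2, ha3, ha4, ha5, ha6, ha7, ha8, ha9, ha10]
        refine ⟨p * a1 + a2 + a4 + a3 + p * a5 + (p : ℤ_[p]) ^ j * (a6 + p * a7
          + a9 + p * a10) + (p : ℤ_[p]) ^ (2 * j) * p * a8, ?_⟩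
        ring
      · rintro ⟨η', y', hy'⟩ ⟨η, y, hy⟩ j
        show (p : ℤ_[p]) ^ ((f3 + 1) + j + 1) ∣ C.G (w0 + (p : ℤ_[p]) • (y' + (p : ℤ_[p]) ^ j • y))
          - C.G (w0 + (p : ℤ_[p]) • y') - (p : ℤ_[p]) ^ j * (p * C.D w0 y)
        have h2 : w0 + (p : ℤ_[p]) • (y' + (p : ℤ_[p]) ^ j • y) =
          (w0 + (p : ℤ_[p]) • y') + ((p : ℤ_[p]) * (p : ℤ_[p]) ^ j) • y := by
            rw [smul_add, mul_smul, add_assoc]
        obtain ⟨a1, ha1⟩ := c33 y' y hy' hy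
        obtain ⟨a2, ha2⟩ := c31 y' y hy' hy
        obtain ⟨a3, ha3⟩ := c32 y hy
        obtain ⟨a4, ha4⟩ := c33 y y' hy hy'
        obtain ⟨a5, ha5⟩ := c34 y hy
        rw [h2, C.G_exp, C.D_exp_left, C.D_exp_right]
        refine ⟨a1 + a2 + (p : ℤ_[p]) ^ j * (a3 + a4)
          + (p : ℤ_[p]) ^ (2 * j) * a5, ?_⟩
        linear_combination (p : ℤ_[p]) ^ (j + 2) * ha1 + (p : ℤ_[p]) ^ (j + 2) * ha2
          + (p : ℤ_[p]) ^ (2 * j + 2) * ha3 + (p : ℤ_[p]) ^ (2 * j + 2) * ha4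
          + (p : ℤ_[p]) ^ (3 * j + 2) * ha5
    · intro b
      obtain ⟨η, y, hy, h1, h2, h3, h4⟩ := hs (b 0) (b 1) (b 2) (b 3)
      refine ⟨(η, ⟨y, hy⟩), ?_⟩
      rw [Fin.forall_fin_succ, Fin.forall_fin_succ, Fin.forall_fin_succ, Fin.forall_fin_succ]
      refine ⟨?_, ?_, ?_, ?_, fun i => i.elim0⟩
      · show (p : ℤ_[p]) ^ (1 + 1) ∣ p * C.D u0 η - p ^ 1 * b 0
        obtain ⟨c, hc⟩ := h1
        exact ⟨c, by linear_combination (p : ℤ_[p]) * hc⟩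
      · show (p : ℤ_[p]) ^ (f1 + 1 + 1) ∣ p * (C.D u0 y + C.T u0 w0 η) - p ^ (f1 + 1) * b 1
        obtain ⟨c, hc⟩ := h2
        rw [C.T_swap23 u0 η w0] at hc
        exact ⟨c, by linear_combination (p : ℤ_[p]) * hc⟩
      · show (p : ℤ_[p]) ^ (f2 + 1 + 1) ∣ p * (C.D w0 η + C.T w0 u0 y) - p ^ (f2 + 1) * b 2
        obtain ⟨c, hc⟩ := h3
        rw [C.T_swap23 w0 y u0] at hc
        exact ⟨c, by linear_combination (p : ℤ_[p]) * hc⟩
      · show (p : ℤ_[p]) ^ (f3 + 1 + 1) ∣ p * C.D w0 y - p ^ (f3 + 1) * b 3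
        obtain ⟨c, hc⟩ := h4
        exact ⟨c, by linear_combination (p : ℤ_[p]) * hc⟩
  obtain ⟨x, hx⟩ := hex
  exact ⟨u0 + (p : ℤ_[p]) • x.1, w0 + (p : ℤ_[p]) • (x.2 : Fin n → ℤ_[p]),
    (red_eq_iff _ _).2 ⟨_, rfl⟩, (red_eq_iff _ _).2 ⟨_, rfl⟩, hx 0, hx 1, hx 2, hx 3⟩

end lines

end Pool.Agent.LibCubicLines
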