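import Pool.Agent.LibCubicLines.Hensel
import Pool.Agent.LibCubicLines.FiniteBasic

/-!
Reduction of an integral cubic form divided by `p ^ m` on a sublattice.
-/

namespace Pool.Agent.LibCubicLines

variable {p : ℕ} [hp : Fact p.Prime] {n : ℕ}

open Classical in
/-- `x / p ^ m` modulo `p` (zero if `x` is not divisible by `p ^ m`) -/
noncomputable def quo (m : ℕ) (x : ℤ_[p]) : ZMod p :=
  if h : (p : ℤ_[p]) ^ m ∣ x then PadicInt.toZMod h.choose else 0

lemma ppow_ne (m : ℕ) : (p : ℤ_[p]) ^ m ≠ 0 :=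
  pow_ne_zero _ (by exact_mod_cast hp.out.ne_zero)

lemma quo_mul (m : ℕ) (a : ℤ_[p]) : quo m ((p : ℤ_[p]) ^ m * a) = PadicInt.toZMod a := by
  have h : (p : ℤ_[p]) ^ m ∣ (p : ℤ_[p]) ^ m * a := dvd_mul_right _ _
  rw [quo, dif_pos h]
  have h1 := h.choose_spec
  have h2 : a = h.choose := mul_left_cancel₀ (ppow_ne m) h1
  rw [← h2]

lemma quo_of_eq {m : ℕ} {x a : ℤ_[p]} (h : x = (p : ℤ_[p]) ^ m * a) :
    quo m x = PadicInt.toZMod a := by
  rw [h, quo_mul]

lemma quo_eq_zero {m : ℕ} {x : ℤ_[p]} (h : (p : ℤ_[p]) ^ m ∣ x) :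
    quo m x = 0 ↔ (p : ℤ_[p]) ^ (m + 1) ∣ x := by
  obtain ⟨a, rfl⟩ := h
  rw [quo_mul, toZMod_eq_zero_iff, pow_succ]
  exact (mul_dvd_mul_iff_left (ppow_ne m)).symm

/-- divisibility needed in order to divide the form by `p ^ m` on the lattice over `W` -/
structure LevelOK (C : Cubic ℤ_[p] (Fin n → ℤ_[p])) (W : Submodule (ZMod p) (Fin n → ZMod p))
    (m : ℕ) : Prop where
  hm : (p : ℤ_[p]) ^ m ∣ (p : ℤ_[p]) ^ 2
  hG : ∀ x ∈ latt W, (p : ℤ_[p]) ^ m ∣ C.G x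
  hD : ∀ x ∈ latt W, ∀ v, (p : ℤ_[p]) ^ m ∣ C.D x v
  hD' : ∀ x ∈ latt W, ∀ v, (p : ℤ_[p]) ^ m ∣ p * C.D v x

namespace LevelOK

variable {C : Cubic ℤ_[p] (Fin n → ℤ_[p])} {W : Submodule (ZMod p) (Fin n → ZMod p)} {m : ℕ}
  (h : LevelOK C W m)

omit h in
lemma psmul_mem (v : Fin n → ℤ_[p]) : (p : ℤ_[p]) • v ∈ latt W := by
  rw [mem_latt, (red_eq_zero_iff _).2 ⟨v, rfl⟩]
  exact W.zero_mem

omit h in
lemma lift_mem (x : W) : lift (x : Fin n → ZMod p) ∈ latt W := by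
  rw [mem_latt, red_lift]; exact x.2

include h

lemma hT (x y v : Fin n → ℤ_[p]) (hx : x ∈ latt W) (hy : y ∈ latt W) :
    (p : ℤ_[p]) ^ m ∣ C.T x y v := by
  have h1 := C.D_add_left x y v
  have h2 : C.T x y v = C.D (x + y) v - C.D x v - C.D y v := by rw [h1]; ring
  rw [h2]
  exact dvd_sub (dvd_sub (h.hD _ ((latt W).add_mem hx hy) _) (h.hD _ hx _)) (h.hD _ hy _)

lemma hT' (x v v' : Fin n → ℤ_[p]) (hx : x ∈ latt W) :
    (p : ℤ_[p]) ^ m ∣ p * C.T x v v' := by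
  have h1 := h.hT x ((p : ℤ_[p]) • v) v' hx (psmul_mem v)
  rwa [C.T_smul_mid] at h1

lemma quoG (x y : Fin n → ℤ_[p]) (hy : y ∈ latt W) (hxy : red x = red y) :
    quo m (C.G x) = quo m (C.G y) := by
  obtain ⟨z, rfl⟩ := (red_eq_iff _ _).1 hxy
  obtain ⟨a, ha⟩ := h.hG y hy
  obtain ⟨b, hb⟩ := h.hD y hy z
  obtain ⟨c, hc⟩ := h.hD' y hy z
  obtain ⟨d, hd⟩ := h.hm
  have e1 : C.G (y + (p : ℤ_[p]) • z) = (p : ℤ_[p]) ^ m * (a + p * (b + c + d * C.G z)) := by
    rw [C.G_exp, ha, hb]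
    linear_combination (p : ℤ_[p]) * hc + (p : ℤ_[p]) * C.G z * hd
  rw [quo_of_eq e1, quo_of_eq ha]
  simp

lemma quoD (x y x' y' : Fin n → ℤ_[p]) (hx' : x' ∈ latt W) (hy' : y' ∈ latt W)
    (hx : red x = red x') (hy : red y = red y') :
    quo m (C.D x y) = quo m (C.D x' y') := by
  obtain ⟨z, rfl⟩ := (red_eq_iff _ _).1 hx
  obtain ⟨w, rfl⟩ := (red_eq_iff _ _).1 hy
  obtain ⟨a, ha⟩ := h.hD x' hx' y'
  obtain ⟨b, hb⟩ := h.hD x' hx' w
  obtain ⟨c, hc⟩ := h.hD' y' hy' z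
  obtain ⟨d, hd⟩ := h.hm
  obtain ⟨f, hf⟩ := h.hT x' y' z hx' hy'
  obtain ⟨g, hg⟩ := h.hT' x' z w hx'
  have e1 : C.D (x' + (p : ℤ_[p]) • z) (y' + (p : ℤ_[p]) • w) =
      (p : ℤ_[p]) ^ m * (a + p * (b + c + d * C.D z w + f + g)) := by
    rw [C.D_exp, ha, hb, C.T_swap23 x' z y', hf]
    linear_combination (p : ℤ_[p]) * hc + (p : ℤ_[p]) * C.D z w * hd + (p : ℤ_[p]) * hg
  rw [quo_of_eq e1, quo_of_eq ha]
  simp

lemma quoT (x y z x' y' z' : Fin n → ℤ_[p]) (hx' : x' ∈ latt W) (hy' : y' ∈ latt W)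
    (hz' : z' ∈ latt W) (hx : red x = red x') (hy : red y = red y') (hz : red z = red z') :
    quo m (C.T x y z) = quo m (C.T x' y' z') := by
  obtain ⟨u, rfl⟩ := (red_eq_iff _ _).1 hx
  obtain ⟨v, rfl⟩ := (red_eq_iff _ _).1 hy
  obtain ⟨w, rfl⟩ := (red_eq_iff _ _).1 hz
  obtain ⟨a, ha⟩ := h.hT x' y' z' hx' hy'
  obtain ⟨b1, hb1⟩ := h.hT y' z' u hy' hz'
  obtain ⟨b2, hb2⟩ := h.hT x' z' v hx' hz'
  obtain ⟨b3, hb3⟩ := h.hT x' y' w hx' hy'
  obtain ⟨c1, hc1⟩ := h.hT' z' u v hz'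
  obtain ⟨c2, hc2⟩ := h.hT' y' u w hy'
  obtain ⟨c3, hc3⟩ := h.hT' x' v w hx'
  obtain ⟨d, hd⟩ := h.hm
  have s1 : C.T u y' z' = C.T y' z' u := by rw [C.T_swap12, C.T_swap23]
  have s2 : C.T x' v z' = C.T x' z' v := C.T_swap23 _ _ _
  have s3 : C.T u v z' = C.T z' u v := by rw [C.T_swap23, C.T_swap12]
  have s4 : C.T u y' w = C.T y' u w := C.T_swap12 _ _ _
  have e1 : C.T (x' + (p : ℤ_[p]) • u) (y' + (p : ℤ_[p]) • v) (z' + (p : ℤ_[p]) • w) =
      (p : ℤ_[p]) ^ m * (a + p * (b1 + b2 + b3 + c1 + c2 + c3 + d * C.T u v w)) := by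
    rw [C.T_exp, s1, s2, s3, s4, ha, hb1, hb2, hb3]
    linear_combination (p : ℤ_[p]) * hc1 + (p : ℤ_[p]) * hc2 + (p : ℤ_[p]) * hc3
      + (p : ℤ_[p]) * C.T u v w * hd
  rw [quo_of_eq e1, quo_of_eq ha]
  simp

end LevelOK

lemma quo_add {m : ℕ} {x y : ℤ_[p]} (hx : (p : ℤ_[p]) ^ m ∣ x) (hy : (p : ℤ_[p]) ^ m ∣ y) :
    quo m (x + y) = quo m x + quo m y := by
  obtain ⟨a, rfl⟩ := hx
  obtain ⟨b, rfl⟩ := hy
  rw [← mul_add, quo_mul, quo_mul, quo_mul, map_add]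

lemma quo_smul {m : ℕ} {x : ℤ_[p]} (c : ℤ_[p]) (hx : (p : ℤ_[p]) ^ m ∣ x) :
    quo m (c * x) = PadicInt.toZMod c * quo m x := by
  obtain ⟨a, rfl⟩ := hx
  rw [mul_left_comm, quo_mul, quo_mul, map_mul]

attribute [irreducible] quo

section fields

variable {C : Cubic ℤ_[p] (Fin n → ℤ_[p])} {W : Submodule (ZMod p) (Fin n → ZMod p)} {m : ℕ}

/-- lift of an element of a subspace -/
noncomputable def liftW (x : W) : Fin n → ℤ_[p] := lift (x : Fin n → ZMod p)

lemma liftW_mem (x : W) : liftW x ∈ latt W := LevelOK.lift_mem x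

lemma red_liftW (x : W) : red (liftW x) = (x : Fin n → ZMod p) := red_lift _

lemma red_liftW_add (x y : W) : red (liftW (x + y)) = red (liftW x + liftW y) := by
  rw [red_add, red_liftW, red_liftW, red_liftW, Submodule.coe_add]

lemma red_liftW_smul (a : ZMod p) (x : W) :
    red (liftW (a • x)) = red (((a.val : ℕ) : ℤ_[p]) • liftW x) := by
  rw [red_smul, red_liftW, red_liftW, Submodule.coe_smul]
  simp

lemma toZMod_val (a : ZMod p) : PadicInt.toZMod (((a.val : ℕ) : ℤ_[p])) = a := by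
  simp

variable (h : LevelOK C W m)

include h

lemma level_G_add (x y : W) : quo m (C.G (liftW (x + y))) = quo m (C.G (liftW x)) +
    quo m (C.D (liftW x) (liftW y)) + quo m (C.D (liftW y) (liftW x)) +
    quo m (C.G (liftW y)) := by
  have hx := liftW_mem x
  have hy := liftW_mem y
  rw [h.quoG _ _ ((latt W).add_mem hx hy) (red_liftW_add x y), C.G_add]
  have h1 := h.hG _ hx
  have h2 := h.hG _ hy
  have h3 := h.hD _ hx (liftW y)
  have h4 := h.hD _ hy (liftW x)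
  have h5 := dvd_add h1 h3
  have h6 := dvd_add h5 h4
  rw [quo_add h6 h2, quo_add h5 h4, quo_add h1 h3]

lemma level_G_smul (a : ZMod p) (x : W) :
    quo m (C.G (liftW (a • x))) = a ^ 3 * quo m (C.G (liftW x)) := by
  have hx := liftW_mem x
  rw [h.quoG _ _ ((latt W).smul_mem _ hx) (red_liftW_smul a x), C.G_smul,
    quo_smul _ (h.hG _ hx), map_pow, toZMod_val]

lemma level_D_add_right (x y z : W) : quo m (C.D (liftW x) (liftW (y + z))) =
    quo m (C.D (liftW x) (liftW y)) + quo m (C.D (liftW x) (liftW z)) := by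
  have hx := liftW_mem x
  have hy := liftW_mem y
  have hz := liftW_mem z
  rw [h.quoD _ _ _ _ hx ((latt W).add_mem hy hz) rfl (red_liftW_add y z), C.D_add_right,
      quo_add (h.hD _ hx _) (h.hD _ hx _)]

lemma level_D_smul_right (a : ZMod p) (x y : W) : quo m (C.D (liftW x) (liftW (a • y))) =
    a * quo m (C.D (liftW x) (liftW y)) := by
  have hx := liftW_mem x
  have hy := liftW_mem y
  rw [h.quoD _ _ _ _ hx ((latt W).smul_mem _ hy) rfl (red_liftW_smul a y), C.D_smul_right,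
      quo_smul _ (h.hD _ hx _), toZMod_val]

lemma level_D_add_left (x y z : W) : quo m (C.D (liftW (x + y)) (liftW z)) =
    quo m (C.D (liftW x) (liftW z)) + quo m (C.D (liftW y) (liftW z)) +
      quo m (C.T (liftW x) (liftW y) (liftW z)) := by
  have hx := liftW_mem x
  have hy := liftW_mem y
  have hz := liftW_mem z
  rw [h.quoD _ _ _ _ ((latt W).add_mem hx hy) hz (red_liftW_add x y) rfl, C.D_add_left]
  have h1 := h.hD _ hx (liftW z)
  have h2 := h.hD _ hy (liftW z)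
  have h3 := h.hT _ _ (liftW z) hx hy
  rw [quo_add (dvd_add h1 h2) h3, quo_add h1 h2]

lemma level_D_smul_left (a : ZMod p) (x y : W) : quo m (C.D (liftW (a • x)) (liftW y)) =
    a ^ 2 * quo m (C.D (liftW x) (liftW y)) := by
  have hx := liftW_mem x
  have hy := liftW_mem y
  rw [h.quoD _ _ _ _ ((latt W).smul_mem _ hx) hy (red_liftW_smul a x) rfl, C.D_smul_left,
      quo_smul _ (h.hD _ hx _), map_pow, toZMod_val]

lemma level_T_add_left (x x' y z : W) : quo m (C.T (liftW (x + x')) (liftW y) (liftW z)) =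
    quo m (C.T (liftW x) (liftW y) (liftW z)) + quo m (C.T (liftW x') (liftW y) (liftW z)) := by
  have hx := liftW_mem x
  have hx' := liftW_mem x'
  have hy := liftW_mem y
  have hz := liftW_mem z
  rw [h.quoT _ _ _ _ _ _ ((latt W).add_mem hx hx') hy hz (red_liftW_add x x') rfl rfl,
    C.T_add_left, quo_add (h.hT _ _ _ hx hy) (h.hT _ _ _ hx' hy)]

lemma level_T_smul_left (a : ZMod p) (x y z : W) :
    quo m (C.T (liftW (a • x)) (liftW y) (liftW z)) =
    a * quo m (C.T (liftW x) (liftW y) (liftW z)) := by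
  have hx := liftW_mem x
  have hy := liftW_mem y
  have hz := liftW_mem z
  rw [h.quoT _ _ _ _ _ _ ((latt W).smul_mem _ hx) hy hz (red_liftW_smul a x) rfl rfl,
    C.T_smul_left, quo_smul _ (h.hT _ _ _ hx hy), toZMod_val]

end fields

/-- the form divided by `p ^ m`, reduced modulo `p`, on `W` -/
noncomputable def level (C : Cubic ℤ_[p] (Fin n → ℤ_[p]))
    (W : Submodule (ZMod p) (Fin n → ZMod p)) (m : ℕ) (h : LevelOK C W m) :
    Cubic (ZMod p) W where
  G x := quo m (C.G (liftW x))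
  D x y := quo m (C.D (liftW x) (liftW y))
  T x y z := quo m (C.T (liftW x) (liftW y) (liftW z))
  G_add := level_G_add h
  G_smul := level_G_smul h
  D_add_right := level_D_add_right h
  D_smul_right := level_D_smul_right h
  D_add_left := level_D_add_left h
  D_smul_left := level_D_smul_left h
  T_add_left := level_T_add_left h
  T_smul_left := level_T_smul_left h
  T_swap12 x y z := by rw [C.T_swap12]
  T_swap23 x y z := by rw [C.T_swap23]
  D_self x := by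
    rw [C.D_self, quo_smul _ (h.hG _ (liftW_mem x)), map_ofNat]
  T_self x y := by
    rw [C.T_self, quo_smul _ (h.hD _ (liftW_mem x) _), map_ofNat]

section

variable {C : Cubic ℤ_[p] (Fin n → ℤ_[p])} {W : Submodule (ZMod p) (Fin n → ZMod p)} {m : ℕ}
  (h : LevelOK C W m)

lemma level_G (x : Fin n → ℤ_[p]) (hx : x ∈ latt W) :
    (level C W m h).G ⟨red x, hx⟩ = quo m (C.G x) :=
  h.quoG _ _ hx (red_liftW _)

lemma level_D (x y : Fin n → ℤ_[p]) (hx : x ∈ latt W) (hy : y ∈ latt W) :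
    (level C W m h).D ⟨red x, hx⟩ ⟨red y, hy⟩ = quo m (C.D x y) :=
  h.quoD _ _ _ _ hx hy (red_liftW _) (red_liftW _)

include h in
/-- If the divided form has no smooth zero on `W`, then its zeros form a subspace of codimension
at most three in `W`, and the form is divisible by `p ^ (m + 1)` there. -/
lemma level_no_smooth (hns : ∀ x y, x ∈ latt W → y ∈ latt W →
    (p : ℤ_[p]) ^ (m + 1) ∣ C.G x → (p : ℤ_[p]) ^ (m + 1) ∣ C.D x y) :
    ∃ W' : Submodule (ZMod p) (Fin n → ZMod p), W' ≤ W ∧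
      Module.finrank (ZMod p) W ≤ Module.finrank (ZMod p) W' + 3 ∧
      (∀ x ∈ latt W', (p : ℤ_[p]) ^ (m + 1) ∣ C.G x) ∧
      (∀ x ∈ latt W', ∀ y ∈ latt W, (p : ℤ_[p]) ^ (m + 1) ∣ C.D x y) := by
  obtain ⟨h1, h2⟩ := (level C W m h).vert_of_no_smooth (by
    intro x hx y
    have hx' : quo m (C.G (liftW x)) = 0 := hx
    show quo m (C.D (liftW x) (liftW y)) = 0
    rw [quo_eq_zero (h.hG _ (liftW_mem x))] at hx'
    rw [quo_eq_zero (h.hD _ (liftW_mem x) _)]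
    exact hns _ _ (liftW_mem x) (liftW_mem y) hx')
  refine ⟨(level C W m h).vert.map W.subtype, Submodule.map_subtype_le _ _, ?_, ?_, ?_⟩
  · rw [Submodule.finrank_map_subtype_eq]
    exact h2
  · intro x hx
    obtain ⟨r, hr, hrx⟩ := Submodule.mem_map.1 hx
    have hxW : x ∈ latt W := by
      rw [mem_latt, ← hrx]; exact r.2
    have hr2 : r = ⟨red x, hxW⟩ := Subtype.ext hrx
    have h3 := (Cubic.mem_vert _).1 hr
    rw [hr2, level_G, quo_eq_zero (h.hG _ hxW)] at h3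
    exact h3.1
  · intro x hx y hy
    obtain ⟨r, hr, hrx⟩ := Submodule.mem_map.1 hx
    have hxW : x ∈ latt W := by
      rw [mem_latt, ← hrx]; exact r.2
    have hr2 : r = ⟨red x, hxW⟩ := Subtype.ext hrx
    have h3 := (((Cubic.mem_vert _).1 hr).2 ⟨red y, hy⟩).1
    rw [hr2, level_D, quo_eq_zero (h.hD _ hxW _)] at h3
    exact h3

end

end Pool.Agent.LibCubicLines
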