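import Pool.Agent.LibCubicLines.SingGeom

/-!
A line without singular points produces a smooth line; the resulting theorem on smooth lines.
-/

namespace Pool.Agent.LibCubicLines

open Module

namespace Cubic

variable {K V : Type*} [Field K] [AddCommGroup V] [Module K V] (C : Cubic K V)

lemma exists_relation {u w : V} (hl : C.IsLine u w) (hns : ¬ C.IsSmoothLine u w) :
    ∃ a b c d : K, ¬ (a = 0 ∧ b = 0 ∧ c = 0 ∧ d = 0) ∧
      (∀ x, a * C.D u x + b * C.T u w x + c * C.D w x = 0) ∧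
      (∀ x, b * C.D u x + c * C.T u w x + d * C.D w x = 0) := by
  let J : (V × V) →ₗ[K] (K × K × K × K) :=
    { toFun := fun z => (C.D u z.1, C.T u w z.1 + C.D u z.2, C.D w z.1 + C.T u w z.2, C.D w z.2)
      map_add' := fun x y => by
        ext
        · simp [C.D_add_right]
        · simp [C.D_add_right, C.T_add_right]; ring
        · simp [C.D_add_right, C.T_add_right]; ring
        · simp [C.D_add_right]
      map_smul' := fun c x => by
        ext
        · simp [C.D_smul_right]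
        · simp [C.D_smul_right, C.T_smul_right]; ring
        · simp [C.D_smul_right, C.T_smul_right]; ring
        · simp [C.D_smul_right] }
  have hJ : LinearMap.range J < ⊤ := by
    rw [lt_top_iff_ne_top]
    intro htop
    apply hns
    refine ⟨hl, fun a b c d => ?_⟩
    obtain ⟨⟨η, δ⟩, h⟩ := LinearMap.range_eq_top.1 htop (a, b, c, d)
    have h1 : C.D u η = a ∧ C.T u w η + C.D u δ = b ∧ C.D w η + C.T u w δ = c ∧ C.D w δ = d := by
      simpa [J] using h
    exact ⟨η, δ, h1⟩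
  obtain ⟨f, hf0, hf⟩ := Submodule.exists_le_ker_of_lt_top _ hJ
  have hfx : ∀ a b c d : K, f (a, b, c, d) = a * f (1, 0, 0, 0) + b * f (0, 1, 0, 0) +
      c * f (0, 0, 1, 0) + d * f (0, 0, 0, 1) := by
    intro a b c d
    have h1 : ((a, b, c, d) : K × K × K × K) = a • ((1, 0, 0, 0) : K × K × K × K) +
        b • ((0, 1, 0, 0) : K × K × K × K) + c • ((0, 0, 1, 0) : K × K × K × K) +
        d • ((0, 0, 0, 1) : K × K × K × K) := by
      simp
    rw [h1, map_add, map_add, map_add, map_smul, map_smul, map_smul, map_smul]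
    simp
  have hfJ : ∀ η δ, f (J (η, δ)) = 0 := fun η δ => hf (LinearMap.mem_range_self J _)
  refine ⟨f (1, 0, 0, 0), f (0, 1, 0, 0), f (0, 0, 1, 0), f (0, 0, 0, 1), ?_, ?_, ?_⟩
  · rintro ⟨h1, h2, h3, h4⟩
    apply hf0
    refine LinearMap.ext fun x => ?_
    obtain ⟨a, b, c, d⟩ := x
    rw [hfx, h1, h2, h3, h4]
    simp
  · intro x
    have h := hfJ x 0
    change f (C.D u x, C.T u w x + C.D u 0, C.D w x + C.T u w 0, C.D w 0) = 0 at h
    rw [hfx, C.D_zero_right, C.T_zero_right, C.D_zero_right] at h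
    linear_combination h
  · intro x
    have h := hfJ 0 x
    change f (C.D u 0, C.T u w 0 + C.D u x, C.D w 0 + C.T u w x, C.D w x) = 0 at h
    rw [hfx, C.D_zero_right, C.T_zero_right, C.D_zero_right] at h
    linear_combination h

/-- moving a line without singular points -/
lemma smooth_of_plane {z e' y v : V} (ℓ : V →ₗ[K] K) {γ γ' γ'' : K} (hGz : C.G z = 0)
    (hz : ∀ x, C.D z x = γ * ℓ x) (hγ : γ ≠ 0) (hGe : C.G e' = 0) (he' : ∀ x, C.D e' x = γ' * ℓ x)
    (hze : ∀ x, C.T z e' x = γ'' * ℓ x) (hℓz : ℓ z = 0) (hℓe : ℓ e' = 0) (hℓy : ℓ y = 0)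
    (hyz : C.D y z = 0) (hye : C.D y e' ≠ 0) (hv : ℓ v ≠ 0) : ∃ u w, C.IsSmoothLine u w := by
  set s := -(C.G y) / C.D y e' with hs
  have t1 : C.T y e' z = 0 := by
    rw [C.T_swap12, C.T_swap23, C.T_swap12, hze, hℓy, mul_zero]
  have t2 : C.T y e' e' = 0 := by
    rw [C.T_swap12, C.T_swap23, C.T_self, he', hℓy]; ring
  refine ⟨z, y + s • e', C.smooth_of_dir (e := e') (v := v) ⟨hGz, ?_, ?_, ?_⟩ ?_ ?_ ?_ ?_⟩
  · rw [hz, map_add, map_smul, hℓy, hℓe]; simp
  · rw [C.D_add_left, C.D_smul_left, C.T_smul_mid, hyz, he', hℓz, t1]; ring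
  · rw [C.G_add, C.D_smul_right, C.D_smul_left, he', hℓy, C.G_smul, hGe, hs]
    field_simp
    ring
  · rw [hz, hℓe, mul_zero]
  · rw [C.T_add_mid, C.T_smul_mid, C.T_swap23, hze, hze, hℓy, hℓe]; ring
  · rw [C.D_add_left, C.D_smul_left, C.T_smul_mid, t2, he', hℓe]
    simpa using hye
  · rw [hz]
    exact mul_ne_zero hγ hv

section fin

variable [Fintype K] [FiniteDimensional K V]

/-- a line without singular points forces a smooth line -/
theorem exists_smooth_of_line
    (h5 : ∀ W : Submodule K V, finrank K V ≤ finrank K W + 4 → ¬ C.VanishOn W)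
    {u w : V} (hl : C.IsLine u w)
    (hns : ∀ s t : K, (s ≠ 0 ∨ t ≠ 0) → ∃ x, C.D (s • u + t • w) x ≠ 0) :
    ∃ u w, C.IsSmoothLine u w := by
  by_cases hsm : C.IsSmoothLine u w
  · exact ⟨u, w, hsm⟩
  obtain ⟨a, b, c, d, h0, hr1, hr2⟩ := C.exists_relation hl hsm
  have hD : ∀ (s t : K) x, C.D (s • u + t • w) x = s ^ 2 * C.D u x + s * t * C.T u w x +
      t ^ 2 * C.D w x := by
    intro s t x
    rw [C.D_add_left, C.D_smul_left, C.D_smul_left, C.T_smul_left, C.T_smul_mid]; ring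
  obtain ⟨v, hv⟩ : ∃ v, C.D u v ≠ 0 := by
    obtain ⟨x, hx⟩ := hns 1 0 (Or.inl one_ne_zero)
    rw [hD] at hx
    exact ⟨x, by simpa using hx⟩
  have hn0 : b * d - c ^ 2 ≠ 0 := by
    intro hn
    have e1 : a * d = b * c := by
      have h1 : (a * d - b * c) * C.D u v = 0 := by
        linear_combination d * hr1 v - c * hr2 v - C.T u w v * hn
      exact sub_eq_zero.1 ((mul_eq_zero.1 h1).resolve_right hv)
    have e2 : a * c = b ^ 2 := by
      have h1 : (a * c - b ^ 2) * C.D u v = 0 := by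
        linear_combination c * hr1 v - b * hr2 v + C.D w v * hn
      exact sub_eq_zero.1 ((mul_eq_zero.1 h1).resolve_right hv)
    by_cases ha : a = 0
    · have hb : b = 0 := by
        rw [ha, zero_mul] at e2
        exact pow_eq_zero_iff (two_ne_zero) |>.1 e2.symm
      have hc : c = 0 := by
        rw [hb] at hn
        have : c ^ 2 = 0 := by linear_combination -hn
        exact pow_eq_zero_iff (two_ne_zero) |>.1 this
      have hd : d ≠ 0 := fun hd => h0 ⟨ha, hb, hc, hd⟩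
      obtain ⟨x, hx⟩ := hns 0 1 (Or.inr one_ne_zero)
      rw [hD] at hx
      have h2 := hr2 x
      rw [hb, hc, zero_mul, zero_mul, zero_add, zero_add] at h2
      apply hx
      rw [(mul_eq_zero.1 h2).resolve_left hd]; ring
    · obtain ⟨x, hx⟩ := hns a b (Or.inl ha)
      apply hx
      rw [hD]
      linear_combination a * hr1 x - C.D w x * e2
  obtain ⟨g₁, hg₁⟩ : ∃ g₁ : K, ∀ x, C.T u w x = g₁ * C.D u x := by
    refine ⟨(b * c - a * d) / (b * d - c ^ 2), fun x => ?_⟩
    have : (b * d - c ^ 2) * C.T u w x = (b * c - a * d) * C.D u x := by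
      linear_combination d * hr1 x - c * hr2 x
    field_simp
    linear_combination this
  obtain ⟨g₂, hg₂⟩ : ∃ g₂ : K, ∀ x, C.D w x = g₂ * C.D u x := by
    refine ⟨(a * c - b ^ 2) / (b * d - c ^ 2), fun x => ?_⟩
    have : (b * d - c ^ 2) * C.D w x = (a * c - b ^ 2) * C.D u x := by
      linear_combination b * hr2 x - c * hr1 x
    field_simp
    linear_combination this
  have hg : ∀ s t : K, (s ≠ 0 ∨ t ≠ 0) → s ^ 2 + s * t * g₁ + t ^ 2 * g₂ ≠ 0 := by
    intro s t hst h
    obtain ⟨x, hx⟩ := hns s t hst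
    apply hx
    rw [hD, hg₁, hg₂]
    linear_combination C.D u x * h
  obtain ⟨hGu, hDuw, hDwu, hGw⟩ := hl
  have hℓu : C.DL u u = 0 := by
    rw [DL_apply, C.D_self, hGu, mul_zero]
  have hℓw : C.DL u w = 0 := hDuw
  have hG : ∀ s t : K, C.G (s • u + t • w) = 0 := by
    intro s t
    rw [C.G_lin, hGu, hGw, hDuw, hDwu]; ring
  by_cases hcase : ∃ y, C.D u y = 0 ∧ (C.D y u ≠ 0 ∨ C.D y w ≠ 0)
  · obtain ⟨y, hy, hyuw⟩ := hcase
    have hDz : ∀ x, C.D ((C.D y w) • u + (-(C.D y u)) • w) x =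
        ((C.D y w) ^ 2 + (C.D y w) * (-(C.D y u)) * g₁ + (-(C.D y u)) ^ 2 * g₂) * C.DL u x := by
      intro x
      rw [hD, hg₁, hg₂, DL_apply]; ring
    have hγ : (C.D y w) ^ 2 + (C.D y w) * (-(C.D y u)) * g₁ + (-(C.D y u)) ^ 2 * g₂ ≠ 0 := by
      apply hg
      rcases hyuw with h | h
      · exact Or.inr (neg_ne_zero.2 h)
      · exact Or.inl h
    have hℓz : C.DL u ((C.D y w) • u + (-(C.D y u)) • w) = 0 := by
      rw [map_add, map_smul, map_smul, hℓu, hℓw]; simp
    have hyz : C.D y ((C.D y w) • u + (-(C.D y u)) • w) = 0 := by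
      rw [C.D_add_right, C.D_smul_right, C.D_smul_right]; ring
    rcases hyuw with h | h
    · refine C.smooth_of_plane (C.DL u) (e' := u) (γ' := 1) (y := y) (v := v)
        (γ'' := 2 * C.D y w - C.D y u * g₁) (hG _ _) hDz hγ hGu (fun x => by simp) (fun x => ?_) hℓz
        hℓu hy hyz h hv
      rw [C.T_add_left, C.T_smul_left, C.T_smul_left, C.T_self, C.T_swap12 w u, hg₁, DL_apply]
      ring
    · refine C.smooth_of_plane (C.DL u) (e' := w) (γ' := g₂) (y := y) (v := v)
        (γ'' := C.D y w * g₁ - 2 * C.D y u * g₂) (hG _ _) hDz hγ hGw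
        (fun x => by rw [hg₂, DL_apply]) (fun x => ?_) hℓz hℓw hy hyz h hv
      rw [C.T_add_left, C.T_smul_left, C.T_smul_left, C.T_self, hg₁, hg₂, DL_apply]
      ring
  · push Not at hcase
    set U : Submodule K V := LinearMap.ker (C.DL u) with hU
    have hUdim : finrank K V ≤ finrank K U + 1 := by
      have h1 := finrank_le_ker (C.DL u) (⊤ : Submodule K V)
      rw [top_inf_eq] at h1
      have h3 : finrank K (⊤ : Submodule K V) = finrank K V := finrank_top K V
      rw [hU]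
      omega
    obtain ⟨⟨y₀, hy₀U⟩, hGy₀, ⟨v₁, hv₁U⟩, hDy₀⟩ := (C.comap U.subtype).exists_smooth_zero (by
      intro W hW hvan
      refine h5 (W.map U.subtype) ?_ ?_
      · rw [Submodule.finrank_map_subtype_eq]
        omega
      · rintro _ ⟨x, hx, rfl⟩ _ ⟨y, hy, rfl⟩ _ ⟨z, hz, rfl⟩
        exact hvan x hx y hy z hz)
    change C.G y₀ = 0 at hGy₀
    change C.D y₀ v₁ ≠ 0 at hDy₀
    have hy₀ : C.D u y₀ = 0 := hy₀U
    have hv₁ : C.D u v₁ = 0 := hv₁U
    refine ⟨u, y₀, C.smooth_of_dir (e := v₁) (v := v) ⟨hGu, hy₀, (hcase y₀ hy₀).1, hGy₀⟩ hv₁ ?_ hDy₀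
      hv⟩
    rw [C.T_swap12, C.T_swap23, C.T_eq, (hcase y₀ hy₀).1, (hcase v₁ hv₁).1, (hcase _ ?_).1]
    · ring
    · rw [C.D_add_right, hy₀, hv₁, add_zero]

/-- Theorem C: existence of smooth lines -/
theorem exists_smooth_line
    (h5 : ∀ W : Submodule K V, finrank K V ≤ finrank K W + 4 → ¬ C.VanishOn W)
    (hdim : finrank K C.vert + 7 ≤ finrank K V)
    (hline : ∀ W : Submodule K V, 7 ≤ finrank K W → ∃ u ∈ W, ∃ w ∈ W,
      LinearIndependent K ![u, w] ∧ C.IsLine u w) :
    ∃ u w, C.IsSmoothLine u w := by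
  by_contra hno
  obtain ⟨W, hW⟩ := Submodule.exists_isCompl C.vert
  have h1 := Submodule.finrank_add_eq_of_isCompl hW
  obtain ⟨u, hu, w, hw, hli, hl⟩ := hline W (by omega)
  apply hno
  refine C.exists_smooth_of_line h5 hl ?_
  intro s t hst
  by_contra hcon
  push Not at hcon
  have hsing : C.Sing (s • u + t • w) := by
    refine ⟨?_, hcon⟩
    obtain ⟨hGu, hDuw, hDwu, hGw⟩ := hl
    rw [C.G_lin, hGu, hGw, hDuw, hDwu]; ring
  have hnz : s • u + t • w ≠ 0 := by
    intro h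
    have h2 := (LinearIndependent.pair_iff.1 hli) s t h
    rcases hst with h3 | h3
    · exact h3 h2.1
    · exact h3 h2.2
  have hnv : s • u + t • w ∉ C.vert := by
    intro h
    apply hnz
    have h3 : s • u + t • w ∈ C.vert ⊓ W :=
      ⟨h, W.add_mem (W.smul_mem _ hu) (W.smul_mem _ hw)⟩
    rw [hW.inf_eq_bot] at h3
    exact (Submodule.mem_bot K).1 h3
  exact false_of_sing h5 hno hsing hnv hdim

end fin

end Cubic

end Pool.Agent.LibCubicLines
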