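import Mathlib
import Pool.Agent.LibCubicLines.Basic
import Pool.Agent.LibCubicLines.AxKatz

/-!
Every cubic form in at least seven variables over `ZMod p` vanishes on a two-dimensional subspace.
-/

open Finset Module

namespace Pool.Agent.LibCubicLines

open AxKatz

variable {p : ℕ} [hp : Fact p.Prime]

section good

variable {ι : Type*} [Fintype ι] [DecidableEq ι]
variable {V : Type*} [AddCommGroup V] [Module (ZMod p) V] (C : Cubic (ZMod p) V)

lemma good_linsum (c : ι → ZMod p) (s : Finset ι) :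
    Good 1 (fun x : ι → ZMod p => ∑ i ∈ s, x i * c i) :=
  Good.sum s (fun i x => x i * c i) fun i _ =>
    ((Good.coord i).mul (Good.const (c i))).mono (by norm_num)

lemma good_sq (a : ι) (c : ZMod p) : Good 2 (fun x : ι → ZMod p => x a ^ 2 * c) :=
  (((Good.coord a).pow 2).mul (Good.const c)).mono (by norm_num)

lemma good_sq' (a : ι) : Good 2 (fun x : ι → ZMod p => x a ^ 2) :=
  ((Good.coord a).pow 2).mono (by norm_num)

lemma good_cube (a : ι) (c : ZMod p) : Good 3 (fun x : ι → ZMod p => x a ^ 3 * c) :=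
  (((Good.coord a).pow 3).mul (Good.const c)).mono (by norm_num)

lemma good_D_left_aux (v : ι → V) (z : V) (s : Finset ι) :
    Good 2 (fun x : ι → ZMod p => C.D (∑ i ∈ s, x i • v i) z) := by
  induction s using Finset.induction_on with
  | empty => simpa [C.D_zero_left] using (Good.const (ι := ι) (0 : ZMod p)).mono (Nat.zero_le 2)
  | insert a s ha ih =>
    have h : (fun x : ι → ZMod p => C.D (∑ i ∈ insert a s, x i • v i) z) =
        fun x => (x a ^ 2 * C.D (v a) z + C.D (∑ i ∈ s, x i • v i) z)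
          + x a * (∑ i ∈ s, x i * C.T (v a) z (v i)) := by
      funext x
      rw [Finset.sum_insert ha, C.D_add_left, C.D_smul_left, C.T_smul_left, C.T_swap23]
      have : C.T (v a) z (∑ i ∈ s, x i • v i) = ∑ i ∈ s, x i * C.T (v a) z (v i) := by
        rw [← C.TL_apply, map_sum]
        refine Finset.sum_congr rfl fun i _ => ?_
        rw [map_smul, smul_eq_mul, C.TL_apply]
      rw [this]
    rw [h]
    have h1 := good_sq (p := p) a (C.D (v a) z)
    have h2 : Good 2 (fun x : ι → ZMod p => x a * (∑ i ∈ s, x i * C.T (v a) z (v i))) :=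
      ((Good.coord a).mul (good_linsum (fun i => C.T (v a) z (v i)) s)).mono (by norm_num)
    exact (h1.add ih).add h2

lemma good_D_left (L : (ι → ZMod p) →ₗ[ZMod p] V) (z : V) :
    Good 2 (fun x : ι → ZMod p => C.D (L x) z) := by
  have h := good_D_left_aux C (fun i => L (fun j => if i = j then 1 else 0)) z Finset.univ
  have h2 : (fun x : ι → ZMod p => C.D (L x) z) =
      fun x => C.D (∑ i, x i • L (fun j => if i = j then 1 else 0)) z := by
    funext x
    rw [← LinearMap.pi_apply_eq_sum_univ L x]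
  rw [h2]
  exact h

lemma good_D (L L' : (ι → ZMod p) →ₗ[ZMod p] V) :
    Good 3 (fun x : ι → ZMod p => C.D (L x) (L' x)) := by
  have h2 : (fun x : ι → ZMod p => C.D (L x) (L' x)) =
      fun x => ∑ i, x i * C.D (L x) (L' (fun j => if i = j then 1 else 0)) := by
    funext x
    conv_lhs => rw [LinearMap.pi_apply_eq_sum_univ L' x, ← C.DL_apply, map_sum]
    refine Finset.sum_congr rfl fun i _ => ?_
    rw [map_smul, smul_eq_mul, C.DL_apply]
  rw [h2]
  refine Good.sum Finset.univ
    (fun i x => x i * C.D (L x) (L' (fun j => if i = j then 1 else 0))) fun i _ => ?_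
  exact ((Good.coord i).mul (good_D_left C L (L' (fun j => if i = j then 1 else 0)))).mono
    (by norm_num)

lemma good_G_aux (v : ι → V) (s : Finset ι) :
    Good 3 (fun x : ι → ZMod p => C.G (∑ i ∈ s, x i • v i)) := by
  induction s using Finset.induction_on with
  | empty => simpa [C.G_zero] using (Good.const (ι := ι) (0 : ZMod p)).mono (Nat.zero_le 3)
  | insert a s ha ih =>
    have h : (fun x : ι → ZMod p => C.G (∑ i ∈ insert a s, x i • v i)) =
        fun x => (x a ^ 3 * C.G (v a) + x a ^ 2 * (∑ i ∈ s, x i * C.D (v a) (v i)))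
          + (x a * C.D (∑ i ∈ s, x i • v i) (v a) + C.G (∑ i ∈ s, x i • v i)) := by
      funext x
      rw [Finset.sum_insert ha, C.G_add, C.G_smul, C.D_smul_left, C.D_smul_right]
      have : C.D (v a) (∑ i ∈ s, x i • v i) = ∑ i ∈ s, x i * C.D (v a) (v i) := by
        rw [← C.DL_apply, map_sum]
        refine Finset.sum_congr rfl fun i _ => ?_
        rw [map_smul, smul_eq_mul, C.DL_apply]
      rw [this]
      ring
    rw [h]
    have h1 := good_cube (p := p) a (C.G (v a))
    have h2 : Good 3 (fun x : ι → ZMod p => x a ^ 2 * (∑ i ∈ s, x i * C.D (v a) (v i))) :=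
      ((good_sq' a).mul (good_linsum (fun i => C.D (v a) (v i)) s)).mono (by norm_num)
    have h3 : Good 3 (fun x : ι → ZMod p => x a * C.D (∑ i ∈ s, x i • v i) (v a)) :=
      ((Good.coord a).mul (good_D_left_aux C v (v a) s)).mono (by norm_num)
    exact (h1.add h2).add (h3.add ih)

lemma good_G (L : (ι → ZMod p) →ₗ[ZMod p] V) : Good 3 (fun x : ι → ZMod p => C.G (L x)) := by
  have h := good_G_aux C (fun i => L (fun j => if i = j then 1 else 0)) Finset.univ
  have h2 : (fun x : ι → ZMod p => C.G (L x)) =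
      fun x => C.G (∑ i, x i • L (fun j => if i = j then 1 else 0)) := by
    funext x
    rw [← LinearMap.pi_apply_eq_sum_univ L x]
  rw [h2]
  exact h

end good

section count

variable (C : Cubic (ZMod p) (Fin 7 → ZMod p))

lemma count_N : ((Finset.univ.filter fun u : Fin 7 → ZMod p => C.G u = 0).card : ZMod (p ^ 2)) = 0 := by
  rw [ZMod.natCast_eq_zero_iff]
  have h := (good_G C (LinearMap.id (R := ZMod p) (M := Fin 7 → ZMod p))).ind
  have hp1 : 0 < p - 1 := by have := hp.out.one_lt; omega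
  have := h.count (by rw [Fintype.card_fin]; nlinarith) (by rw [Fintype.card_fin]; nlinarith)
  exact this

lemma count_M : ((Finset.univ.filter fun x : (Fin 7 ⊕ Fin 7) → ZMod p =>
    C.G (x ∘ Sum.inl) = 0 ∧ C.D (x ∘ Sum.inl) (x ∘ Sum.inr) = 0 ∧ C.G (x ∘ Sum.inr) = 0).card :
      ZMod (p ^ 2)) = 0 := by
  rw [ZMod.natCast_eq_zero_iff]
  have hp1 : 0 < p - 1 := by have := hp.out.one_lt; omega
  let L : ((Fin 7 ⊕ Fin 7) → ZMod p) →ₗ[ZMod p] (Fin 7 → ZMod p) :=
    LinearMap.funLeft (ZMod p) (ZMod p) Sum.inl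
  let L' : ((Fin 7 ⊕ Fin 7) → ZMod p) →ₗ[ZMod p] (Fin 7 → ZMod p) :=
    LinearMap.funLeft (ZMod p) (ZMod p) Sum.inr
  have h1 := (good_G C L).ind
  have h2 := (good_D C L L').ind
  have h3 := (good_G C L').ind
  have h := h1.and (h2.and h3)
  refine h.count ?_ ?_
  · simp only [Fintype.card_sum, Fintype.card_fin]
    nlinarith
  · simp only [Fintype.card_sum, Fintype.card_fin, max_lt_iff]
    have h0 : max ((p - 1) * 3 + (p - 1) * (2 * 3)) ((p - 1) * (2 * 3) + (p - 1) * 3)
        = (p - 1) * 9 := by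
      rw [max_eq_left (le_of_eq (by ring))]
      ring
    rw [h0]
    constructor <;> nlinarith

/-- parametrization of `ker D u` adapted to `u` -/
lemma exists_param (u : Fin 7 → ZMod p) (hu : u ≠ 0) (hGu : C.G u = 0) :
    ∃ (m : ℕ) (_ : 5 ≤ m) (L : (Fin m → ZMod p) →ₗ[ZMod p] (Fin 7 → ZMod p)),
      (∀ y, C.D u (L y) = 0) ∧
      (∀ a b : ZMod p, ∀ y z, a • u + L y = b • u + L z → a = b ∧ y = z) ∧
      (∀ w, C.D u w = 0 → ∃ (a : ZMod p) (y : Fin m → ZMod p), w = a • u + L y) := by
  obtain ⟨K, hK⟩ : ∃ K : Submodule (ZMod p) (Fin 7 → ZMod p), K = LinearMap.ker (C.DL u) :=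
    ⟨_, rfl⟩
  have hmemK : ∀ w, w ∈ K ↔ C.D u w = 0 := by
    intro w
    rw [hK, LinearMap.mem_ker, C.DL_apply]
  have huK : u ∈ K := by
    rw [hmemK, C.D_self, hGu, mul_zero]
  have hdim : 6 ≤ finrank (ZMod p) K := by
    have h1 := LinearMap.finrank_range_add_finrank_ker (C.DL u)
    rw [← hK] at h1
    have h2 : finrank (ZMod p) (LinearMap.range (C.DL u)) ≤ 1 := by
      calc _ ≤ finrank (ZMod p) (ZMod p) := Submodule.finrank_le _
        _ = 1 := finrank_self _
    rw [finrank_fin_fun] at h1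
    omega
  let u' : K := ⟨u, huK⟩
  have hu' : u' ≠ 0 := fun h => hu (congrArg Subtype.val h)
  obtain ⟨Q, hQ⟩ := Submodule.exists_isCompl (Submodule.span (ZMod p) {u'})
  have hdQ : 5 ≤ finrank (ZMod p) Q := by
    have h1 := Submodule.finrank_add_eq_of_isCompl hQ
    rw [finrank_span_singleton hu'] at h1
    omega
  let e : Q ≃ₗ[ZMod p] (Fin (finrank (ZMod p) Q) → ZMod p) := (Module.finBasis (ZMod p) Q).equivFun
  let L : (Fin (finrank (ZMod p) Q) → ZMod p) →ₗ[ZMod p] (Fin 7 → ZMod p) :=
    K.subtype ∘ₗ Q.subtype ∘ₗ e.symm.toLinearMap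
  have hL : ∀ y, L y = ((e.symm y : Q) : K) := fun y => rfl
  refine ⟨finrank (ZMod p) Q, hdQ, L, ?_, ?_, ?_⟩
  · intro y
    have : L y ∈ K := ((e.symm y : Q) : K).2
    exact (hmemK _).1 this
  · intro a b y z h
    have h1 : a • u' + ((e.symm y : Q) : K) = b • u' + ((e.symm z : Q) : K) := by
      apply Subtype.ext
      exact h
    have h2 : (a - b) • u' = ((e.symm (z - y) : Q) : K) := by
      have h0 : (a - b) • u' = a • u' - b • u' := sub_smul a b u'
      rw [map_sub, Submodule.coe_sub, h0, sub_eq_sub_iff_add_eq_add, h1, add_comm]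
    have h3 : (a - b) • u' ∈ Submodule.span (ZMod p) {u'} ⊓ Q := by
      refine ⟨Submodule.smul_mem _ _ (Submodule.mem_span_singleton_self _), ?_⟩
      rw [h2]
      exact (e.symm (z - y)).2
    rw [hQ.inf_eq_bot, Submodule.mem_bot] at h3
    have h4 : a - b = 0 := by
      rcases smul_eq_zero.1 h3 with h | h
      · exact h
      · exact absurd h hu'
    have h5 : e.symm (z - y) = 0 := by
      apply Subtype.ext
      rw [← h2, h3]
      rfl
    have h6 : z - y = 0 := by
      rwa [LinearEquiv.map_eq_zero_iff] at h5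
    exact ⟨sub_eq_zero.1 h4, (sub_eq_zero.1 h6).symm⟩
  · intro w hw
    have hwK : w ∈ K := (hmemK w).2 hw
    have h1 : (⟨w, hwK⟩ : K) ∈ Submodule.span (ZMod p) {u'} ⊔ Q := by
      rw [hQ.sup_eq_top]; trivial
    obtain ⟨a, ha, b, hb, hab⟩ := Submodule.mem_sup.1 h1
    obtain ⟨c, rfl⟩ := Submodule.mem_span_singleton.1 ha
    refine ⟨c, e ⟨b, hb⟩, ?_⟩
    have := congrArg Subtype.val hab
    rw [hL, LinearEquiv.symm_apply_apply]
    exact this.symm

lemma G_add_smul (u w : Fin 7 → ZMod p) (hGu : C.G u = 0) (hw : C.D u w = 0) (a : ZMod p) :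
    C.G (a • u + w) = C.G w + a * C.D w u := by
  rw [C.G_add, C.G_smul, C.D_smul_left, C.D_smul_right, hGu, hw]
  ring

lemma count_fiber (hno : ∀ u w, LinearIndependent (ZMod p) ![u, w] → ¬ C.IsLine u w)
    (u : Fin 7 → ZMod p) (hu : u ≠ 0) (hGu : C.G u = 0) :
    ((Finset.univ.filter fun w : Fin 7 → ZMod p => C.D u w = 0 ∧ C.G w = 0).card :
      ZMod (p ^ 2)) = p := by
  obtain ⟨m, hm, L, hL, hinj, hsurj⟩ := exists_param C u hu hGu
  have hp1 : 0 < p - 1 := by have := hp.out.one_lt; omega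
  -- B
  have hB : ((Finset.univ.filter fun y : Fin m → ZMod p => C.D (L y) u = 0).card :
      ZMod (p ^ 2)) = 0 := by
    rw [ZMod.natCast_eq_zero_iff]
    refine (good_D_left C L u).ind.count ?_ ?_
    · rw [Fintype.card_fin]
      exact (Nat.mul_lt_mul_left hp1).2 (by omega)
    · rw [Fintype.card_fin]
      exact (Nat.mul_lt_mul_left hp1).2 (by omega)
  -- step 1: transport the count
  have h1 : (Finset.univ.filter fun w : Fin 7 → ZMod p => C.D u w = 0 ∧ C.G w = 0).card =
      (Finset.univ.filter fun x : (Fin m → ZMod p) × ZMod p =>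
        C.G (L x.1) + x.2 * C.D (L x.1) u = 0).card := by
    symm
    refine Finset.card_bij (fun x _ => x.2 • u + L x.1) ?_ ?_ ?_
    · rintro ⟨y, a⟩ hx
      rw [Finset.mem_filter] at hx ⊢
      refine ⟨Finset.mem_univ _, ?_, ?_⟩
      · rw [C.D_add_right, C.D_smul_right, C.D_self, hGu, hL]
        ring
      · rw [G_add_smul C u _ hGu (hL y)]
        exact hx.2
    · rintro ⟨y, a⟩ _ ⟨z, b⟩ _ h
      obtain ⟨h1, h2⟩ := hinj _ _ _ _ h
      rw [Prod.mk.injEq]
      exact ⟨h2, h1⟩
    · intro w hw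
      rw [Finset.mem_filter] at hw
      obtain ⟨a, y, rfl⟩ := hsurj w hw.2.1
      refine ⟨(y, a), ?_, rfl⟩
      rw [Finset.mem_filter]
      refine ⟨Finset.mem_univ _, ?_⟩
      rw [← G_add_smul C u _ hGu (hL y)]
      exact hw.2.2
  -- step 2: fibrewise
  have h2 : ∀ y : Fin m → ZMod p,
      ((Finset.univ.filter fun a : ZMod p => C.G (L y) + a * C.D (L y) u = 0).card :
        ZMod (p ^ 2)) = (1 - if C.D (L y) u = 0 then 1 else 0) + if y = 0 then (p : ZMod (p ^ 2)) else 0 := by
    intro y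
    by_cases hy : C.D (L y) u = 0
    · by_cases hy0 : y = 0
      · subst hy0
        simp [C.G_zero, C.D_zero_left, ZMod.card]
      · have h3 : C.G (L y) ≠ 0 := by
          intro h4
          refine hno u (L y) ?_ ⟨hGu, hL y, hy, h4⟩
          rw [LinearIndependent.pair_iff]
          intro s t hst
          have h5 := hinj s 0 (t • y) 0 (by rw [map_smul, hst]; simp)
          refine ⟨h5.1, ?_⟩
          rcases smul_eq_zero.1 h5.2 with h | h
          · exact h
          · exact absurd h hy0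
        simp [hy, hy0, h3]
    · have hy0 : y ≠ 0 := by
        rintro rfl
        exact hy (by simp [C.D_zero_left])
      rw [if_neg hy, if_neg hy0]
      have h3 : (Finset.univ.filter fun a : ZMod p => C.G (L y) + a * C.D (L y) u = 0)
          = {- C.G (L y) / C.D (L y) u} := by
        ext a
        rw [Finset.mem_filter, Finset.mem_singleton]
        constructor
        · rintro ⟨_, h⟩
          rw [eq_div_iff hy]
          linear_combination h
        · intro h
          refine ⟨Finset.mem_univ _, ?_⟩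
          rw [h, div_mul_cancel₀ _ hy]
          ring
      rw [h3, Finset.card_singleton]
      simp
  have h3 : (((Finset.univ.filter fun x : (Fin m → ZMod p) × ZMod p =>
        C.G (L x.1) + x.2 * C.D (L x.1) u = 0).card : ℕ) : ZMod (p ^ 2)) =
      ∑ y : Fin m → ZMod p, ((Finset.univ.filter fun a : ZMod p =>
        C.G (L y) + a * C.D (L y) u = 0).card : ZMod (p ^ 2)) := by
    rw [Finset.card_filter, Fintype.sum_prod_type]
    push_cast
    refine Finset.sum_congr rfl fun y _ => ?_
    rw [Finset.card_filter]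
    push_cast
    rfl
  rw [h1, h3, Finset.sum_congr rfl fun y _ => h2 y, Finset.sum_add_distrib,
    Finset.sum_sub_distrib]
  have h4 : ∑ y : Fin m → ZMod p, (if C.D (L y) u = 0 then (1 : ZMod (p ^ 2)) else 0) = 0 := by
    rw [Finset.card_filter] at hB
    push_cast at hB
    exact hB
  have h5 : ∑ _y : Fin m → ZMod p, (1 : ZMod (p ^ 2)) = 0 := by
    rw [Finset.sum_const, Finset.card_univ, Fintype.card_fun, Fintype.card_fin, ZMod.card,
      nsmul_eq_mul, mul_one, ZMod.natCast_eq_zero_iff]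
    exact pow_dvd_pow _ (by omega)
  rw [h4, h5, Finset.sum_ite_eq' Finset.univ (0 : Fin m → ZMod p) (fun _ => (p : ZMod (p ^ 2)))]
  simp

theorem exists_line7_aux (C : Cubic (ZMod p) (Fin 7 → ZMod p)) :
    ∃ u w, LinearIndependent (ZMod p) ![u, w] ∧ C.IsLine u w := by
  by_contra hcon
  have hno : ∀ u w, LinearIndependent (ZMod p) ![u, w] → ¬ C.IsLine u w := by
    intro u w h1 h2
    exact hcon ⟨u, w, h1, h2⟩
  have hN := count_N C
  have hM := count_M C
  have h1 : ((Finset.univ.filter fun x : (Fin 7 ⊕ Fin 7) → ZMod p =>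
    C.G (x ∘ Sum.inl) = 0 ∧ C.D (x ∘ Sum.inl) (x ∘ Sum.inr) = 0 ∧ C.G (x ∘ Sum.inr) = 0).card :
      ZMod (p ^ 2)) = ∑ u : Fin 7 → ZMod p, if C.G u = 0 then
        ((Finset.univ.filter fun w : Fin 7 → ZMod p => C.D u w = 0 ∧ C.G w = 0).card :
          ZMod (p ^ 2)) else 0 := by
    have h2 : (Finset.univ.filter fun x : (Fin 7 ⊕ Fin 7) → ZMod p =>
      C.G (x ∘ Sum.inl) = 0 ∧ C.D (x ∘ Sum.inl) (x ∘ Sum.inr) = 0 ∧ C.G (x ∘ Sum.inr) = 0).card =
      (Finset.univ.filter fun x : (Fin 7 → ZMod p) × (Fin 7 → ZMod p) =>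
        C.G x.1 = 0 ∧ C.D x.1 x.2 = 0 ∧ C.G x.2 = 0).card := by
      refine Finset.card_bij (fun x _ => (x ∘ Sum.inl, x ∘ Sum.inr)) ?_ ?_ ?_
      · intro x hx
        rw [Finset.mem_filter] at hx ⊢
        exact ⟨Finset.mem_univ _, hx.2⟩
      · intro x _ y _ h
        rw [Prod.mk.injEq] at h
        funext i
        rcases i with i | i
        · exact congrFun h.1 i
        · exact congrFun h.2 i
      · rintro ⟨a, b⟩ h
        rw [Finset.mem_filter] at h
        refine ⟨Sum.elim a b, ?_, ?_⟩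
        · rw [Finset.mem_filter]
          refine ⟨Finset.mem_univ _, ?_⟩
          simpa using h.2
        · simp
    rw [h2, Finset.card_filter, Fintype.sum_prod_type]
    push_cast
    refine Finset.sum_congr rfl fun u _ => ?_
    split_ifs with hu
    · rw [Finset.card_filter]
      push_cast
      refine Finset.sum_congr rfl fun w _ => ?_
      simp [hu]
    · simp [hu]
  have h2 : ∀ u : Fin 7 → ZMod p, (if C.G u = 0 then
        ((Finset.univ.filter fun w : Fin 7 → ZMod p => C.D u w = 0 ∧ C.G w = 0).card :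
          ZMod (p ^ 2)) else 0) =
      (if C.G u = 0 then (p : ZMod (p ^ 2)) else 0) + if u = 0 then - (p : ZMod (p ^ 2)) else 0 := by
    intro u
    by_cases hu0 : u = 0
    · subst hu0
      rw [if_pos C.G_zero, if_pos C.G_zero, if_pos rfl, add_neg_cancel, ← hN]
      congr 3
      funext w
      simp [C.D_zero_left]
    · rw [if_neg hu0, add_zero]
      split_ifs with hu
      · exact count_fiber C hno u hu0 hu
      · rfl
  rw [hM, Finset.sum_congr rfl fun u _ => h2 u, Finset.sum_add_distrib,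
    Finset.sum_ite_eq' Finset.univ (0 : Fin 7 → ZMod p) (fun _ => -(p : ZMod (p ^ 2)))] at h1
  have h3 : ∑ u : Fin 7 → ZMod p, (if C.G u = 0 then (p : ZMod (p ^ 2)) else 0) = 0 := by
    rw [← Finset.sum_filter, Finset.sum_const, nsmul_eq_mul, hN, zero_mul]
  rw [h3, zero_add, if_pos (Finset.mem_univ _), eq_comm, neg_eq_zero,
    ZMod.natCast_eq_zero_iff] at h1
  have h4 := Nat.le_of_dvd hp.out.pos h1
  have h5 := hp.out.one_lt
  nlinarith

end count

/-- Every cubic form in at least seven variables over `F_p` vanishes (as a polynomial) on a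
two-dimensional subspace. -/
theorem exists_line7 {V : Type*} [AddCommGroup V] [Module (ZMod p) V]
    [FiniteDimensional (ZMod p) V] (C : Cubic (ZMod p) V) (h : 7 ≤ finrank (ZMod p) V) :
    ∃ u w, LinearIndependent (ZMod p) ![u, w] ∧ C.IsLine u w := by
  let b := Module.finBasis (ZMod p) V
  let f : (Fin 7 → ZMod p) →ₗ[ZMod p] V := Fintype.linearCombination (ZMod p) (b ∘ Fin.castLE h)
  have hli : LinearIndependent (ZMod p) (b ∘ Fin.castLE h) :=
    b.linearIndependent.comp _ (Fin.castLE_injective h)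
  have hf : LinearMap.ker f = ⊥ := by
    rw [LinearMap.ker_eq_bot]
    exact linearIndependent_iff_injective_fintypeLinearCombination.1 hli
  obtain ⟨u, w, h1, h2⟩ := exists_line7_aux (C.comap f)
  refine ⟨f u, f w, ?_, h2⟩
  have h3 : (![f u, f w] : Fin 2 → V) = f ∘ ![u, w] := by
    funext i
    fin_cases i <;> rfl
  rw [h3]
  exact h1.map' f hf

end Pool.Agent.LibCubicLines
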