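import Pool.Agent.LibCubicLines.FiniteGeom

/-!
Polar quadrics of singular points: they vanish on no hyperplane, and the first consequences.
-/

namespace Pool.Agent.LibCubicLines

open Module

namespace Cubic

variable {K V : Type*} [Field K] [AddCommGroup V] [Module K V] (C : Cubic K V)

/-- the bilinear form attached to `y ↦ D y e` -/
lemma T_eq (x y e : V) : C.T x y e = C.D (x + y) e - C.D x e - C.D y e := by
  rw [C.D_add_left]; ring

section nh

variable [Fintype K] [FiniteDimensional K V]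

/-- the polar quadric of a singular point vanishes on no hyperplane -/
theorem exists_polar_ne (h5 : ∀ W : Submodule K V, finrank K V ≤ finrank K W + 4 → ¬ C.VanishOn W)
    (hno : ¬ ∃ u w, C.IsSmoothLine u w) {e : V} (he : C.Sing e) (heR : e ∉ C.vert)
    (φ : V →ₗ[K] K) : ∃ y, φ y = 0 ∧ C.D y e ≠ 0 := by
  by_contra hcon
  push Not at hcon
  have hex : ∃ y, C.D y e ≠ 0 := by
    by_contra h
    push Not at h
    exact heR ⟨he.1, fun x => ⟨he.2 x, h x⟩⟩
  obtain ⟨y₁, hy₁⟩ := hex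
  have hφ₁ : φ y₁ ≠ 0 := fun h => hy₁ (hcon _ h)
  -- normalise
  set f : V := (φ y₁)⁻¹ • y₁ with hf
  have hφf : φ f = 1 := by
    rw [hf, map_smul, smul_eq_mul, inv_mul_cancel₀ hφ₁]
  let ψ : V →ₗ[K] K :=
    { toFun := fun y => C.T f y e - φ y * C.D f e
      map_add' := fun x y => by rw [C.T_add_mid, map_add]; ring
      map_smul' := fun a x => by rw [C.T_smul_mid, map_smul]; simp; ring }
  have hψ : ∀ y, ψ y = C.T f y e - φ y * C.D f e := fun _ => rfl
  have hQ : ∀ y, C.D y e = φ y * ψ y := by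
    intro y
    have h1 : C.D (y - φ y • f) e = 0 := hcon _ (by rw [map_sub, map_smul, hφf]; simp)
    have h2 : y = (y - φ y • f) + φ y • f := by abel
    have h3 : C.T f y e = C.T f (y - φ y • f) e + φ y * (2 * C.D f e) := by
      conv_lhs => rw [h2]
      rw [C.T_add_mid, C.T_smul_mid, C.T_self]
    conv_lhs => rw [h2]
    rw [C.D_add_left, h1, C.D_smul_left, C.T_smul_mid, hψ, h3, C.T_swap12 _ f]
    ring
  have hB : ∀ x y, C.T x y e = φ x * ψ y + φ y * ψ x := by
    intro x y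
    rw [C.T_eq, hQ, hQ, hQ, map_add, map_add]; ring
  have hB' : ∀ x y, C.T e x y = φ x * ψ y + φ y * ψ x := by
    intro x y
    rw [C.T_swap12, C.T_swap23, hB]
  have hψy : φ y₁ ≠ 0 ∧ ψ y₁ ≠ 0 := by
    rw [hQ] at hy₁
    exact ⟨left_ne_zero_of_mul hy₁, right_ne_zero_of_mul hy₁⟩
  -- no smooth zeros on the intersection
  have hns : ∀ m, φ m = 0 → ψ m = 0 → C.G m = 0 → ∀ v, φ v = 0 → ψ v = 0 → C.D m v = 0 := by
    intro m hm1 hm2 hGm v hv1 hv2
    by_contra hne
    apply hno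
    refine C.line_T3 (e := e) (m := m) (y := y₁ - (C.D m y₁ / C.D m v) • v) (v := v) he hGm ?_ ?_ ?_
      ?_ ?_
    · rw [hQ, hm1, zero_mul]
    · rw [hQ, map_sub, map_sub, map_smul, map_smul, hv1, hv2]
      simpa using hψy
    · rw [hB', hm1, hm2]; ring
    · rw [C.D_sub_right, C.D_smul_right]
      field_simp
      ring
    · rw [hB', hm1, hm2]
      simpa using hne
  have hns' : ∀ m, ψ m = 0 → φ m = 0 → C.G m = 0 → ∀ v, ψ v = 0 → φ v = 0 → C.D m v = 0 :=
    fun m h1 h2 h3 v h4 h5 => hns m h2 h1 h3 v h5 h4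
  obtain ⟨m, hm1, hm2, hGm, v, hv1, hv2⟩ := C.exists_smooth_side h5 φ ψ hns
  obtain ⟨m', hm1', hm2', hGm', v', hv1', hv2'⟩ := C.exists_smooth_side h5 ψ φ hns'
  apply hno
  refine C.line_T1 (e := e) (m := m) (m' := m') he hGm ?_ hGm' ?_ ?_ ?_ ?_
  · rw [hQ, hm1, mul_zero]
  · rw [hQ, hm1', zero_mul]
  · rw [hB, hm1, hm1']
    simpa using ⟨hm2, hm2'⟩
  · intro τ
    refine ⟨v, ?_⟩
    rw [hB', hm1, hv1]
    simpa using hv2
  · intro τ
    refine ⟨v', ?_⟩
    rw [hB', hm1', hv1']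
    simpa using hv2'

end nh

end Cubic

end Pool.Agent.LibCubicLines
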