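import Pool.Agent.LibCubicLines.FiniteBasic

/-!
Reduction theory for p-adic cubic forms: integral models of maximal content.
-/

namespace Pool.Agent.LibCubicLines

set_option linter.unusedSimpArgs false

open Module Matrix

variable {p : ℕ} [hp : Fact p.Prime] {n : ℕ}

/-- the vector `x` over `ℚ_p` -/
def cv (x : Fin n → ℤ_[p]) : Fin n → ℚ_[p] := fun i => (x i : ℚ_[p])

lemma cv_add (x y : Fin n → ℤ_[p]) : cv (x + y) = cv x + cv y := by
  funext i; simp [cv]

lemma cv_smul (a : ℤ_[p]) (x : Fin n → ℤ_[p]) : cv (a • x) = (a : ℚ_[p]) • cv x := by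
  funext i; simp [cv]

/-- `M x` -/
noncomputable def mv (M : Matrix (Fin n) (Fin n) ℚ_[p]) (x : Fin n → ℤ_[p]) : Fin n → ℚ_[p] := M.mulVec (cv x)

lemma mv_add (M : Matrix (Fin n) (Fin n) ℚ_[p]) (x y : Fin n → ℤ_[p]) :
    mv M (x + y) = mv M x + mv M y := by
  rw [mv, cv_add, Matrix.mulVec_add]; rfl

lemma mv_smul (M : Matrix (Fin n) (Fin n) ℚ_[p]) (a : ℤ_[p]) (x : Fin n → ℤ_[p]) :
    mv M (a • x) = (a : ℚ_[p]) • mv M x := by
  rw [mv, cv_smul, Matrix.mulVec_smul]; rfl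

/-- `p ^ c` divides the form `C (M x)` -/
def Content (C : Cubic ℚ_[p] (Fin n → ℚ_[p])) (M : Matrix (Fin n) (Fin n) ℚ_[p]) (c : ℤ) : Prop :=
  ∀ x y z : Fin n → ℤ_[p], ‖C.G (mv M x)‖ ≤ (p : ℝ) ^ (-c) ∧
    ‖C.D (mv M x) (mv M y)‖ ≤ (p : ℝ) ^ (-c) ∧ ‖C.T (mv M x) (mv M y) (mv M z)‖ ≤ (p : ℝ) ^ (-c)

lemma norm_scale {c : ℤ} {a : ℚ_[p]} (h : ‖a‖ ≤ (p : ℝ) ^ (-c)) : ‖(p : ℚ_[p]) ^ (-c) * a‖ ≤ 1 := by
  have hp0 : (0 : ℝ) < p := by exact_mod_cast hp.out.pos
  rw [norm_mul, Padic.norm_p_zpow, neg_neg]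
  calc (p : ℝ) ^ c * ‖a‖ ≤ (p : ℝ) ^ c * (p : ℝ) ^ (-c) := by gcongr
    _ = 1 := by rw [← zpow_add₀ hp0.ne']; simp

/-- a `p`-adic number of norm at most one as a `p`-adic integer -/
noncomputable def mkI (a : ℚ_[p]) (h : ‖a‖ ≤ 1) : ℤ_[p] := ⟨a, h⟩

@[simp] lemma coe_mkI (a : ℚ_[p]) (h : ‖a‖ ≤ 1) : ((mkI a h : ℤ_[p]) : ℚ_[p]) = a := rfl

/-- The integral form `p ^ (-c) C (M x)`. -/
noncomputable def intForm (C : Cubic ℚ_[p] (Fin n → ℚ_[p])) (M : Matrix (Fin n) (Fin n) ℚ_[p])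
    (c : ℤ) (h : Content C M c) : Cubic ℤ_[p] (Fin n → ℤ_[p]) where
  G x := mkI ((p : ℚ_[p]) ^ (-c) * C.G (mv M x)) (norm_scale (h x x x).1)
  D x y := mkI ((p : ℚ_[p]) ^ (-c) * C.D (mv M x) (mv M y)) (norm_scale (h x y x).2.1)
  T x y z := mkI ((p : ℚ_[p]) ^ (-c) * C.T (mv M x) (mv M y) (mv M z)) (norm_scale (h x y z).2.2)
  G_add x y := by
    apply PadicInt.ext
    simp only [PadicInt.coe_add, PadicInt.coe_mul, PadicInt.coe_pow, coe_mkI]
    rw [mv_add, C.G_add]; ring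
  G_smul a x := by
    apply PadicInt.ext
    simp only [PadicInt.coe_add, PadicInt.coe_mul, PadicInt.coe_pow, coe_mkI]
    rw [mv_smul, C.G_smul]; ring
  D_add_right x y z := by
    apply PadicInt.ext
    simp only [PadicInt.coe_add, PadicInt.coe_mul, PadicInt.coe_pow, coe_mkI]
    rw [mv_add, C.D_add_right]; ring
  D_smul_right a x y := by
    apply PadicInt.ext
    simp only [PadicInt.coe_add, PadicInt.coe_mul, PadicInt.coe_pow, coe_mkI]
    rw [mv_smul, C.D_smul_right]; ring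
  D_add_left x y z := by
    apply PadicInt.ext
    simp only [PadicInt.coe_add, PadicInt.coe_mul, PadicInt.coe_pow, coe_mkI]
    rw [mv_add, C.D_add_left]; ring
  D_smul_left a x y := by
    apply PadicInt.ext
    simp only [PadicInt.coe_add, PadicInt.coe_mul, PadicInt.coe_pow, coe_mkI]
    rw [mv_smul, C.D_smul_left]; ring
  T_add_left x x' y z := by
    apply PadicInt.ext
    simp only [PadicInt.coe_add, PadicInt.coe_mul, PadicInt.coe_pow, coe_mkI]
    rw [mv_add, C.T_add_left]; ring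
  T_smul_left a x y z := by
    apply PadicInt.ext
    simp only [PadicInt.coe_add, PadicInt.coe_mul, PadicInt.coe_pow, coe_mkI]
    rw [mv_smul, C.T_smul_left]; ring
  T_swap12 x y z := by
    apply PadicInt.ext
    simp only [coe_mkI]
    rw [C.T_swap12]
  T_swap23 x y z := by
    apply PadicInt.ext
    simp only [coe_mkI]
    rw [C.T_swap23]
  D_self x := by
    apply PadicInt.ext
    simp only [PadicInt.coe_mul, coe_mkI]
    rw [C.D_self, show ((3 : ℤ_[p]) : ℚ_[p]) = 3 from map_ofNat (PadicInt.Coe.ringHom (p := p)) 3]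
    ring
  T_self x y := by
    apply PadicInt.ext
    simp only [PadicInt.coe_mul, coe_mkI]
    rw [C.T_self, show ((2 : ℤ_[p]) : ℚ_[p]) = 2 from map_ofNat (PadicInt.Coe.ringHom (p := p)) 2]
    ring

/-- For every subspace `W` there is an integral matrix with image in `{x : red x ∈ W}` and
determinant of valuation at most `codim W`. -/
lemma exists_matrix (W : Submodule (ZMod p) (Fin n → ZMod p)) :
    ∃ A : Matrix (Fin n) (Fin n) ℤ_[p], A.det ≠ 0 ∧
      ‖A.det‖ = (p : ℝ) ^ (-((n - finrank (ZMod p) W : ℕ) : ℤ)) ∧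
      ∀ x, red (A.mulVec x) ∈ W := by
  classical
  obtain ⟨W', hW'⟩ := Submodule.exists_isCompl W
  set d := finrank (ZMod p) W with hd
  set d' := finrank (ZMod p) W' with hd'
  have hsum : d + d' = n := by
    have := Submodule.finrank_add_eq_of_isCompl hW'
    simpa using this
  let bW := Module.finBasis (ZMod p) W
  let bW' := Module.finBasis (ZMod p) W'
  let b0 : Basis (Fin d ⊕ Fin d') (ZMod p) (Fin n → ZMod p) :=
    (bW.prod bW').map (Submodule.prodEquivOfIsCompl W W' hW')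
  let e : Fin d ⊕ Fin d' ≃ Fin n := finSumFinEquiv.trans (finCongr hsum)
  let b := b0.reindex e
  -- the matrix of lifts
  let s : Fin n → ℤ_[p] := fun j => if (e.symm j).isLeft then 1 else (p : ℤ_[p])
  let L : Matrix (Fin n) (Fin n) ℤ_[p] := Matrix.of fun i j => lift (b j) i
  have hLred : L.map (PadicInt.toZMod (p := p)) = (Pi.basisFun (ZMod p) (Fin n)).toMatrix b := by
    ext i j
    have : red (lift (b j)) i = b j i := by rw [red_lift]
    simpa [L, red, Basis.toMatrix_apply] using this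
  have hLdet : PadicInt.toZMod L.det ≠ 0 := by
    have h1 : PadicInt.toZMod L.det = (L.map (PadicInt.toZMod (p := p))).det := by
      rw [RingHom.map_det]; rfl
    rw [h1, hLred]
    have h2 : IsUnit ((Pi.basisFun (ZMod p) (Fin n)).toMatrix b).det := by
      rw [← Basis.det_apply]
      exact Basis.isUnit_det _ b
    exact h2.ne_zero
  have hLunit : ‖L.det‖ = 1 := by
    by_contra h
    have h3 : ‖L.det‖ < 1 := lt_of_le_of_ne (PadicInt.norm_le_one _) h
    rw [PadicInt.norm_lt_one_iff_dvd] at h3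
    exact hLdet ((toZMod_eq_zero_iff _).2 (by simpa using h3))
  have hp0 : (0 : ℝ) < p := by exact_mod_cast hp.out.pos
  have hs : ‖∏ j, s j‖ = (p : ℝ) ^ (-((d' : ℕ) : ℤ)) := by
    have h1 : ∏ j, s j = ∏ j : Fin d ⊕ Fin d', (if j.isLeft then (1 : ℤ_[p]) else p) := by
      rw [← Equiv.prod_comp e]
      simp [s]
    rw [h1, Fintype.prod_sum_type]
    simp
  have hdet : (L * Matrix.diagonal s).det = L.det * ∏ j, s j := by
    rw [Matrix.det_mul, Matrix.det_diagonal]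
  have hnorm : ‖(L * Matrix.diagonal s).det‖ = (p : ℝ) ^ (-((n - d : ℕ) : ℤ)) := by
    rw [hdet, norm_mul, hLunit, one_mul, hs]
    congr 3
    omega
  refine ⟨L * Matrix.diagonal s, ?_, hnorm, ?_⟩
  · intro h0
    rw [h0, norm_zero] at hnorm
    exact absurd hnorm.symm (zpow_pos hp0 _).ne'
  · intro x
    have h1 : (L * Matrix.diagonal s).mulVec x = ∑ j, (s j * x j) • lift (b j) := by
      funext i
      simp only [Matrix.mulVec, dotProduct, Finset.sum_apply, Pi.smul_apply, smul_eq_mul,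
        Matrix.mul_diagonal]
      refine Finset.sum_congr rfl fun j _ => ?_
      simp only [L, Matrix.of_apply]
      ring
    have h2 : ∀ t : Finset (Fin n), red (∑ j ∈ t, (s j * x j) • lift (b j)) ∈ W := by
      intro t
      induction t using Finset.induction_on with
      | empty => simp [red_zero]
      | insert j t hj ih =>
        rw [Finset.sum_insert hj, red_add]
        refine W.add_mem ?_ ih
        rw [red_smul, red_lift]
        by_cases hjl : (e.symm j).isLeft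
        · refine W.smul_mem _ ?_
          obtain ⟨k, hk⟩ := Sum.isLeft_iff.1 hjl
          have : b j = (bW k : Fin n → ZMod p) := by
            simp only [b, Basis.reindex_apply, hk, b0, Basis.map_apply]
            simp [Basis.prod_apply]
          rw [this]
          exact (bW k).2
        · simp [s, hjl]
    rw [h1]
    exact h2 _

lemma norm_int_le {m k : ℤ} {a : ℚ_[p]} : ‖a * (p : ℚ_[p]) ^ m‖ = ‖a‖ * (p : ℝ) ^ (-m) := by
  rw [norm_mul, Padic.norm_p_zpow]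

/-- A model of maximal content is reduced. -/
theorem reduced_of_max {C : Cubic ℚ_[p] (Fin n → ℚ_[p])} {M₀ : Matrix (Fin n) (Fin n) ℚ_[p]}
    {c₀ : ℤ} (h0 : M₀.det ≠ 0) (hc : Content C M₀ c₀)
    (hmax : ∀ (M : Matrix (Fin n) (Fin n) ℚ_[p]) (c : ℤ), M.det ≠ 0 → Content C M c →
      n * c - 3 * M.det.valuation ≤ n * c₀ - 3 * M₀.det.valuation) :
    Reduced (intForm C M₀ c₀ hc) := by
  intro W r hW
  obtain ⟨A, hA0, hA1, hA2⟩ := exists_matrix W
  have hp0 : (0 : ℝ) < p := by exact_mod_cast hp.out.pos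
  set A' : Matrix (Fin n) (Fin n) ℚ_[p] := A.map (fun a => (a : ℚ_[p])) with hA'
  have hdetA : A'.det = (A.det : ℚ_[p]) := by
    have := RingHom.map_det (PadicInt.Coe.ringHom (p := p)) A
    rw [hA']
    exact this.symm
  have hdetA0 : A'.det ≠ 0 := by
    rw [hdetA]
    exact fun h => hA0 (PadicInt.ext (by simpa using h))
  have hmv : ∀ x, mv (M₀ * A') x = mv M₀ (A.mulVec x) := by
    intro x
    have : cv (A.mulVec x) = A'.mulVec (cv x) := by
      funext i
      simp [cv, Matrix.mulVec, dotProduct, hA']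
    rw [mv, mv, this, Matrix.mulVec_mulVec]
  have hcont : Content C (M₀ * A') (c₀ + r) := by
    intro x y z
    obtain ⟨h1, h2, h3⟩ := hW _ _ _ (hA2 x) (hA2 y) (hA2 z)
    have key : ∀ (a : ℚ_[p]) (ha : ‖(p : ℚ_[p]) ^ (-c₀) * a‖ ≤ 1),
        (p : ℤ_[p]) ^ r ∣ (⟨(p : ℚ_[p]) ^ (-c₀) * a, ha⟩ : ℤ_[p]) → ‖a‖ ≤ (p : ℝ) ^ (-(c₀ + r)) := by
      intro a ha hdiv
      have h4 := (PadicInt.norm_le_pow_iff_mem_span_pow (p := p) _ r).2
        (Ideal.mem_span_singleton.2 hdiv)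
      have h5 : ‖(p : ℚ_[p]) ^ (-c₀) * a‖ ≤ (p : ℝ) ^ (-(r : ℤ)) := h4
      rw [norm_mul, Padic.norm_p_zpow, neg_neg] at h5
      calc ‖a‖ = (p : ℝ) ^ (-c₀) * ((p : ℝ) ^ c₀ * ‖a‖) := by
            rw [← mul_assoc, ← zpow_add₀ hp0.ne']; simp
        _ ≤ (p : ℝ) ^ (-c₀) * (p : ℝ) ^ (-(r : ℤ)) := by gcongr
        _ = (p : ℝ) ^ (-(c₀ + r)) := by rw [← zpow_add₀ hp0.ne']; congr 1; ring
    rw [hmv, hmv, hmv]
    exact ⟨key _ _ h1, key _ _ h2, key _ _ h3⟩
  have hdet : (M₀ * A').det ≠ 0 := by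
    rw [Matrix.det_mul]
    exact mul_ne_zero h0 hdetA0
  have h6 := hmax _ _ hdet hcont
  have hval : (M₀ * A').det.valuation = M₀.det.valuation + (n - finrank (ZMod p) W : ℕ) := by
    rw [Matrix.det_mul, Padic.valuation_mul h0 hdetA0]
    congr 1
    have h7 : ‖A'.det‖ = (p : ℝ) ^ (-((n - finrank (ZMod p) W : ℕ) : ℤ)) := by
      rw [hdetA]
      exact hA1
    rw [Padic.norm_eq_zpow_neg_valuation hdetA0] at h7
    have hp1 : (1 : ℝ) < p := by exact_mod_cast hp.out.one_lt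
    have := zpow_right_injective₀ hp0 hp1.ne' h7
    omega
  rw [hval] at h6
  have h8 : (n : ℤ) * r ≤ 3 * (n - finrank (ZMod p) W : ℕ) := by nlinarith
  exact_mod_cast h8

/-- If the content is bounded then a model of maximal content exists. -/
theorem exists_max (C : Cubic ℚ_[p] (Fin n → ℚ_[p])) (B : ℤ)
    (hne : ∃ c, Content C 1 c)
    (hB : ∀ (M : Matrix (Fin n) (Fin n) ℚ_[p]) (c : ℤ), M.det ≠ 0 → Content C M c →
      n * c ≤ 3 * M.det.valuation + B) :
    ∃ (M₀ : Matrix (Fin n) (Fin n) ℚ_[p]) (c₀ : ℤ), M₀.det ≠ 0 ∧ Content C M₀ c₀ ∧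
      ∀ (M : Matrix (Fin n) (Fin n) ℚ_[p]) (c : ℤ), M.det ≠ 0 → Content C M c →
        n * c - 3 * M.det.valuation ≤ n * c₀ - 3 * M₀.det.valuation := by
  obtain ⟨c1, hc1⟩ := hne
  obtain ⟨k, ⟨M₀, c₀, h1, h2, h3⟩, hk⟩ := Int.exists_greatest_of_bdd
    (P := fun k : ℤ => ∃ (M : Matrix (Fin n) (Fin n) ℚ_[p]) (c : ℤ), M.det ≠ 0 ∧ Content C M c ∧
      k = n * c - 3 * M.det.valuation)
    ⟨B, by
      rintro k ⟨M, c, h1, h2, rfl⟩
      linarith [hB M c h1 h2]⟩
    ⟨_, 1, c1, by simp, hc1, rfl⟩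
  refine ⟨M₀, c₀, h1, h2, fun M c hM hc => ?_⟩
  rw [← h3]
  exact hk _ ⟨M, c, hM, hc, rfl⟩

end Pool.Agent.LibCubicLines
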