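import Pool.Agent.LibCubicLines.RedMax

/-!
Every cubic form in at least ten variables over `ℚ_p` has a nontrivial zero.
-/

namespace Pool.Agent.LibCubicLines

open Module

variable {p : ℕ} [hp : Fact p.Prime] {n : ℕ}

section continuity

variable (C : Cubic ℚ_[p] (Fin n → ℚ_[p]))

lemma continuous_G : Continuous C.G := by
  classical
  obtain ⟨P, _, hP⟩ := C.poly_cub (fun i : Fin n => Pi.single i (1 : ℚ_[p])) Finset.univ
  have : C.G = fun x => MvPolynomial.eval x P := by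
    funext x
    rw [hP]
    congr 1
    funext j
    simp [Finset.sum_apply, Pi.single_apply]
  rw [this]
  exact MvPolynomial.continuous_eval P

lemma D_eq (x y : Fin n → ℚ_[p]) :
    C.D x y = (C.G (x + y) - C.G (x + (-1 : ℚ_[p]) • y)) / 2 - C.G y := by
  rw [C.G_add, C.G_add, C.D_smul_right, C.D_smul_left, C.G_smul]
  ring

lemma T_eq (x y z : Fin n → ℚ_[p]) : C.T x y z = C.D (x + y) z - C.D x z - C.D y z := by
  rw [C.D_add_left]; ring

lemma continuous_D : Continuous fun z : (Fin n → ℚ_[p]) × (Fin n → ℚ_[p]) => C.D z.1 z.2 := by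
  have hG := continuous_G C
  simp only [D_eq]
  refine Continuous.sub (Continuous.div_const (Continuous.sub ?_ ?_) _) ?_
  · exact hG.comp (continuous_fst.add continuous_snd)
  · have h : Continuous fun z : (Fin n → ℚ_[p]) × (Fin n → ℚ_[p]) => z.1 + (-1 : ℚ_[p]) • z.2 := by
      fun_prop
    exact hG.comp h
  · exact hG.comp continuous_snd

lemma continuous_cv : Continuous (cv : (Fin n → ℤ_[p]) → Fin n → ℚ_[p]) :=
  continuous_pi fun i => continuous_subtype_val.comp (continuous_apply i)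

end continuity

lemma exists_zpow_ge (R : ℝ) : ∃ c : ℤ, R ≤ (p : ℝ) ^ (-c) := by
  have hp1 : (1 : ℝ) < p := by exact_mod_cast hp.out.one_lt
  obtain ⟨m, hm⟩ := pow_unbounded_of_one_lt R hp1
  exact ⟨-(m : ℤ), by rw [neg_neg, zpow_natCast]; exact hm.le⟩

lemma exists_zpow_le {ε : ℝ} (hε : 0 < ε) : ∃ c : ℤ, (p : ℝ) ^ (-c) ≤ ε := by
  have hp0 : (0 : ℝ) < p := by exact_mod_cast hp.out.pos
  obtain ⟨c, hc⟩ := exists_zpow_ge (p := p) (ε⁻¹)
  refine ⟨-c, ?_⟩
  rw [neg_neg]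
  have h1 : (p : ℝ) ^ c = ((p : ℝ) ^ (-c))⁻¹ := by rw [zpow_neg, inv_inv]
  rw [h1]
  exact inv_le_of_inv_le₀ hε hc

theorem exists_content (C : Cubic ℚ_[p] (Fin n → ℚ_[p])) : ∃ c, Content C 1 c := by
  have hG := continuous_G C
  have hD := continuous_D C
  have hcv := continuous_cv (p := p) (n := n)
  -- a common bound
  have b1 : ∃ R1, ∀ x : Fin n → ℤ_[p], ‖C.G (cv x)‖ ≤ R1 := by
    obtain ⟨R, hR⟩ := isCompact_univ.exists_bound_of_continuousOn
      (f := fun x : Fin n → ℤ_[p] => C.G (cv x)) (hG.comp hcv).continuousOn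
    exact ⟨R, fun x => hR x trivial⟩
  have b2 : ∃ R2, ∀ x y : Fin n → ℤ_[p], ‖C.D (cv x) (cv y)‖ ≤ R2 := by
    obtain ⟨R, hR⟩ := isCompact_univ.exists_bound_of_continuousOn
      (f := fun z : (Fin n → ℤ_[p]) × (Fin n → ℤ_[p]) => C.D (cv z.1) (cv z.2))
      (hD.comp ((hcv.comp continuous_fst).prodMk (hcv.comp continuous_snd))).continuousOn
    exact ⟨R, fun x y => hR (x, y) trivial⟩
  obtain ⟨R1, h1⟩ := b1
  obtain ⟨R2, h2⟩ := b2
  obtain ⟨c, hc⟩ := exists_zpow_ge (p := p) (max R1 (R2 + R2 + R2))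
  have hR2 : 0 ≤ R2 := (norm_nonneg _).trans (h2 0 0)
  have e : ∀ x : Fin n → ℤ_[p], mv 1 x = cv x := fun x => by rw [mv, Matrix.one_mulVec]
  refine ⟨c, fun x y z => ?_⟩
  rw [e, e, e]
  refine ⟨(h1 x).trans ((le_max_left _ _).trans hc), (h2 x y).trans ?_, ?_⟩
  · exact le_trans (by linarith) ((le_max_right R1 (R2 + R2 + R2)).trans hc)
  · rw [T_eq, ← cv_add]
    have h3 := norm_sub_le (C.D (cv (x + y)) (cv z) - C.D (cv x) (cv z)) (C.D (cv y) (cv z))
    have h4 := norm_sub_le (C.D (cv (x + y)) (cv z)) (C.D (cv x) (cv z))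
    have h5 := h2 (x + y) z
    have h6 := h2 x z
    have h7 := h2 y z
    exact le_trans (by linarith) ((le_max_right R1 (R2 + R2 + R2)).trans hc)

lemma red_eq_of_norm_lt {x y : Fin n → ℤ_[p]} (h : ‖y - x‖ < 1) : red y = red x := by
  funext i
  have h1 : ‖y i - x i‖ < 1 := lt_of_le_of_lt (norm_le_pi_norm (y - x) i) h
  rw [PadicInt.norm_lt_one_iff_dvd] at h1
  have h2 : PadicInt.toZMod (y i - x i) = 0 := (toZMod_eq_zero_iff _).2 (by simpa using h1)
  rw [map_sub] at h2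
  exact sub_eq_zero.1 h2

lemma isOpen_red (P : (Fin n → ZMod p) → Prop) : IsOpen {x : Fin n → ℤ_[p] | P (red x)} := by
  rw [Metric.isOpen_iff]
  intro x hx
  refine ⟨1, one_pos, fun y hy => ?_⟩
  rw [Metric.mem_ball, dist_eq_norm] at hy
  show P (red y)
  rw [red_eq_of_norm_lt hy]
  exact hx

lemma isClosed_red (P : (Fin n → ZMod p) → Prop) : IsClosed {x : Fin n → ℤ_[p] | P (red x)} := by
  rw [← isOpen_compl_iff]
  exact isOpen_red fun x => ¬ P x

lemma isOpen_red2 (P : (Fin n → ZMod p) → (Fin n → ZMod p) → Prop) :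
    IsOpen {z : (Fin n → ℤ_[p]) × (Fin n → ℤ_[p]) | P (red z.1) (red z.2)} := by
  rw [Metric.isOpen_iff]
  intro z hz
  refine ⟨1, one_pos, fun w hw => ?_⟩
  rw [Metric.mem_ball, Prod.dist_eq, max_lt_iff, dist_eq_norm, dist_eq_norm] at hw
  show P (red w.1) (red w.2)
  rw [red_eq_of_norm_lt hw.1, red_eq_of_norm_lt hw.2]
  exact hz

lemma isClosed_red2 (P : (Fin n → ZMod p) → (Fin n → ZMod p) → Prop) :
    IsClosed {z : (Fin n → ℤ_[p]) × (Fin n → ℤ_[p]) | P (red z.1) (red z.2)} := by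
  rw [← isOpen_compl_iff]
  exact isOpen_red2 fun x y => ¬ P x y

lemma cv_ne_zero {x : Fin n → ℤ_[p]} (h : x ≠ 0) : cv x ≠ 0 := by
  intro h0
  apply h
  funext i
  have := congrFun h0 i
  exact PadicInt.ext (by simpa [cv] using this)

lemma ne_zero_of_red {x : Fin n → ℤ_[p]} (h : red x ≠ 0) : x ≠ 0 := by
  rintro rfl
  exact h red_zero

theorem exists_lower_bound (C : Cubic ℚ_[p] (Fin n → ℚ_[p])) (h0 : ∀ x, C.G x = 0 → x = 0) :
    ∃ N0 : ℤ, ∀ x : Fin n → ℤ_[p], red x ≠ 0 → (p : ℝ) ^ (-N0) ≤ ‖C.G (cv x)‖ := by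
  set S : Set (Fin n → ℤ_[p]) := {x | red x ≠ 0} with hS
  have hSc : IsCompact S := (isClosed_red fun x => x ≠ 0).isCompact
  rcases S.eq_empty_or_nonempty with hE | hne
  · refine ⟨0, fun x hx => ?_⟩
    have : x ∈ S := hx
    rw [hE] at this
    exact absurd this (Set.notMem_empty _)
  · obtain ⟨x0, hx0, hmin⟩ := hSc.exists_isMinOn hne
      (f := fun x : Fin n → ℤ_[p] => ‖C.G (cv x)‖)
      ((continuous_G C).comp continuous_cv).norm.continuousOn
    have hpos : 0 < ‖C.G (cv x0)‖ := by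
      rw [norm_pos_iff]
      intro h
      exact cv_ne_zero (ne_zero_of_red hx0) (h0 _ h)
    obtain ⟨c, hc⟩ := exists_zpow_le (p := p) hpos
    exact ⟨c, fun x hx => hc.trans (hmin hx)⟩

lemma norm_det_le_one (M : Matrix (Fin n) (Fin n) ℚ_[p]) (h : ∀ i j, ‖M i j‖ ≤ 1) :
    ‖M.det‖ ≤ 1 := by
  set A : Matrix (Fin n) (Fin n) ℤ_[p] := Matrix.of fun i j => mkI (M i j) (h i j) with hA
  have h1 : M = (PadicInt.Coe.ringHom (p := p)).mapMatrix A := by
    ext i j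
    rfl
  rw [h1, ← RingHom.map_det]
  exact PadicInt.norm_le_one A.det

lemma cv_single (j : Fin n) : cv (Pi.single j (1 : ℤ_[p])) = Pi.single j (1 : ℚ_[p]) := by
  funext k
  by_cases h : k = j
  · subst h; simp [cv]
  · simp [cv, h]

lemma norm_zpow_mul (k : ℤ) (a : ℚ_[p]) : ‖(p : ℚ_[p]) ^ k * a‖ = (p : ℝ) ^ (-k) * ‖a‖ := by
  rw [norm_mul, Padic.norm_p_zpow]

/-- The content bound for forms without zeros. -/
theorem bound_of_lower (C : Cubic ℚ_[p] (Fin n → ℚ_[p])) (hn : 0 < n) {N0 : ℤ}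
    (hN : ∀ x : Fin n → ℤ_[p], red x ≠ 0 → (p : ℝ) ^ (-N0) ≤ ‖C.G (cv x)‖)
    (M : Matrix (Fin n) (Fin n) ℚ_[p]) (c : ℤ) (hM : M.det ≠ 0) (hc : Content C M c) :
    n * c ≤ 3 * M.det.valuation + n * N0 := by
  classical
  have hp0 : (0 : ℝ) < p := by exact_mod_cast hp.out.pos
  have hp1 : (1 : ℝ) < p := by exact_mod_cast hp.out.one_lt
  have : Nonempty (Fin n) := ⟨⟨0, hn⟩⟩
  obtain ⟨⟨i, j⟩, hij⟩ := Finite.exists_max (fun ij : Fin n × Fin n => ‖M ij.1 ij.2‖)
  have hne : M i j ≠ 0 := by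
    intro h
    apply hM
    have : M = 0 := by
      ext a b
      have := hij (a, b)
      simp only [h, norm_zero] at this
      simpa using norm_le_zero_iff.1 this
    rw [this, Matrix.det_zero]
  set a : ℤ := (M i j).valuation with ha
  have hnorm : ‖M i j‖ = (p : ℝ) ^ (-a) := Padic.norm_eq_zpow_neg_valuation hne
  have hle : ∀ k l, ‖(p : ℚ_[p]) ^ (-a) * M k l‖ ≤ 1 := by
    intro k l
    apply norm_scale
    rw [← hnorm]
    exact hij (k, l)
  -- the primitive vector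
  set x : Fin n → ℤ_[p] := fun k => mkI ((p : ℚ_[p]) ^ (-a) * M k j) (hle k j) with hx
  have hx1 : ‖x i‖ = 1 := by
    have : ‖x i‖ = ‖(p : ℚ_[p]) ^ (-a) * M i j‖ := rfl
    rw [this, norm_zpow_mul, hnorm, ← zpow_add₀ hp0.ne']
    simp
  have hred : red x ≠ 0 := by
    intro h
    have h1 : PadicInt.toZMod (x i) = 0 := congrFun h i
    rw [toZMod_eq_zero_iff] at h1
    have h2 : ‖x i‖ < 1 := (PadicInt.norm_lt_one_iff_dvd _).2 (by simpa using h1)
    linarith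
  have hcv : cv x = (p : ℚ_[p]) ^ (-a) • mv M (Pi.single j 1) := by
    funext k
    have h1 : mv M (Pi.single j 1) k = M k j := by
      rw [mv, cv_single, Matrix.mulVec_single_one]
      rfl
    rw [Pi.smul_apply, h1, smul_eq_mul]
    rfl
  have h1 := hN x hred
  rw [hcv, C.G_smul, norm_mul, norm_pow, Padic.norm_p_zpow, neg_neg] at h1
  have h2 := (hc (Pi.single j 1) 0 0).1
  have h3 : (p : ℝ) ^ (-N0) ≤ (p : ℝ) ^ (3 * a - c) := by
    calc (p : ℝ) ^ (-N0) ≤ ((p : ℝ) ^ a) ^ 3 * ‖C.G (mv M (Pi.single j 1))‖ := h1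
      _ ≤ ((p : ℝ) ^ a) ^ 3 * (p : ℝ) ^ (-c) := by gcongr
      _ = (p : ℝ) ^ (3 * a - c) := by
        rw [← zpow_natCast, ← zpow_mul, ← zpow_add₀ hp0.ne']
        congr 1
        push_cast
        ring
  have h4 : -N0 ≤ 3 * a - c := (zpow_le_zpow_iff_right₀ hp1).1 h3
  -- determinant
  have h5 : ‖((p : ℚ_[p]) ^ (-a) • M).det‖ ≤ 1 := norm_det_le_one _ fun k l => by
    simpa using hle k l
  rw [Matrix.det_smul, norm_mul, norm_pow, Padic.norm_p_zpow, neg_neg,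
    Padic.norm_eq_zpow_neg_valuation hM, Fintype.card_fin, ← zpow_natCast, ← zpow_mul,
    ← zpow_add₀ hp0.ne'] at h5
  have h6 : a * n + -M.det.valuation ≤ 0 := by
    rw [← zpow_zero (p : ℝ)] at h5
    exact (zpow_le_zpow_iff_right₀ hp1).1 h5
  have hn' : (0 : ℤ) < n := by exact_mod_cast hn
  nlinarith

/-- Lifting a smooth zero. -/
theorem hensel_zero (C : Cubic ℤ_[p] (Fin n → ℤ_[p])) {u v : Fin n → ℤ_[p]}
    (h0 : PadicInt.toZMod (C.G u) = 0) (h1 : PadicInt.toZMod (C.D u v) ≠ 0) :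
    ∃ x, C.G x = 0 ∧ red x = red u := by
  classical
  set g : Polynomial ℤ_[p] := Polynomial.C (C.G u) + Polynomial.C (C.D u v) * Polynomial.X +
    Polynomial.C (C.D v u) * Polynomial.X ^ 2 + Polynomial.C (C.G v) * Polynomial.X ^ 3 with hg
  have hg0 : g.aeval (0 : ℤ_[p]) = C.G u := by simp [hg]
  have hg1 : g.derivative.aeval (0 : ℤ_[p]) = C.D u v := by
    simp [hg]
  have n0 : ‖C.G u‖ < 1 := (PadicInt.norm_lt_one_iff_dvd _).2
    (by simpa using (toZMod_eq_zero_iff _).1 h0)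
  have n1 : ‖C.D u v‖ = 1 := by
    by_contra h
    have h3 : ‖C.D u v‖ < 1 := lt_of_le_of_ne (PadicInt.norm_le_one _) h
    rw [PadicInt.norm_lt_one_iff_dvd] at h3
    exact h1 ((toZMod_eq_zero_iff _).2 (by simpa using h3))
  obtain ⟨z, hz, hz1, -⟩ := hensels_lemma (p := p) (F := g) (a := 0) (by
    rw [hg0, hg1, n1]; simpa using n0)
  rw [hg1, n1, sub_zero] at hz1
  refine ⟨u + z • v, ?_, ?_⟩
  · rw [C.G_add, C.D_smul_right, C.D_smul_left, C.G_smul]
    have : g.aeval z = C.G u + C.D u v * z + C.D v u * z ^ 2 + C.G v * z ^ 3 := by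
      simp [hg]
    rw [this] at hz
    linear_combination hz
  · rw [red_add, red_smul]
    have : PadicInt.toZMod z = 0 := (toZMod_eq_zero_iff _).2
      (by simpa using (PadicInt.norm_lt_one_iff_dvd _).1 hz1)
    rw [this]
    simp

lemma mv_ne_zero {M : Matrix (Fin n) (Fin n) ℚ_[p]} (hM : M.det ≠ 0) {x : Fin n → ℤ_[p]}
    (hx : x ≠ 0) : mv M x ≠ 0 := by
  intro h
  exact cv_ne_zero hx (Matrix.eq_zero_of_mulVec_eq_zero hM h)

/-- Every cubic form over `ℚ_p` in at least ten variables has a nontrivial zero. -/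
theorem exists_padic_zero (hn : 10 ≤ n) (C : Cubic ℚ_[p] (Fin n → ℚ_[p])) :
    ∃ x, x ≠ 0 ∧ C.G x = 0 := by
  by_contra hcon
  push Not at hcon
  have h0 : ∀ x, C.G x = 0 → x = 0 := fun x hx => by
    by_contra h
    exact hcon x h hx
  obtain ⟨N0, hN0⟩ := exists_lower_bound C h0
  obtain ⟨M₀, c₀, hM, hc, hmax⟩ := exists_max C (n * N0) (exists_content C)
    (fun M c hM hc => bound_of_lower C (by omega) hN0 M c hM hc)
  have hred := reduced_of_max hM hc hmax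
  set C' := intForm C M₀ c₀ hc with hC'
  obtain ⟨u, hu, v, hv⟩ := Cubic.exists_smooth_zero (modp C') (by
    intro W hW hvan
    rw [Module.finrank_fin_fun] at hW
    have h1 := hred W 1 (by
      intro x y z hx hy hz
      obtain ⟨a1, a2, a3⟩ := hvan _ hx _ hy _ hz
      rw [modp_G] at a1
      rw [modp_D] at a2
      rw [modp_T] at a3
      rw [pow_one]
      exact ⟨(toZMod_eq_zero_iff _).1 a1, (toZMod_eq_zero_iff _).1 a2,
        (toZMod_eq_zero_iff _).1 a3⟩)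
    omega)
  obtain ⟨u', rfl⟩ := red_surjective u
  obtain ⟨v', rfl⟩ := red_surjective v
  rw [modp_G] at hu
  rw [modp_D] at hv
  obtain ⟨x, hx, hx'⟩ := hensel_zero C' hu hv
  have hx0 : x ≠ 0 := by
    apply ne_zero_of_red
    rw [hx']
    intro h
    apply hv
    have h2 : PadicInt.toZMod (C'.D u' v') = PadicInt.toZMod (C'.D 0 v') :=
      modD C' _ _ _ _ (by rw [h, red_zero]) rfl
    rw [h2, C'.D_zero_left, map_zero]
  refine mv_ne_zero hM hx0 (h0 _ ?_)
  have h3 : (p : ℚ_[p]) ^ (-c₀) * C.G (mv M₀ x) = 0 := by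
    have : ((C'.G x : ℤ_[p]) : ℚ_[p]) = (p : ℚ_[p]) ^ (-c₀) * C.G (mv M₀ x) := rfl
    rw [← this, hx]
    rfl
  have hpz : (p : ℚ_[p]) ^ (-c₀) ≠ 0 := zpow_ne_zero _ (by exact_mod_cast hp.out.ne_zero)
  exact (mul_eq_zero.1 h3).resolve_left hpz

end Pool.Agent.LibCubicLines
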