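import Pool.Agent.LibCubicLines.RedZero

/-!
Reduction theory for cubic forms over `ℚ_p` without rational lines (TASK R).
-/

namespace Pool.Agent.LibCubicLines

open Module

variable {p : ℕ} [hp : Fact p.Prime] {n : ℕ}

lemma cv_zero : cv (0 : Fin n → ℤ_[p]) = 0 := by
  funext i; simp [cv]

lemma cv_injective : Function.Injective (cv : (Fin n → ℤ_[p]) → Fin n → ℚ_[p]) := by
  intro x y h
  funext i
  exact PadicInt.ext (congrFun h i)

lemma prod_zpow_sum {ι : Type*} {q : ℝ} (hq : q ≠ 0) (s : Finset ι) (f : ι → ℤ) :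
    ∏ i ∈ s, q ^ f i = q ^ ∑ i ∈ s, f i := by
  classical
  induction s using Finset.induction_on with
  | empty => simp
  | insert i s hi ih => rw [Finset.prod_insert hi, Finset.sum_insert hi, zpow_add₀ hq, ih]

/-- Smith normal form for a lattice, in the form needed here. -/
theorem exists_smith (M : Matrix (Fin n) (Fin n) ℚ_[p]) (hM : M.det ≠ 0) :
    ∃ (e : Fin n → Fin n → ℤ_[p]) (a : Fin n → ℤ),
      LinearIndependent (ZMod p) (fun i => red (e i)) ∧
      (∀ i, ∃ x : Fin n → ℤ_[p], mv M x = (p : ℚ_[p]) ^ (a i) • cv (e i)) ∧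
      ∑ i, a i ≤ M.det.valuation := by
  classical
  have hp0 : (0 : ℝ) < p := by exact_mod_cast hp.out.pos
  have hp1 : (1 : ℝ) < p := by exact_mod_cast hp.out.one_lt
  have hpz : (p : ℚ_[p]) ≠ 0 := by exact_mod_cast hp.out.ne_zero
  -- make `M` integral
  obtain ⟨R, hR⟩ : ∃ R : ℝ, ∀ i j, ‖M i j‖ ≤ R :=
    ⟨∑ i, ∑ j, ‖M i j‖, fun i j =>
      (Finset.single_le_sum (f := fun j => ‖M i j‖) (fun _ _ => norm_nonneg _)
        (Finset.mem_univ j)).trans
      (Finset.single_le_sum (f := fun i => ∑ j, ‖M i j‖)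
        (fun _ _ => Finset.sum_nonneg fun _ _ => norm_nonneg _) (Finset.mem_univ i))⟩
  obtain ⟨k, hk⟩ := exists_zpow_ge (p := p) R
  have hle : ∀ i j, ‖(p : ℚ_[p]) ^ (-k) * M i j‖ ≤ 1 := fun i j =>
    norm_scale ((hR i j).trans hk)
  set A : Matrix (Fin n) (Fin n) ℤ_[p] := Matrix.of fun i j => mkI _ (hle i j) with hA
  have hAM : (PadicInt.Coe.ringHom (p := p)).mapMatrix A = (p : ℚ_[p]) ^ (-k) • M := by
    ext i j
    rfl
  have hAdet : ((A.det : ℤ_[p]) : ℚ_[p]) = ((p : ℚ_[p]) ^ (-k)) ^ n * M.det := by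
    have h1 : ((A.det : ℤ_[p]) : ℚ_[p]) = PadicInt.Coe.ringHom (p := p) A.det := rfl
    rw [h1, RingHom.map_det, hAM, Matrix.det_smul, Fintype.card_fin]
  have hAdet0 : A.det ≠ 0 := by
    intro h
    rw [h] at hAdet
    exact mul_ne_zero (pow_ne_zero _ (zpow_ne_zero _ hpz)) hM (by simpa using hAdet.symm)
  have hcvA : ∀ x, cv (A.mulVec x) = (p : ℚ_[p]) ^ (-k) • mv M x := by
    intro x
    have h1 : cv (A.mulVec x) = ((PadicInt.Coe.ringHom (p := p)).mapMatrix A).mulVec (cv x) := by
      funext i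
      simp [cv, Matrix.mulVec, dotProduct] <;> rfl
    rw [h1, hAM, Matrix.smul_mulVec]
    rfl
  -- Smith normal form of the range
  set φ : (Fin n → ℤ_[p]) →ₗ[ℤ_[p]] (Fin n → ℤ_[p]) := A.mulVecLin with hφ
  have hφinj : Function.Injective φ := by
    rw [← LinearMap.ker_eq_bot, LinearMap.ker_eq_bot']
    intro x hx
    exact Matrix.eq_zero_of_mulVec_eq_zero hAdet0 hx
  obtain ⟨b, α, ab, hab⟩ := Submodule.exists_smith_normal_form_of_rank_eq
    (Pi.basisFun ℤ_[p] (Fin n)) (N := LinearMap.range φ) (by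
      rw [LinearMap.finrank_range_of_inj hφinj])
  have hα : ∀ i, α i ≠ 0 := by
    intro i h
    have h1 := hab i
    rw [h, zero_smul] at h1
    exact ab.ne_zero i (Subtype.ext h1)
  refine ⟨fun i => b i, fun i => ((α i).valuation : ℤ) + k, ?_, ?_, ?_⟩
  · rw [Fintype.linearIndependent_iff]
    intro g hg
    set g' : Fin n → ℤ_[p] := fun i => ((g i).val : ℤ_[p]) with hg'
    have h1 : red (∑ i, g' i • b i) = 0 := by
      have h2 : ∀ s : Finset (Fin n), red (∑ i ∈ s, g' i • b i) = ∑ i ∈ s, g i • red (b i) := by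
        intro s
        induction s using Finset.induction_on with
        | empty => simp [red_zero]
        | insert i s hi ih =>
          rw [Finset.sum_insert hi, Finset.sum_insert hi, red_add, ih, red_smul]
          simp [hg']
      rw [h2, hg]
    obtain ⟨y, hy⟩ := (red_eq_zero_iff _).1 h1
    intro i
    have h3 : g' i = p * b.repr y i := by
      have h4 : b.repr (∑ i, g' i • b i) i = b.repr ((p : ℤ_[p]) • y) i := by rw [hy]
      rw [b.repr_sum_self, map_smul] at h4
      simpa using h4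
    have h5 : PadicInt.toZMod (g' i) = 0 := (toZMod_eq_zero_iff _).2 ⟨_, h3⟩
    simpa [hg'] using h5
  · intro i
    obtain ⟨x', hx'⟩ := (ab i).2
    have hx'' : A.mulVec x' = α i • b i := by
      rw [← hab i, ← hx']; rfl
    set u := PadicInt.unitCoeff (hα i) with hu
    have hspec : α i = u * (p : ℤ_[p]) ^ (α i).valuation := PadicInt.unitCoeff_spec (hα i)
    refine ⟨((u⁻¹ : ℤ_[p]ˣ) : ℤ_[p]) • x', ?_⟩
    have h1 : A.mulVec (((u⁻¹ : ℤ_[p]ˣ) : ℤ_[p]) • x') = (p : ℤ_[p]) ^ (α i).valuation • b i := by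
      rw [Matrix.mulVec_smul, hx'', smul_smul]
      congr 1
      conv_lhs => rw [hspec]
      rw [← mul_assoc, Units.inv_mul, one_mul]
    have h2 := congrArg cv h1
    rw [hcvA, cv_smul] at h2
    have h3 : mv M (((u⁻¹ : ℤ_[p]ˣ) : ℤ_[p]) • x') =
        (p : ℚ_[p]) ^ k • ((p : ℚ_[p]) ^ (-k) • mv M (((u⁻¹ : ℤ_[p]ˣ) : ℤ_[p]) • x')) := by
      rw [smul_smul, ← zpow_add₀ hpz]
      simp
    rw [h3, h2, smul_smul]
    congr 1
    push_cast
    rw [zpow_add₀ hpz, zpow_natCast, mul_comm]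
  · -- determinant
    set B : Matrix (Fin n) (Fin n) ℤ_[p] := Matrix.of fun i j => b j i with hB
    set Y : Matrix (Fin n) (Fin n) ℤ_[p] := Matrix.of fun i j =>
      ab.repr ⟨A.mulVec (Pi.single j 1), ⟨Pi.single j 1, rfl⟩⟩ i with hY
    have hfac : A = B * Matrix.diagonal α * Y := by
      ext i j
      have h1 : A i j = A.mulVec (Pi.single j 1) i := by
        rw [Matrix.mulVec_single_one]
        rfl
      have h2 := congrArg Subtype.val
        (ab.sum_repr ⟨A.mulVec (Pi.single j 1), ⟨Pi.single j 1, rfl⟩⟩)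
      have h3 := congrFun h2 i
      simp only at h3
      rw [h1, ← h3]
      rw [Submodule.coe_sum, Finset.sum_apply, Matrix.mul_apply]
      refine Finset.sum_congr rfl fun l _ => ?_
      rw [Submodule.coe_smul, hab, Matrix.mul_diagonal]
      simp only [hB, hY, Matrix.of_apply, Pi.smul_apply, smul_eq_mul]
      ring
    have hnorm : ‖A.det‖ ≤ ∏ i, ‖α i‖ := by
      rw [hfac, Matrix.det_mul, Matrix.det_mul, Matrix.det_diagonal, norm_mul, norm_mul]
      have h1 := PadicInt.norm_le_one B.det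
      have h2 := PadicInt.norm_le_one Y.det
      have h3 : ‖∏ i, α i‖ = ∏ i, ‖α i‖ := map_prod (normHom : ℤ_[p] →*₀ ℝ) _ _
      rw [h3]
      have h4 : 0 ≤ ∏ i, ‖α i‖ := Finset.prod_nonneg fun _ _ => norm_nonneg _
      calc (‖B.det‖ * ∏ i, ‖α i‖) * ‖Y.det‖ ≤ (1 * ∏ i, ‖α i‖) * 1 := by gcongr
        _ = ∏ i, ‖α i‖ := by ring
    have h5 : ∏ i, ‖α i‖ = (p : ℝ) ^ (-∑ i, ((α i).valuation : ℤ)) := by
      rw [← Finset.sum_neg_distrib, ← prod_zpow_sum hp0.ne']
      refine Finset.prod_congr rfl fun i _ => ?_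
      exact PadicInt.norm_eq_zpow_neg_valuation (hα i)
    have h6 : ‖A.det‖ = (p : ℝ) ^ (k * n - M.det.valuation) := by
      have : ‖A.det‖ = ‖((A.det : ℤ_[p]) : ℚ_[p])‖ := rfl
      rw [this, hAdet, norm_mul, norm_pow, Padic.norm_p_zpow, neg_neg,
        Padic.norm_eq_zpow_neg_valuation hM, ← zpow_natCast, ← zpow_mul, ← zpow_add₀ hp0.ne']
      rfl
    rw [h5, h6] at hnorm
    have h7 := (zpow_le_zpow_iff_right₀ hp1).1 hnorm
    rw [Finset.sum_add_distrib, Finset.sum_const, Finset.card_univ, Fintype.card_fin, nsmul_eq_mul]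
    linarith

/-- no rational line -/
def NoLineK (C : Cubic ℚ_[p] (Fin n → ℚ_[p])) : Prop :=
  ∀ u w, LinearIndependent ℚ_[p] ![u, w] → ¬ C.IsLine u w

lemma indep_of_red {u w : Fin n → ℤ_[p]} (h : LinearIndependent (ZMod p) ![red u, red w]) :
    LinearIndependent ℚ_[p] ![cv u, cv w] := by
  rw [LinearIndependent.pair_iff] at h ⊢
  intro s t hst
  by_contra hne
  rcases le_total ‖t‖ ‖s‖ with hle | hle
  · have hs : s ≠ 0 := by
      rintro rfl
      rw [norm_zero] at hle
      exact hne ⟨rfl, norm_le_zero_iff.1 hle⟩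
    have hr : ‖t / s‖ ≤ 1 := by
      rw [norm_div]
      exact div_le_one_of_le₀ hle (norm_nonneg _)
    have h1 : (1 : ℤ_[p]) • u + mkI _ hr • w = 0 := by
      apply cv_injective
      rw [cv_add, cv_smul, cv_smul, cv_zero, coe_mkI]
      have h2 : s⁻¹ • (s • cv u + t • cv w) = 0 := by rw [hst, smul_zero]
      rw [smul_add, smul_smul, smul_smul, inv_mul_cancel₀ hs] at h2
      rw [div_eq_inv_mul, PadicInt.coe_one]
      exact h2
    have h3 := congrArg red h1
    rw [red_add, red_smul, red_smul, red_zero, map_one] at h3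
    exact one_ne_zero (h _ _ h3).1
  · have ht : t ≠ 0 := by
      rintro rfl
      rw [norm_zero] at hle
      exact hne ⟨norm_le_zero_iff.1 hle, rfl⟩
    have hr : ‖s / t‖ ≤ 1 := by
      rw [norm_div]
      exact div_le_one_of_le₀ hle (norm_nonneg _)
    have h1 : mkI _ hr • u + (1 : ℤ_[p]) • w = 0 := by
      apply cv_injective
      rw [cv_add, cv_smul, cv_smul, cv_zero, coe_mkI]
      have h2 : t⁻¹ • (s • cv u + t • cv w) = 0 := by rw [hst, smul_zero]
      rw [smul_add, smul_smul, smul_smul, inv_mul_cancel₀ ht] at h2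
      rw [div_eq_inv_mul, PadicInt.coe_one]
      exact h2
    have h3 := congrArg red h1
    rw [red_add, red_smul, red_smul, red_zero, map_one] at h3
    exact one_ne_zero (h _ _ h3).2

/-- the largest of the norms of the four coefficients of the restriction to a pair -/
noncomputable def pairNorm (C : Cubic ℚ_[p] (Fin n → ℚ_[p])) (u w : Fin n → ℚ_[p]) : ℝ :=
  max (max ‖C.G u‖ ‖C.D u w‖) (max ‖C.D w u‖ ‖C.G w‖)

theorem exists_lower_bound2 (C : Cubic ℚ_[p] (Fin n → ℚ_[p])) (h0 : NoLineK C) :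
    ∃ N1 : ℤ, ∀ u w : Fin n → ℤ_[p], LinearIndependent (ZMod p) ![red u, red w] →
      (p : ℝ) ^ (-N1) ≤ pairNorm C (cv u) (cv w) := by
  set S : Set ((Fin n → ℤ_[p]) × (Fin n → ℤ_[p])) :=
    {z | LinearIndependent (ZMod p) ![red z.1, red z.2]} with hS
  have hSc : IsCompact S :=
    (isClosed_red2 fun x y => LinearIndependent (ZMod p) ![x, y]).isCompact
  rcases S.eq_empty_or_nonempty with hE | hne
  · refine ⟨0, fun u w huw => ?_⟩
    have : (u, w) ∈ S := huw
    rw [hE] at this
    exact absurd this (Set.notMem_empty _)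
  · have hG := continuous_G C
    have hD := continuous_D C
    have hcv := continuous_cv (p := p) (n := n)
    have hcont : Continuous fun z : (Fin n → ℤ_[p]) × (Fin n → ℤ_[p]) =>
        pairNorm C (cv z.1) (cv z.2) := by
      unfold pairNorm
      refine ((hG.comp (hcv.comp continuous_fst)).norm.max
        (hD.comp ((hcv.comp continuous_fst).prodMk (hcv.comp continuous_snd))).norm).max
        ((hD.comp ((hcv.comp continuous_snd).prodMk (hcv.comp continuous_fst))).norm.max
        (hG.comp (hcv.comp continuous_snd)).norm)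
    obtain ⟨z0, hz0, hmin⟩ := hSc.exists_isMinOn hne hcont.continuousOn
    have hpos : 0 < pairNorm C (cv z0.1) (cv z0.2) := by
      by_contra hle
      push Not at hle
      have h1 := (le_max_left _ _).trans hle
      have h2 := (le_max_right _ _).trans hle
      refine h0 _ _ (indep_of_red hz0) ⟨?_, ?_, ?_, ?_⟩
      · exact norm_le_zero_iff.1 ((le_max_left _ _).trans h1)
      · exact norm_le_zero_iff.1 ((le_max_right _ _).trans h1)
      · exact norm_le_zero_iff.1 ((le_max_left _ _).trans h2)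
      · exact norm_le_zero_iff.1 ((le_max_right _ _).trans h2)
    obtain ⟨c, hc⟩ := exists_zpow_le (p := p) hpos
    exact ⟨c, fun u w huw => hc.trans (hmin (show (u, w) ∈ S from huw))⟩

section sums

variable (C : Cubic ℚ_[p] (Fin n → ℚ_[p])) {ι : Type*} [DecidableEq ι] {x : ι → ℚ_[p]}
  {v : ι → Fin n → ℚ_[p]} {y : Fin n → ℚ_[p]} {R : ℝ}

lemma norm_D_right_sum (hR : 0 ≤ R) (hx : ∀ k, ‖x k‖ ≤ 1) (h : ∀ k, ‖C.D y (v k)‖ ≤ R)
    (s : Finset ι) : ‖C.D y (∑ k ∈ s, x k • v k)‖ ≤ R := by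
  induction s using Finset.induction_on with
  | empty => simpa [C.D_zero_right] using hR
  | insert i s hi ih =>
    rw [Finset.sum_insert hi, C.D_add_right, C.D_smul_right]
    refine (Padic.nonarchimedean _ _).trans (max_le ?_ ih)
    rw [norm_mul]
    exact (mul_le_mul (hx i) (h i) (norm_nonneg _) zero_le_one).trans (by simp)

lemma norm_T_sum (hR : 0 ≤ R) (hx : ∀ k, ‖x k‖ ≤ 1) {i : ι} (s : Finset ι) (his : i ∉ s)
    (h : ∀ k, k ≠ i → ‖C.T (v i) (v k) y‖ ≤ R) :
    ‖C.T (v i) (∑ k ∈ s, x k • v k) y‖ ≤ R := by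
  induction s using Finset.induction_on with
  | empty => simpa [C.T_zero_mid] using hR
  | insert j s hj ih =>
    rw [Finset.sum_insert hj, C.T_add_mid, C.T_smul_mid]
    rw [Finset.mem_insert, not_or] at his
    refine (Padic.nonarchimedean _ _).trans (max_le ?_ (ih his.2))
    rw [norm_mul]
    exact (mul_le_mul (hx j) (h j (Ne.symm his.1)) (norm_nonneg _) zero_le_one).trans (by simp)

lemma norm_D_left_sum (hR : 0 ≤ R) (hx : ∀ k, ‖x k‖ ≤ 1) (h : ∀ k, ‖C.D (v k) y‖ ≤ R)
    (h' : ∀ k l, k ≠ l → ‖C.T (v k) (v l) y‖ ≤ R) (s : Finset ι) :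
    ‖C.D (∑ k ∈ s, x k • v k) y‖ ≤ R := by
  induction s using Finset.induction_on with
  | empty => simpa [C.D_zero_left] using hR
  | insert i s hi ih =>
    rw [Finset.sum_insert hi, C.D_add_left, C.D_smul_left, C.T_smul_left]
    refine (Padic.nonarchimedean _ _).trans (max_le ?_ ?_)
    · refine (Padic.nonarchimedean _ _).trans (max_le ?_ ih)
      rw [norm_mul, norm_pow]
      exact (mul_le_mul (pow_le_one₀ (norm_nonneg _) (hx i)) (h i) (norm_nonneg _)
        zero_le_one).trans (by simp)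
    · rw [norm_mul]
      exact (mul_le_mul (hx i) (norm_T_sum C hR hx s hi fun k hk => h' i k (Ne.symm hk))
        (norm_nonneg _) zero_le_one).trans (by simp)

end sums

/-- The content bound for forms without lines. -/
theorem bound_of_noline (hn : 12 ≤ n) (C : Cubic ℚ_[p] (Fin n → ℚ_[p])) {N1 : ℤ}
    (hN : ∀ u w : Fin n → ℤ_[p], LinearIndependent (ZMod p) ![red u, red w] →
      (p : ℝ) ^ (-N1) ≤ pairNorm C (cv u) (cv w))
    (M : Matrix (Fin n) (Fin n) ℚ_[p]) (c : ℤ) (hM : M.det ≠ 0) (hc : Content C M c) :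
    n * c ≤ 3 * M.det.valuation + n * N1 := by
  classical
  have hp0 : (0 : ℝ) < p := by exact_mod_cast hp.out.pos
  have hp1 : (1 : ℝ) < p := by exact_mod_cast hp.out.one_lt
  obtain ⟨e, a, hind, hlat, hsum⟩ := exists_smith M hM
  -- valuations of the coefficients
  have estG : ∀ i, ‖C.G (cv (e i))‖ ≤ (p : ℝ) ^ (3 * a i - c) := by
    intro i
    obtain ⟨x, hx⟩ := hlat i
    have h1 := (hc x 0 0).1
    rw [hx, C.G_smul, norm_mul, norm_pow, Padic.norm_p_zpow] at h1
    calc ‖C.G (cv (e i))‖ = (p : ℝ) ^ (3 * a i) * (((p : ℝ) ^ (-a i)) ^ 3 * ‖C.G (cv (e i))‖) := by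
          rw [← mul_assoc, ← zpow_natCast, ← zpow_mul, ← zpow_add₀ hp0.ne']
          simp [mul_comm]
      _ ≤ (p : ℝ) ^ (3 * a i) * (p : ℝ) ^ (-c) := by gcongr
      _ = _ := by rw [← zpow_add₀ hp0.ne']; rfl
  have estD : ∀ i j, ‖C.D (cv (e i)) (cv (e j))‖ ≤ (p : ℝ) ^ (2 * a i + a j - c) := by
    intro i j
    obtain ⟨x, hx⟩ := hlat i
    obtain ⟨y, hy⟩ := hlat j
    have h1 := (hc x y 0).2.1
    rw [hx, hy, C.D_smul_left, C.D_smul_right, norm_mul, norm_mul, norm_pow,
      Padic.norm_p_zpow, Padic.norm_p_zpow] at h1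
    calc ‖C.D (cv (e i)) (cv (e j))‖ = (p : ℝ) ^ (2 * a i + a j) *
          (((p : ℝ) ^ (-a i)) ^ 2 * ((p : ℝ) ^ (-a j) * ‖C.D (cv (e i)) (cv (e j))‖)) := by
          rw [← mul_assoc, ← mul_assoc, ← zpow_natCast, ← zpow_mul, ← zpow_add₀ hp0.ne',
            ← zpow_add₀ hp0.ne']
          rw [show 2 * a i + a j + -a i * ((2 : ℕ) : ℤ) + -a j = 0 by push_cast; ring]
          simp
      _ ≤ (p : ℝ) ^ (2 * a i + a j) * (p : ℝ) ^ (-c) := by gcongr
      _ = _ := by rw [← zpow_add₀ hp0.ne']; rfl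
  have estT : ∀ i j k, ‖C.T (cv (e i)) (cv (e j)) (cv (e k))‖ ≤
      (p : ℝ) ^ (a i + a j + a k - c) := by
    intro i j k
    obtain ⟨x, hx⟩ := hlat i
    obtain ⟨y, hy⟩ := hlat j
    obtain ⟨z, hz⟩ := hlat k
    have h1 := (hc x y z).2.2
    rw [hx, hy, hz, C.T_smul_left, C.T_smul_mid, C.T_smul_right, norm_mul, norm_mul, norm_mul,
      Padic.norm_p_zpow, Padic.norm_p_zpow, Padic.norm_p_zpow] at h1
    calc ‖C.T (cv (e i)) (cv (e j)) (cv (e k))‖ = (p : ℝ) ^ (a i + a j + a k) *
          ((p : ℝ) ^ (-a i) * ((p : ℝ) ^ (-a j) * ((p : ℝ) ^ (-a k) *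
            ‖C.T (cv (e i)) (cv (e j)) (cv (e k))‖))) := by
          rw [← mul_assoc, ← mul_assoc, ← mul_assoc, ← zpow_add₀ hp0.ne',
            ← zpow_add₀ hp0.ne', ← zpow_add₀ hp0.ne']
          rw [show a i + a j + a k + -a i + -a j + -a k = 0 by ring]
          simp
      _ ≤ (p : ℝ) ^ (a i + a j + a k) * (p : ℝ) ^ (-c) := by gcongr
      _ = _ := by rw [← zpow_add₀ hp0.ne']; rfl
  -- the special indices
  have : Nonempty (Fin n) := ⟨⟨0, by omega⟩⟩
  obtain ⟨j0, hj0⟩ := Finite.exists_min a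
  have hne1 : (Finset.univ.erase j0).Nonempty := by
    rw [← Finset.card_pos, Finset.card_erase_of_mem (Finset.mem_univ _), Finset.card_univ,
      Fintype.card_fin]
    omega
  obtain ⟨j1, hj1m, hj1⟩ := Finset.exists_min_image _ a hne1
  obtain ⟨j2, hj2m, hj2⟩ := Finset.exists_max_image _ a hne1
  have hj10 : j1 ≠ j0 := Finset.ne_of_mem_erase hj1m
  have hj20 : j2 ≠ j0 := Finset.ne_of_mem_erase hj2m
  have hmin : ∀ i, i ≠ j0 → a j1 ≤ a i := fun i hi => hj1 i (Finset.mem_erase.2 ⟨hi, Finset.mem_univ _⟩)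
  have hmax : ∀ i, i ≠ j0 → a i ≤ a j2 := fun i hi => hj2 i (Finset.mem_erase.2 ⟨hi, Finset.mem_univ _⟩)
  set α := a j1 with hα
  set A : ℤ := α - a j0 with hAdef
  set B : ℤ := ∑ i ∈ Finset.univ.erase j0, (a i - α) with hBdef
  have hA0 : 0 ≤ A := by have := hj0 j1; omega
  have hterm : ∀ i ∈ Finset.univ.erase j0, 0 ≤ a i - α := fun i hi => by
    have := hmin i (Finset.ne_of_mem_erase hi); omega
  have hB0 : 0 ≤ B := Finset.sum_nonneg hterm
  have hsum' : ∑ i, a i = n * α + B - A := by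
    rw [← Finset.add_sum_erase _ _ (Finset.mem_univ j0), hBdef, Finset.sum_sub_distrib,
      Finset.sum_const, Finset.card_erase_of_mem (Finset.mem_univ _), Finset.card_univ,
      Fintype.card_fin, nsmul_eq_mul, hAdef]
    push_cast [Nat.cast_sub (show 1 ≤ n by omega)]
    ring
  have hpair : ∀ i j, i ≠ j0 → j ≠ j0 → i ≠ j → (a i - α) + (a j - α) ≤ B := by
    intro i j hi hj hij
    have h1 : ({i, j} : Finset (Fin n)) ⊆ Finset.univ.erase j0 := by
      intro k hk
      simp only [Finset.mem_insert, Finset.mem_singleton] at hk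
      rcases hk with rfl | rfl <;> simp [*]
    have h2 := Finset.sum_le_sum_of_subset_of_nonneg (f := fun i => a i - α) h1
      (fun k hk _ => hterm k hk)
    rw [Finset.sum_pair hij] at h2
    exact h2
  have hdouble : ∀ i, i ≠ j0 → i ≠ j2 → (a i - α) + (a i - α) ≤ B := by
    intro i hi hi2
    have h1 := hpair i j2 hi hj20 hi2
    have h2 := hmax i hi
    omega
  have hsingle : ∀ i, i ≠ j0 → a i - α ≤ B := fun i hi =>
    Finset.single_le_sum (f := fun i => a i - α) hterm (Finset.mem_erase.2 ⟨hi, Finset.mem_univ _⟩)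
  -- first pair
  have hpos : ∀ k : ℤ, (0 : ℝ) ≤ (p : ℝ) ^ k := fun k => (zpow_pos hp0 k).le
  have mono : ∀ {k l : ℤ}, k ≤ l → (p : ℝ) ^ k ≤ (p : ℝ) ^ l := fun h =>
    (zpow_le_zpow_iff_right₀ hp1).2 h
  have first : c ≤ N1 + 3 * α := by
    have hli : LinearIndependent (ZMod p) ![red (e j1), red (e j0)] := by
      have hinj : Function.Injective ![j1, j0] := by
        intro x y hxy
        fin_cases x <;> fin_cases y
        · rfl
        · exact absurd hxy hj10
        · exact absurd hxy (Ne.symm hj10)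
        · rfl
      have h1 := hind.comp ![j1, j0] hinj
      have h2 : (fun i => red (e i)) ∘ ![j1, j0] = ![red (e j1), red (e j0)] := by
        funext x
        fin_cases x <;> rfl
      rwa [h2] at h1
    have h1 := hN _ _ hli
    have h2 : pairNorm C (cv (e j1)) (cv (e j0)) ≤ (p : ℝ) ^ (3 * α - c) := by
      unfold pairNorm
      refine max_le (max_le ?_ ?_) (max_le ?_ ?_)
      · exact (estG j1).trans (mono (by omega))
      · exact (estD j1 j0).trans (mono (by omega))
      · exact (estD j0 j1).trans (mono (by omega))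
      · exact (estG j0).trans (mono (by omega))
    have h3 := (zpow_le_zpow_iff_right₀ hp1).1 (h1.trans h2)
    omega
  by_contra hcon
  push Not at hcon
  have hn' : (12 : ℤ) ≤ n := by exact_mod_cast hn
  have hBA : B < A := by nlinarith
  -- a zero in the span of the other vectors
  set S : Finset (Fin n) := (Finset.univ.erase j0).erase j2 with hS
  have hScard : S.card = n - 2 := by
    rw [hS, Finset.card_erase_of_mem (Finset.mem_erase.2 ⟨hj20, Finset.mem_univ _⟩),
      Finset.card_erase_of_mem (Finset.mem_univ _), Finset.card_univ, Fintype.card_fin]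
    omega
  let σ : Fin (n - 2) ↪o Fin n := S.orderEmbOfFin hScard
  have hσ : ∀ k, σ k ≠ j0 ∧ σ k ≠ j2 := by
    intro k
    have h1 : σ k ∈ S := S.orderEmbOfFin_mem hScard k
    have h2 := Finset.mem_erase.1 h1
    have h3 := Finset.mem_erase.1 h2.2
    exact ⟨h3.1, h2.1⟩
  let f : (Fin (n - 2) → ℚ_[p]) →ₗ[ℚ_[p]] (Fin n → ℚ_[p]) :=
    { toFun := fun x => ∑ k, x k • cv (e (σ k))
      map_add' := fun x y => by simp [add_smul, Finset.sum_add_distrib]
      map_smul' := fun r x => by simp [Finset.smul_sum, smul_smul] }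
  obtain ⟨x, hx0, hxG⟩ := exists_padic_zero (n := n - 2) (by omega) (C.comap f)
  have hxG' : C.G (∑ k, x k • cv (e (σ k))) = 0 := hxG
  have : Nonempty (Fin (n - 2)) := ⟨⟨0, by omega⟩⟩
  obtain ⟨k0, hk0⟩ := Finite.exists_max (fun k => ‖x k‖)
  have hxk0 : x k0 ≠ 0 := by
    intro h
    apply hx0
    funext k
    have := hk0 k
    rw [h, norm_zero] at this
    exact norm_le_zero_iff.1 this
  have hle : ∀ k, ‖x k / x k0‖ ≤ 1 := fun k => by
    rw [norm_div]
    exact div_le_one_of_le₀ (hk0 k) (norm_nonneg _)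
  set x' : Fin (n - 2) → ℤ_[p] := fun k => mkI _ (hle k) with hx'
  set w : Fin n → ℤ_[p] := ∑ k, x' k • e (σ k) with hw
  have hcvsum : ∀ s : Finset (Fin (n - 2)),
      cv (∑ k ∈ s, x' k • e (σ k)) = ∑ k ∈ s, (x k / x k0) • cv (e (σ k)) := by
    intro s
    induction s using Finset.induction_on with
    | empty => simp [cv_zero]
    | insert i s hi ih =>
      rw [Finset.sum_insert hi, Finset.sum_insert hi, cv_add, ih, cv_smul]
      rfl
  have hcvw : cv w = ∑ k, (x k / x k0) • cv (e (σ k)) := hcvsum _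
  have hGw : C.G (cv w) = 0 := by
    have : cv w = (x k0)⁻¹ • ∑ k, x k • cv (e (σ k)) := by
      rw [hcvw, Finset.smul_sum]
      refine Finset.sum_congr rfl fun k _ => ?_
      rw [smul_smul, div_eq_inv_mul]
    rw [this, C.G_smul, hxG', mul_zero]
  have hredsum : ∀ s : Finset (Fin (n - 2)),
      red (∑ k ∈ s, x' k • e (σ k)) = ∑ k ∈ s, PadicInt.toZMod (x' k) • red (e (σ k)) := by
    intro s
    induction s using Finset.induction_on with
    | empty => simp [red_zero]
    | insert i s hi ih =>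
      rw [Finset.sum_insert hi, Finset.sum_insert hi, red_add, ih, red_smul]
  have hli : LinearIndependent (ZMod p) ![red (e j0), red w] := by
    rw [LinearIndependent.pair_iff]
    intro s t hst
    rw [Fintype.linearIndependent_iff] at hind
    have hcomb : ∑ i, ((if i = j0 then s else 0) +
        t * ∑ k, (if σ k = i then PadicInt.toZMod (x' k) else 0)) • red (e i) = 0 := by
      have h1 : ∀ i, ((if i = j0 then s else 0) +
          t * ∑ k, (if σ k = i then PadicInt.toZMod (x' k) else 0)) • red (e i) =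
          (if i = j0 then s • red (e i) else 0) +
          t • ∑ k, (if σ k = i then PadicInt.toZMod (x' k) • red (e i) else 0) := by
        intro i
        rw [add_smul, mul_smul, Finset.sum_smul]
        congr 1
        · split_ifs <;> simp
        · congr 1
          refine Finset.sum_congr rfl fun k _ => ?_
          split_ifs <;> simp
      simp only [h1]
      rw [Finset.sum_add_distrib, Finset.sum_ite_eq' Finset.univ j0, ← Finset.smul_sum,
        Finset.sum_comm]
      simp only [Finset.mem_univ, if_true, Finset.sum_ite_eq]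
      rw [← hst, hw, hredsum]
    have h2 := hind _ hcomb
    have h3 := h2 (σ k0)
    have h4 := h2 j0
    rw [if_neg (hσ k0).1] at h3
    have h5 : ∑ k, (if σ k = σ k0 then PadicInt.toZMod (x' k) else 0) = 1 := by
      have h6 : ∀ k, (if σ k = σ k0 then PadicInt.toZMod (x' k) else 0) =
          if k = k0 then PadicInt.toZMod (x' k) else 0 := by
        intro k
        simp only [EmbeddingLike.apply_eq_iff_eq]
      simp only [h6, Finset.sum_ite_eq', Finset.mem_univ, if_true]
      have h7 : x' k0 = 1 := by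
        apply PadicInt.ext
        rw [hx']
        simp only [coe_mkI, PadicInt.coe_one]
        exact div_self hxk0
      rw [h7, map_one]
    rw [h5, mul_one, zero_add] at h3
    rw [if_pos rfl, h3, zero_mul, add_zero] at h4
    exact ⟨h4, h3⟩
  have h8 := hN _ _ hli
  have h9 : pairNorm C (cv (e j0)) (cv w) ≤ (p : ℝ) ^ (3 * α - A + B - c) := by
    unfold pairNorm
    refine max_le (max_le ?_ ?_) (max_le ?_ ?_)
    · exact (estG j0).trans (mono (by omega))
    · rw [hcvw]
      refine norm_D_right_sum C (hpos _) hle (fun k => (estD j0 (σ k)).trans (mono ?_)) _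
      have := hsingle _ (hσ k).1
      omega
    · rw [hcvw]
      refine norm_D_left_sum C (hpos _) hle (fun k => (estD (σ k) j0).trans (mono ?_))
        (fun k l hkl => (estT (σ k) (σ l) j0).trans (mono ?_)) _
      · have := hdouble _ (hσ k).1 (hσ k).2
        omega
      · have := hpair _ _ (hσ k).1 (hσ l).1 (fun h => hkl (σ.injective h))
        omega
    · rw [hGw, norm_zero]
      exact hpos _
  have h10 := (zpow_le_zpow_iff_right₀ hp1).1 (h8.trans h9)
  nlinarith

/-- Reduction theory: a cubic form over `ℚ_p` in at least twelve variables without rational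
lines has a reduced integral model without rational lines. -/
theorem exists_reduced_cubic (hn : 12 ≤ n) (C : Cubic ℚ_[p] (Fin n → ℚ_[p])) (h : NoLineK C) :
    ∃ C' : Cubic ℤ_[p] (Fin n → ℤ_[p]), Reduced C' ∧ NoLine C' := by
  obtain ⟨N1, hN1⟩ := exists_lower_bound2 C h
  obtain ⟨M₀, c₀, hM, hc, hmax⟩ := exists_max C (n * N1) (exists_content C)
    (fun M c hM hc => bound_of_noline hn C hN1 M c hM hc)
  refine ⟨intForm C M₀ c₀ hc, reduced_of_max hM hc hmax, ?_⟩
  rintro u w huw ⟨h1, h2, h3, h4⟩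
  have hpz : (p : ℚ_[p]) ^ (-c₀) ≠ 0 := zpow_ne_zero _ (by exact_mod_cast hp.out.ne_zero)
  have key : ∀ {a : ℚ_[p]} {ha : ‖(p : ℚ_[p]) ^ (-c₀) * a‖ ≤ 1}, mkI _ ha = 0 → a = 0 := by
    intro a ha h0
    have h5 := congrArg (fun z : ℤ_[p] => (z : ℚ_[p])) h0
    simp only [coe_mkI] at h5
    exact (mul_eq_zero.1 (by simpa using h5)).resolve_left hpz
  refine h (mv M₀ u) (mv M₀ w) ?_ ⟨key h1, key h2, key h3, key h4⟩
  have h5 := indep_of_red huw
  rw [LinearIndependent.pair_iff] at h5 ⊢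
  intro s t hst
  refine h5 s t (Matrix.eq_zero_of_mulVec_eq_zero hM ?_)
  rw [Matrix.mulVec_add, Matrix.mulVec_smul, Matrix.mulVec_smul]
  exact hst

/-! ### Polynomials -/

lemma exists_tensor (F : MvPolynomial (Fin n) ℚ_[p]) (hF : F.IsHomogeneous 3) :
    ∃ a : Fin n → Fin n → Fin n → ℚ_[p], ∀ x, MvPolynomial.eval x F = (ofTensor a).G x := by
  classical
  have hm : ∀ m ∈ F.support, ∃ a : Fin n → Fin n → Fin n → ℚ_[p], ∀ x : Fin n → ℚ_[p],
      MvPolynomial.eval x (MvPolynomial.monomial m (F.coeff m)) = (ofTensor a).G x := by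
    intro m hm
    have hdeg : m.degree = 3 := by
      by_contra h
      exact (MvPolynomial.mem_support_iff.mp hm) (hF.coeff_eq_zero h)
    have hcard : Multiset.card (Finsupp.toMultiset m) = 3 := by
      rw [Finsupp.card_toMultiset]
      rw [← hdeg, Finsupp.degree_eq_sum, Finsupp.sum_fintype _ _ (fun _ => rfl)]
      rfl
    obtain ⟨i, j, k, hijk⟩ := Multiset.card_eq_three.1 hcard
    refine ⟨fun i' j' k' => if i' = i ∧ j' = j ∧ k' = k then F.coeff m else 0, fun x => ?_⟩
    rw [MvPolynomial.eval_monomial]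
    have h1 : (m.prod fun n e => x n ^ e) = x i * x j * x k := by
      have h2 := Finsupp.toMultiset_map m x
      have h3 : ((Finsupp.toMultiset m).map x).prod = m.prod fun a e => x a ^ e := by
        rw [Finsupp.toMultiset_map, Finsupp.prod_toMultiset]
        rw [Finsupp.prod_mapDomain_index (by simp) (by intros; rw [pow_add])]
      rw [← h3, hijk]
      simp [mul_assoc]
    rw [h1]
    show _ = ∑ i', ∑ j', ∑ k', _ * (x i' * x j' * x k')
    rw [Finset.sum_eq_single i, Finset.sum_eq_single j, Finset.sum_eq_single k]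
    · simp
    · intro b _ hb; simp [hb]
    · simp
    · intro b _ hb
      refine Finset.sum_eq_zero fun c _ => ?_
      simp [hb]
    · simp
    · intro b _ hb
      refine Finset.sum_eq_zero fun c _ => Finset.sum_eq_zero fun d _ => ?_
      simp [hb]
    · simp
  choose! a ha using hm
  refine ⟨fun i j k => ∑ m ∈ F.support, a m i j k, fun x => ?_⟩
  conv_lhs => rw [← MvPolynomial.support_sum_monomial_coeff F]
  rw [map_sum]
  rw [Finset.sum_congr rfl fun m hm => ha m hm x]
  show ∑ m ∈ F.support, ∑ i, ∑ j, ∑ k, a m i j k * (x i * x j * x k) =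
    ∑ i, ∑ j, ∑ k, (∑ m ∈ F.support, a m i j k) * (x i * x j * x k)
  simp only [Finset.sum_mul]
  rw [Finset.sum_comm]
  refine Finset.sum_congr rfl fun i _ => ?_
  rw [Finset.sum_comm]
  refine Finset.sum_congr rfl fun j _ => ?_
  rw [Finset.sum_comm]

/-- TASK R. -/
theorem exists_reduced (p : ℕ) [Fact p.Prime] (F : MvPolynomial (Fin 13) ℚ_[p])
    (hF : F.IsHomogeneous 3)
    (hno : ¬ ∃ u w : Fin 13 → ℚ_[p], LinearIndependent ℚ_[p] ![u, w] ∧
      ∀ s t : ℚ_[p], MvPolynomial.eval (s • u + t • w) F = 0) :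
    ∃ C : Cubic ℤ_[p] (Fin 13 → ℤ_[p]), Reduced C ∧ NoLine C := by
  obtain ⟨a, ha⟩ := exists_tensor F hF
  refine exists_reduced_cubic (by norm_num) (ofTensor a) ?_
  rintro u w huw ⟨h1, h2, h3, h4⟩
  refine hno ⟨u, w, huw, fun s t => ?_⟩
  rw [ha, Cubic.G_lin, h1, h2, h3, h4]
  ring

end Pool.Agent.LibCubicLines
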