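import Pool.Agent.LibCubicLines.NoHyper

/-!
A cubic form over a finite field vanishing on no subspace of codimension at most four, with vertex
of codimension at least seven, and with a singular rational point outside the vertex, has a
smooth line.
-/

namespace Pool.Agent.LibCubicLines

open Module

namespace Cubic

variable {K V : Type*} [Field K] [AddCommGroup V] [Module K V] (C : Cubic K V)

/-- zeros of the polar quadric of `e` and of the form at which the intersection is smooth -/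
def SType (e m : V) : Prop :=
  C.G m = 0 ∧ C.D m e = 0 ∧ ∀ τ : K, ∃ v, C.D m v + τ * C.T e m v ≠ 0

lemma exists_dual {ℓ₁ ℓ₂ : V →ₗ[K] K} (h1 : ∃ x, ℓ₁ x ≠ 0)
    (h2 : ∀ τ : K, ∃ v, ℓ₂ v + τ * ℓ₁ v ≠ 0) :
    ∃ f₁ f₂, ℓ₁ f₁ = 1 ∧ ℓ₂ f₁ = 0 ∧ ℓ₁ f₂ = 0 ∧ ℓ₂ f₂ = 1 := by
  obtain ⟨v₁, e1⟩ : ∃ v₁, ℓ₁ v₁ = 1 := by
    obtain ⟨x, hx⟩ := h1
    exact ⟨(ℓ₁ x)⁻¹ • x, by rw [map_smul, smul_eq_mul, inv_mul_cancel₀ hx]⟩
  obtain ⟨v₂, hv₂⟩ := h2 (-ℓ₂ v₁)
  obtain ⟨f₂, e3, e4⟩ : ∃ f₂, ℓ₁ f₂ = 0 ∧ ℓ₂ f₂ = 1 := by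
    obtain ⟨g, g1, g2⟩ : ∃ g, ℓ₁ g = 0 ∧ ℓ₂ g ≠ 0 := by
      refine ⟨v₂ - ℓ₁ v₂ • v₁, ?_, ?_⟩
      · rw [map_sub, map_smul, e1]; simp
      · rw [map_sub, map_smul, smul_eq_mul]
        intro h; apply hv₂; rw [← h]; ring
    refine ⟨(ℓ₂ g)⁻¹ • g, ?_, ?_⟩
    · rw [map_smul, g1, smul_zero]
    · rw [map_smul, smul_eq_mul, inv_mul_cancel₀ g2]
  refine ⟨v₁ - ℓ₂ v₁ • f₂, f₂, ?_, ?_, e3, e4⟩
  · rw [map_sub, map_smul, e1, e3]; simp
  · rw [map_sub, map_smul, e4]; simp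

/-- a polar quadric vanishing on a codimension two subspace -/
lemma exists_decomp {e : V} (he : C.Sing e) {ℓ₁ ℓ₂ : V →ₗ[K] K} {f₁ f₂ : V}
    (h11 : ℓ₁ f₁ = 1) (h21 : ℓ₂ f₁ = 0) (h12 : ℓ₁ f₂ = 0) (h22 : ℓ₂ f₂ = 1)
    (he1 : ℓ₁ e = 0) (he2 : ℓ₂ e = 0)
    (hvan : ∀ y, ℓ₁ y = 0 → ℓ₂ y = 0 → C.D y e = 0) :
    ∃ a b : V →ₗ[K] K, (∀ y, C.D y e = ℓ₁ y * a y + ℓ₂ y * b y) ∧ a e = 0 ∧ b e = 0 := by
  let a : V →ₗ[K] K :=
    { toFun := fun y => C.T f₁ y e - ℓ₁ y * C.D f₁ e - ℓ₂ y * C.T f₁ f₂ e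
      map_add' := fun x y => by rw [C.T_add_mid, map_add, map_add]; ring
      map_smul' := fun c x => by rw [C.T_smul_mid, map_smul, map_smul]; simp; ring }
  let b : V →ₗ[K] K :=
    { toFun := fun y => C.T f₂ y e - ℓ₂ y * C.D f₂ e
      map_add' := fun x y => by rw [C.T_add_mid, map_add]; ring
      map_smul' := fun c x => by rw [C.T_smul_mid, map_smul]; simp; ring }
  have ha : ∀ y, a y = C.T f₁ y e - ℓ₁ y * C.D f₁ e - ℓ₂ y * C.T f₁ f₂ e := fun _ => rfl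
  have hb : ∀ y, b y = C.T f₂ y e - ℓ₂ y * C.D f₂ e := fun _ => rfl
  refine ⟨a, b, fun y => ?_, ?_, ?_⟩
  · set y₀ := y - ℓ₁ y • f₁ - ℓ₂ y • f₂ with hy₀
    have hy : y = y₀ + (ℓ₁ y • f₁ + ℓ₂ y • f₂) := by rw [hy₀]; abel
    have h0 : C.D y₀ e = 0 := by
      apply hvan
      · rw [hy₀]; simp [h11, h12]
      · rw [hy₀]; simp [h21, h22]
    have hT1 : C.T f₁ y e = C.T f₁ y₀ e + ℓ₁ y * (2 * C.D f₁ e) + ℓ₂ y * C.T f₁ f₂ e := by
      conv_lhs => rw [hy]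
      rw [C.T_add_mid, C.T_add_mid, C.T_smul_mid, C.T_smul_mid, C.T_self]; ring
    have hT2 : C.T f₂ y e = C.T f₂ y₀ e + ℓ₁ y * C.T f₁ f₂ e + ℓ₂ y * (2 * C.D f₂ e) := by
      conv_lhs => rw [hy]
      rw [C.T_add_mid, C.T_add_mid, C.T_smul_mid, C.T_smul_mid, C.T_self, C.T_swap12 f₂ f₁]; ring
    rw [ha, hb, hT1, hT2]
    conv_lhs => rw [hy]
    rw [C.D_add_left, C.D_add_left, h0, C.D_smul_left, C.D_smul_left, C.T_smul_left, C.T_smul_mid,
      C.T_add_mid, C.T_smul_mid, C.T_smul_mid, C.T_swap12 y₀ f₁, C.T_swap12 y₀ f₂]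
    ring
  · rw [ha, he.T_self', he1, he2]; ring
  · rw [hb, he.T_self', he2]; ring

section main

variable {C}

lemma Sing.sup {e : V} (he : C.Sing e) {m : V} (hm : m ∈ C.vert ⊔ (K ∙ e)) : C.Sing m := by
  obtain ⟨r, hr, x, hx, rfl⟩ := Submodule.mem_sup.1 hm
  obtain ⟨c, rfl⟩ := Submodule.mem_span_singleton.1 hx
  have hr' : C.Sing r := ⟨hr.1, fun x => (hr.2 x).1⟩
  refine hr'.add (he.smul c) (fun x => ?_)
  rw [C.T_swap12, C.T_swap23, C.T_eq, (hr.2 _).2, (hr.2 _).2, (hr.2 _).2]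
  ring

variable [Fintype K] [FiniteDimensional K V]
  (h5 : ∀ W : Submodule K V, finrank K V ≤ finrank K W + 4 → ¬ C.VanishOn W)
  (hno : ¬ ∃ u w, C.IsSmoothLine u w) {e : V} (he : C.Sing e) (heR : e ∉ C.vert)

include h5 hno he heR

lemma exists_T_ne {m : V} (hGm : C.G m = 0) (hme : C.D m e = 0) (hmB : m ∉ C.vert ⊔ (K ∙ e)) :
    ∃ x, C.T e m x ≠ 0 := by
  by_contra hcon
  push Not at hcon
  by_cases hD : ∃ v, C.D m v ≠ 0
  · obtain ⟨v, hv⟩ := hD
    obtain ⟨y, hy1, hy2⟩ := C.exists_polar_ne h5 hno he heR (C.DL m)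
    exact hno (C.line_T3 (v := v) he hGm hme hy2 (hcon y) hy1 (by rw [hcon v]; simpa using hv))
  · push Not at hD
    have hm : C.Sing m := ⟨hGm, hD⟩
    apply heR
    refine ⟨he.1, fun y => ⟨he.2 y, ?_⟩⟩
    by_contra hy
    set c := C.D y m / C.D y e with hc
    have h2 : C.Sing (m + (-c) • e) :=
      hm.add (he.smul _) (fun x => by rw [C.T_smul_mid, C.T_swap12, hcon]; ring)
    have h2R : m + (-c) • e ∉ C.vert := by
      intro h
      apply hmB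
      have : m = (m + (-c) • e) + c • e := by rw [neg_smul]; abel
      rw [this]
      exact Submodule.add_mem_sup h (Submodule.smul_mem _ _ (Submodule.mem_span_singleton_self e))
    have h2y : C.D y (m + (-c) • e) = 0 := by
      rw [C.D_add_right, C.D_smul_right, hc]
      field_simp
      ring
    obtain ⟨y', hy'1, hy'2⟩ := C.exists_polar_ne h5 hno h2 h2R (C.TL y (m + (-c) • e))
    refine hno (C.line_pencil (e₁ := e) (e₂ := m + (-c) • e) (y := y) (y' := y') he h2 ?_ hy h2y ?_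
      hy'2)
    · intro x
      rw [C.T_add_mid, hcon, C.T_smul_mid, C.T_self, he.2]; ring
    · rw [C.T_swap23]; exact hy'1

lemma SType.S1 {m y : V} (hm : C.SType e m) (h1 : C.T e m y = 0) (h2 : C.D m y = 0) :
    C.D y e = 0 := by
  by_contra hy
  obtain ⟨v, hv⟩ := hm.2.2 (-(C.D y m) / C.D y e)
  exact hno (C.line_T3 (v := v) he hm.1 hm.2.1 hy h1 h2 hv)

lemma SType.S2 {m m' : V} (hm : C.SType e m) (hm' : C.SType e m') : C.T m m' e = 0 := by
  by_contra hc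
  exact hno (C.line_T1 he hm.1 hm.2.1 hm'.1 hm'.2.1 hc hm.2.2 hm'.2.2)

lemma exists_sing_of_not_SType {m : V} (hGm : C.G m = 0) (hme : C.D m e = 0)
    (hmB : m ∉ C.vert ⊔ (K ∙ e)) (hm : ¬ C.SType e m) :
    ∃ τ : K, C.Sing (m + τ • e) ∧ m + τ • e ∉ C.vert := by
  have h1 : ∃ τ : K, ∀ v, C.D m v + τ * C.T e m v = 0 := by
    by_contra h
    push Not at h
    exact hm ⟨hGm, hme, h⟩
  obtain ⟨τ, hτ⟩ := h1
  refine ⟨τ, ⟨?_, fun x => ?_⟩, ?_⟩
  · rw [C.G_add, hGm, C.D_smul_right, hme, C.D_smul_left, he.2, C.G_smul, he.1]; ring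
  · rw [C.D_add_left, C.D_smul_left, he.2, C.T_smul_mid, C.T_swap12]
    have := hτ x
    linear_combination this
  · intro h
    apply hmB
    have : m = (m + τ • e) + (-τ) • e := by rw [neg_smul]; abel
    rw [this]
    exact Submodule.add_mem_sup h (Submodule.smul_mem _ _ (Submodule.mem_span_singleton_self e))

/-- a second singular point produces smooth points of the intersection -/
lemma SType_of_sing {e₂ w : V} (h2 : C.Sing e₂) (hT : ∃ x, C.T e e₂ x ≠ 0)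
    (hw1 : C.T e e₂ w = 0) (hw2 : C.D w e₂ ≠ 0) : C.SType e (w + (-(C.G w) / C.D w e₂) • e₂) := by
  have hwe : C.D w e = 0 := by
    by_contra h
    obtain ⟨v, hv⟩ := hT
    exact hno (C.line_pair he h2 hw1 hv h hw2)
  set s := -(C.G w) / C.D w e₂ with hs
  have t1 : C.T w e₂ e = 0 := by rw [C.T_swap23, C.T_swap12, C.T_swap23]; exact hw1
  refine ⟨?_, ?_, ?_⟩
  · rw [C.G_add, C.D_smul_right, C.D_smul_left, h2.2, C.G_smul, h2.1, hs]
    field_simp
    ring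
  · rw [C.D_add_left, hwe, C.D_smul_left, h2.2, C.T_smul_mid, t1]; ring
  · intro τ
    refine ⟨e₂, ?_⟩
    rw [C.D_add_left, C.D_smul_left, h2.2, C.T_smul_mid, h2.T_self', C.T_add_mid, C.T_smul_mid,
      h2.T_self', C.T_swap23 e w, hw1]
    simpa using hw2

lemma exists_SType {m : V} (hGm : C.G m = 0) (hme : C.D m e = 0)
    (hmB : m ∉ C.vert ⊔ (K ∙ e)) : ∃ m', C.SType e m' := by
  by_cases hm : C.SType e m
  · exact ⟨m, hm⟩
  · obtain ⟨τ, h2, h2R⟩ := exists_sing_of_not_SType h5 hno he heR hGm hme hmB hm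
    obtain ⟨x, hx⟩ := exists_T_ne h5 hno he heR hGm hme hmB
    obtain ⟨w, hw1, hw2⟩ := C.exists_polar_ne h5 hno h2 h2R (C.TL e (m + τ • e))
    refine ⟨_, SType_of_sing h5 hno he heR h2 ⟨x, ?_⟩ hw1 hw2⟩
    rw [C.T_add_mid, C.T_smul_mid, C.T_self, he.2]
    simpa using hx

lemma SType.D_eq_zero {m r : V} (hm : C.SType e m) (hr1 : ∀ y, C.T e r y = 0)
    (hr2 : C.D r e = 0) : C.D m r = 0 := by
  by_contra hne
  obtain ⟨y, hy1, hy2⟩ := C.exists_polar_ne h5 hno he heR (C.TL e m)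
  change C.T e m y = 0 at hy1
  set c := -(C.D m y) / C.D m r with hc
  have h1 : C.D (y + c • r) e = 0 := by
    refine SType.S1 h5 hno he heR hm ?_ ?_
    · rw [C.T_add_right, C.T_smul_right, hy1, C.T_swap23, hr1]; ring
    · rw [C.D_add_right, C.D_smul_right, hc]
      field_simp
      ring
  rw [C.D_add_left, C.D_smul_left, hr2, C.T_smul_mid, C.T_swap23, C.T_swap12, C.T_swap23,
    hr1] at h1
  apply hy2
  simpa using h1

/-- the main geometric step -/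
theorem false_of_sing (hdim : finrank K C.vert + 7 ≤ finrank K V) : False := by
  set B : Submodule K V := C.vert ⊔ (K ∙ e) with hB
  have hBdim : finrank K B ≤ finrank K C.vert + 1 := by
    have h1 := Submodule.finrank_add_le_finrank_add_finrank C.vert (K ∙ e)
    have he0 : e ≠ 0 := by
      rintro rfl
      exact heR (Submodule.zero_mem _)
    have h2 : finrank K (K ∙ e) = 1 := finrank_span_singleton he0
    rw [hB]
    omega
  have htop : finrank K (⊤ : Submodule K V) = finrank K V := finrank_top K V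
  have hnot : ∀ {W : Submodule K V} {x : V}, Disjoint W B → x ∈ W → x ≠ 0 → x ∉ B :=
    fun hd hx h0 hxB => h0 (Submodule.disjoint_def.1 hd _ hx hxB)
  -- a smooth point
  have hS : ∃ m, C.SType e m := by
    obtain ⟨W, -, hW1, hW2⟩ := exists_disjoint_sub (⊤ : Submodule K V) B ⊥ disjoint_bot_left
    obtain ⟨x, hx, hx0, hxe, hGx⟩ := C.exists_pair_zero e (W ⊓ ⊤) (by omega)
    exact exists_SType h5 hno he heR hGx hxe (hnot hW1 hx hx0)
  obtain ⟨m₀, hm₀⟩ := hS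
  have hTsymm : ∀ x y, C.T e x y = C.T x y e := fun x y => by rw [C.T_swap12, C.T_swap23]
  -- a decomposition with all smooth points on one side
  have hdec : ∃ l₁ l₂ a b : V →ₗ[K] K, (∀ y, C.D y e = l₁ y * a y + l₂ y * b y) ∧
      l₁ e = 0 ∧ l₂ e = 0 ∧ a e = 0 ∧ b e = 0 ∧ ∀ m, C.SType e m → l₁ m = 0 ∧ l₂ m = 0 := by
    have hex : ∃ x, C.TL e m₀ x ≠ 0 := by
      by_contra h
      push Not at h
      obtain ⟨y, hy1, hy2⟩ := C.exists_polar_ne h5 hno he heR (C.DL m₀)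
      exact hy2 (SType.S1 h5 hno he heR hm₀ (h y) hy1)
    obtain ⟨f₁, f₂, h11, h21, h12, h22⟩ := exists_dual (ℓ₁ := C.TL e m₀) (ℓ₂ := C.DL m₀) hex
      hm₀.2.2
    have he1 : C.TL e m₀ e = 0 := by
      rw [TL_apply, he.T_self'']
    have he2 : C.DL m₀ e = 0 := hm₀.2.1
    obtain ⟨a, b, hQ, hae, hbe⟩ := C.exists_decomp he h11 h21 h12 h22 he1 he2
      (fun y hy1 hy2 => SType.S1 h5 hno he heR hm₀ hy1 hy2)
    have hT : ∀ x y, C.T x y e = (C.TL e m₀ x * a y + a x * C.TL e m₀ y) +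
        (C.DL m₀ x * b y + b x * C.DL m₀ y) := by
      intro x y
      rw [C.T_eq, hQ, hQ, hQ]
      simp only [map_add]
      ring
    have hS1 : ∀ m, C.SType e m → C.TL e m₀ m = 0 := by
      intro m hm
      rw [TL_apply, hTsymm]
      exact SType.S2 h5 hno he heR hm₀ hm
    by_cases hall : ∀ m, C.SType e m → C.DL m₀ m = 0
    · exact ⟨C.TL e m₀, C.DL m₀, a, b, hQ, he1, he2, hae, hbe, fun m hm => ⟨hS1 m hm, hall m hm⟩⟩
    · push Not at hall
      obtain ⟨m₁, hm₁, hne⟩ := hall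
      refine ⟨C.TL e m₀, b, a, C.DL m₀, fun y => by rw [hQ]; ring, he1, hbe, hae, he2,
        fun m hm => ⟨hS1 m hm, ?_⟩⟩
      have h1 : b m₁ = 0 := by
        have h2 := hm₁.2.1
        rw [hQ, hS1 _ hm₁, zero_mul, zero_add] at h2
        exact (mul_eq_zero.1 h2).resolve_left hne
      have h3 := SType.S2 h5 hno he heR hm₁ hm
      rw [hT, hS1 _ hm₁, hS1 _ hm, h1, zero_mul, mul_zero, zero_mul, zero_add, zero_add,
        add_zero] at h3
      exact (mul_eq_zero.1 h3).resolve_left hne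
  obtain ⟨l₁, l₂, a, b, hQ, hl₁e, hl₂e, hae, hbe, hSl⟩ := hdec
  have hT : ∀ x y, C.T x y e = (l₁ x * a y + a x * l₁ y) + (l₂ x * b y + b x * l₂ y) := by
    intro x y
    rw [C.T_eq, hQ, hQ, hQ]
    simp only [map_add]
    ring
  -- a singular point in the opposite plane
  have hopp : ∃ e₂, C.Sing e₂ ∧ e₂ ∉ C.vert ∧ a e₂ = 0 ∧ b e₂ = 0 ∧ (∃ x, C.T e e₂ x ≠ 0) := by
    have h1 := finrank_le_ker a (⊤ : Submodule K V)
    have h2 := finrank_le_ker b (⊤ ⊓ LinearMap.ker a)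
    obtain ⟨W, -, hW1, hW2⟩ := exists_disjoint_sub (⊤ ⊓ LinearMap.ker a ⊓ LinearMap.ker b) B ⊥
      disjoint_bot_left
    obtain ⟨x, hx, hx0, hGx⟩ := C.exists_zero (W ⊓ (⊤ ⊓ LinearMap.ker a ⊓ LinearMap.ker b))
      (by omega)
    have hax : a x = 0 := hx.2.1.2
    have hbx : b x = 0 := hx.2.2
    have hxe : C.D x e = 0 := by rw [hQ, hax, hbx]; ring
    have hxB := hnot hW1 hx hx0
    obtain ⟨y, hy⟩ := exists_T_ne h5 hno he heR hGx hxe hxB
    have hnS : ¬ C.SType e x := by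
      intro h
      obtain ⟨h3, h4⟩ := hSl x h
      apply hy
      rw [hTsymm, hT, h3, h4, hax, hbx]; ring
    obtain ⟨τ, h6, h7⟩ := exists_sing_of_not_SType h5 hno he heR hGx hxe hxB hnS
    refine ⟨x + τ • e, h6, h7, ?_, ?_, y, ?_⟩
    · rw [map_add, map_smul, hax, hae]; simp
    · rw [map_add, map_smul, hbx, hbe]; simp
    · rw [C.T_add_mid, C.T_smul_mid, C.T_self, he.2]
      simpa using hy
  obtain ⟨e₂, h₂, h₂R, hae₂, hbe₂, hT₂⟩ := hopp
  have hTe₂ : ∀ y, C.T e e₂ y = l₁ e₂ * a y + l₂ e₂ * b y := by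
    intro y
    rw [hTsymm, hT, hae₂, hbe₂]; ring
  have hc : l₁ e₂ ≠ 0 ∨ l₂ e₂ ≠ 0 := by
    by_contra h
    push Not at h
    obtain ⟨x, hx⟩ := hT₂
    apply hx
    rw [hTe₂, h.1, h.2]; ring
  -- values of the second quadric off a subspace
  have hP : ∀ w, C.T e e₂ w = 0 → C.D w e₂ ≠ 0 → C.SType e (w + (-(C.G w) / C.D w e₂) • e₂) :=
    fun w hw1 hw2 => SType_of_sing h5 hno he heR h₂ hT₂ hw1 hw2
  have hlam : ∀ w, C.T e e₂ w = 0 → l₂ e₂ * l₁ w - l₁ e₂ * l₂ w ≠ 0 → C.D w e₂ = 0 := by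
    intro w hw1 hw2
    by_contra hw3
    obtain ⟨h6, h7⟩ := hSl _ (hP w hw1 hw3)
    rw [map_add, map_smul, smul_eq_mul] at h6 h7
    apply hw2
    linear_combination l₂ e₂ * h6 - l₁ e₂ * h7
  obtain ⟨z, hz1, hz2⟩ := C.exists_polar_ne h5 hno he heR (C.TL e e₂)
  change C.T e e₂ z = 0 at hz1
  have hzlam : l₂ e₂ * l₁ z - l₁ e₂ * l₂ z ≠ 0 := by
    intro h
    have h1 := hz1
    rw [hTe₂] at h1
    have h3 := hQ z
    rcases hc with h4 | h4
    · have : l₁ e₂ * C.D z e = 0 := by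
        rw [h3]
        linear_combination l₁ z * h1 - b z * h
      exact (mul_ne_zero h4 hz2) this
    · have : l₂ e₂ * C.D z e = 0 := by
        rw [h3]
        linear_combination l₂ z * h1 + a z * h
      exact (mul_ne_zero h4 hz2) this
  have hzD : C.D z e₂ = 0 := hlam z hz1 hzlam
  -- additivity
  have hadd : ∀ (t : K) w, t ≠ 0 → C.T e e₂ w = 0 → l₂ e₂ * l₁ w - l₁ e₂ * l₂ w = 0 →
      C.D w e₂ = - (t * C.T z w e₂) := by
    intro t w ht hw1 hw2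
    have h1 : C.D (w + t • z) e₂ = 0 := by
      apply hlam
      · rw [C.T_add_right, C.T_smul_right, hw1, hz1]; ring
      · simp only [map_add, map_smul, smul_eq_mul]
        intro h
        apply mul_ne_zero ht hzlam
        linear_combination h - hw2
    rw [C.D_add_left, C.D_smul_left, hzD, C.T_smul_mid, C.T_swap12 w z] at h1
    linear_combination h1
  obtain ⟨w₀, hw₀1, hw₀2⟩ := C.exists_polar_ne h5 hno h₂ h₂R (C.TL e e₂)
  change C.T e e₂ w₀ = 0 at hw₀1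
  have hw₀3 : l₂ e₂ * l₁ w₀ - l₁ e₂ * l₂ w₀ = 0 := by
    by_contra h
    exact hw₀2 (hlam _ hw₀1 h)
  have htwo : (2 : K) = 0 := by
    by_contra h2
    have h1 := hadd 1 w₀ one_ne_zero hw₀1 hw₀3
    have h3 := hadd 2 w₀ h2 hw₀1 hw₀3
    apply hw₀2
    linear_combination 2 * h1 - h3
  -- a smooth point on which everything is nonzero
  have hee₂ : C.T e e₂ e₂ = 0 := h₂.T_self' e
  obtain ⟨w, hwS, hwT, hwD⟩ : ∃ w, C.SType e w ∧ C.T e e₂ w = 0 ∧ C.D w e₂ ≠ 0 := by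
    refine ⟨_, hP w₀ hw₀1 hw₀2, ?_, ?_⟩
    · rw [C.T_add_right, C.T_smul_right, hw₀1, hee₂]; ring
    · rw [C.D_add_left, C.D_smul_left, h₂.2, C.T_smul_mid, h₂.T_self']
      simpa using hw₀2
  obtain ⟨hl₁w, hl₂w⟩ := hSl w hwS
  have hplane : ∀ v, C.T e e₂ v = 0 → C.D v e₂ ≠ 0 → l₁ v = 0 → l₂ v = 0 → C.SType e v := by
    intro v hv1 hv2 hv3 hv4
    have h1 := hP v hv1 hv2
    obtain ⟨h6, h7⟩ := hSl _ h1
    rw [map_add, map_smul, smul_eq_mul, hv3, zero_add] at h6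
    rw [map_add, map_smul, smul_eq_mul, hv4, zero_add] at h7
    have h8 : -(C.G v) / C.D v e₂ = 0 := by
      rcases hc with h | h
      · exact (mul_eq_zero.1 h6).resolve_right h
      · exact (mul_eq_zero.1 h7).resolve_right h
    rw [h8, zero_smul, add_zero] at h1
    exact h1
  -- the radical
  set N : Submodule K V := ⊤ ⊓ LinearMap.ker l₁ ⊓ LinearMap.ker l₂ ⊓ LinearMap.ker a ⊓
    LinearMap.ker b with hN
  have hNdim : finrank K V ≤ finrank K N + 4 := by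
    have h1 := finrank_le_ker l₁ (⊤ : Submodule K V)
    have h2 := finrank_le_ker l₂ (⊤ ⊓ LinearMap.ker l₁)
    have h3 := finrank_le_ker a (⊤ ⊓ LinearMap.ker l₁ ⊓ LinearMap.ker l₂)
    have h4 := finrank_le_ker b (⊤ ⊓ LinearMap.ker l₁ ⊓ LinearMap.ker l₂ ⊓ LinearMap.ker a)
    rw [hN]
    omega
  obtain ⟨W, -, hW1, hW2⟩ := exists_disjoint_sub N B ⊥ disjoint_bot_left
  have hex : ∃ r ∈ W ⊓ N, r ≠ 0 := by
    by_contra h
    push Not at h
    have h1 : W ⊓ N = ⊥ := (Submodule.eq_bot_iff _).2 h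
    rw [h1, finrank_bot] at hW2
    omega
  obtain ⟨r, hr, hr0⟩ := hex
  have hrB := hnot hW1 hr hr0
  have hr1 : l₁ r = 0 := hr.2.1.1.1.2
  have hr2 : l₂ r = 0 := hr.2.1.1.2
  have hr3 : a r = 0 := hr.2.1.2
  have hr4 : b r = 0 := hr.2.2
  have hrQ : C.D r e = 0 := by rw [hQ, hr1, hr2]; ring
  have hrT : ∀ y, C.T e r y = 0 := fun y => by
    rw [hTsymm, hT, hr1, hr2, hr3, hr4]; ring
  have hrT₂ : C.T e e₂ r = 0 := by rw [C.T_swap23]; exact hrT e₂
  have hGrne : C.G r ≠ 0 := by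
    intro h
    obtain ⟨y, hy⟩ := exists_T_ne h5 hno he heR h hrQ hrB
    exact hy (hrT y)
  have hrD₂ : C.D r e₂ = 0 := by
    by_contra h
    exact hGrne (hplane r hrT₂ h hr1 hr2).1
  have hwr : C.SType e (w + r) := by
    apply hplane
    · rw [C.T_add_right, hwT, hrT₂]; ring
    · have h1 := hadd 1 (w + r) one_ne_zero (by rw [C.T_add_right, hwT, hrT₂]; ring)
        (by rw [map_add, map_add, hl₁w, hl₂w, hr1, hr2]; ring)
      have h2 := hadd 1 w one_ne_zero hwT (by rw [hl₁w, hl₂w]; ring)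
      have h3 := hadd 1 r one_ne_zero hrT₂ (by rw [hr1, hr2]; ring)
      rw [C.T_add_mid] at h1
      have h4 : C.D (w + r) e₂ = C.D w e₂ := by
        linear_combination h1 - h2 - h3 + hrD₂
      rw [h4]; exact hwD
    · rw [map_add, hl₁w, hr1, add_zero]
    · rw [map_add, hl₂w, hr2, add_zero]
  have h8 := SType.D_eq_zero h5 hno he heR hwr hrT hrQ
  have h9 := SType.D_eq_zero h5 hno he heR hwS hrT hrQ
  rw [C.D_add_left, h9, C.D_self, C.T_swap12, C.T_swap23, C.T_self] at h8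
  apply hGrne
  linear_combination h8 - (C.G r + C.D r w) * htwo

end main

end Cubic

end Pool.Agent.LibCubicLines
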