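import Pool.Agent.LibCubicLines.FiniteBasic

/-!
Constructions of smooth lines on cubic hypersurfaces with a singular rational point.
-/

namespace Pool.Agent.LibCubicLines

open Module

namespace Cubic

variable {K V : Type*} [Field K] [AddCommGroup V] [Module K V] (C : Cubic K V)

/-- singular zero -/
def Sing (e : V) : Prop := C.G e = 0 ∧ ∀ x, C.D e x = 0

variable {C}

lemma Sing.T_self' {e : V} (he : C.Sing e) (x : V) : C.T x e e = 0 := by
  rw [C.T_swap12, C.T_swap23, C.T_self, he.2, mul_zero]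

lemma Sing.T_self'' {e : V} (he : C.Sing e) (x : V) : C.T e x e = 0 := by
  rw [C.T_swap12, he.T_self']

lemma Sing.smul {e : V} (he : C.Sing e) (a : K) : C.Sing (a • e) :=
  ⟨by rw [C.G_smul, he.1, mul_zero], fun x => by rw [C.D_smul_left, he.2, mul_zero]⟩

/-- sum of orthogonal singular vectors -/
lemma Sing.add {e e' : V} (he : C.Sing e) (he' : C.Sing e') (h : ∀ x, C.T e e' x = 0) :
    C.Sing (e + e') :=
  ⟨by rw [C.G_add, he.1, he'.1, he.2, he'.2]; ring,
   fun x => by rw [C.D_add_left, he.2, he'.2, h]; ring⟩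

variable (C)

lemma smooth_of_dir {u w e v : V} (hl : C.IsLine u w) (h1 : C.D u e = 0) (h2 : C.T u w e = 0)
    (h3 : C.D w e ≠ 0) (h4 : C.D u v ≠ 0) : C.IsSmoothLine u w := by
  refine ⟨hl, fun a b c d => ?_⟩
  set α := C.D u v with hα
  set κ := C.D w e with hκ
  set γ := C.T u w v with hγ
  set β := C.D w v with hβ
  set η₂ := a / α with hη₂
  set δ₂ := (b - η₂ * γ) / α with hδ₂
  set η₁ := (c - η₂ * β - δ₂ * γ) / κ with hη₁
  set δ₁ := (d - δ₂ * β) / κ with hδ₁
  refine ⟨η₁ • e + η₂ • v, δ₁ • e + δ₂ • v, ?_, ?_, ?_, ?_⟩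
  · rw [C.D_add_right, C.D_smul_right, C.D_smul_right, h1, ← hα, hη₂]
    field_simp
    ring
  · rw [C.T_add_right, C.T_smul_right, C.T_smul_right, C.D_add_right, C.D_smul_right,
      C.D_smul_right, h1, h2, ← hα, ← hγ]
    rw [hδ₂]
    field_simp
    ring
  · rw [C.T_add_right, C.T_smul_right, C.T_smul_right, C.D_add_right, C.D_smul_right,
      C.D_smul_right, h2, ← hκ, ← hβ, ← hγ]
    rw [hη₁]
    field_simp
    ring
  · rw [C.D_add_right, C.D_smul_right, C.D_smul_right, ← hκ, ← hβ, hδ₁]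
    field_simp
    ring

/-- T3 lines -/
theorem line_T3 {e m y v : V} (he : C.Sing e) (hm : C.G m = 0) (hme : C.D m e = 0)
    (hy : C.D y e ≠ 0) (h1 : C.T e m y = 0) (h2 : C.D m y = 0)
    (hv : C.D m v + (-(C.D y m) / C.D y e) * C.T e m v ≠ 0) :
    ∃ u w, C.IsSmoothLine u w := by
  set τ := -(C.D y m) / C.D y e with hτ
  set σ := -(C.G y) / C.D y e with hσ
  have hmee : C.T m e e = 0 := he.T_self' m
  have hyee : C.T y e e = 0 := he.T_self' y
  have heee : C.T e e e = 0 := he.T_self' e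
  have hmey : C.T m e y = 0 := by rw [C.T_swap12]; exact h1
  have hyem : C.T y e m = 0 := by rw [C.T_swap12, C.T_swap23, h1]
  have hmye : C.T m y e = 0 := by rw [C.T_swap23]; exact hmey
  have heye : C.T e y e = 0 := he.T_self'' y
  have hL : C.IsLine (m + τ • e) (y + σ • e) := by
    refine ⟨?_, ?_, ?_, ?_⟩
    · rw [C.G_add, hm, C.D_smul_right, hme, C.D_smul_left, he.2, C.G_smul, he.1]; ring
    · rw [C.D_add_left, C.D_add_right, C.D_smul_right, hme, h2, C.D_smul_left, he.2, C.T_smul_mid,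
        C.T_add_right, C.T_smul_right, hmee, hmey]; ring
    · rw [C.D_add_left, C.D_add_right, C.D_smul_right, C.D_smul_left, he.2, C.T_smul_mid,
        C.T_add_right, C.T_smul_right, hyem, hyee, hτ]
      field_simp
      ring
    · rw [C.G_add, C.D_smul_right, C.D_smul_left, he.2, C.G_smul, he.1, hσ]
      field_simp
      ring
  refine ⟨_, _, C.smooth_of_dir (e := e) (v := v) hL ?_ ?_ ?_ ?_⟩
  · rw [C.D_add_left, hme, C.D_smul_left, he.2, C.T_smul_mid, hmee]; ring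
  · rw [C.T_add_left, C.T_add_mid, C.T_add_mid, C.T_smul_mid, C.T_smul_mid, C.T_smul_left,
      C.T_smul_left, hmye, hmee, heye, heee]; ring
  · rw [C.D_add_left, C.D_smul_left, he.2, C.T_smul_mid, hyee]; simpa using hy
  · rw [C.D_add_left, C.D_smul_left, he.2, C.T_smul_mid, C.T_swap12 m e v]
    simpa using hv

/-- T1 lines -/
theorem line_T1 {e m m' : V} (he : C.Sing e) (hm : C.G m = 0) (hme : C.D m e = 0)
    (hm' : C.G m' = 0) (hme' : C.D m' e = 0) (hc : C.T m m' e ≠ 0)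
    (hv : ∀ τ : K, ∃ v, C.D m v + τ * C.T e m v ≠ 0)
    (hv' : ∀ τ : K, ∃ v, C.D m' v + τ * C.T e m' v ≠ 0) :
    ∃ u w, C.IsSmoothLine u w := by
  set c := C.T m m' e with hcdef
  set τ := -(C.D m m') / c with hτ
  set σ := -(C.D m' m) / c with hσ
  have hmee : C.T m e e = 0 := he.T_self' m
  have hyee : C.T m' e e = 0 := he.T_self' m'
  have heee : C.T e e e = 0 := he.T_self' e
  have h1 : C.T m e m' = c := by rw [C.T_swap23, hcdef]
  have h2 : C.T m' e m = c := by rw [C.T_swap23, C.T_swap12, hcdef]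
  have heye : C.T e m' e = 0 := he.T_self'' m'
  have heme : C.T e m e = 0 := he.T_self'' m
  obtain ⟨v, hv⟩ := hv τ
  obtain ⟨v', hv'⟩ := hv' σ
  have hL : C.IsLine (m + τ • e) (m' + σ • e) := by
    refine ⟨?_, ?_, ?_, ?_⟩
    · rw [C.G_add, hm, C.D_smul_right, hme, C.D_smul_left, he.2, C.G_smul, he.1]; ring
    · rw [C.D_add_left, C.D_add_right, C.D_smul_right, hme, C.D_smul_left, he.2, C.T_smul_mid,
        C.T_add_right, C.T_smul_right, hmee, h1, hτ]
      field_simp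
      ring
    · rw [C.D_add_left, C.D_add_right, C.D_smul_right, hme', C.D_smul_left, he.2, C.T_smul_mid,
        C.T_add_right, C.T_smul_right, hyee, h2, hσ]
      field_simp
      ring
    · rw [C.G_add, hm', C.D_smul_right, hme', C.D_smul_left, he.2, C.G_smul, he.1]; ring
  refine ⟨_, _, hL, fun a b c' d => ?_⟩
  set u := m + τ • e with hu
  set w := m' + σ • e with hw
  have hue : C.D u e = 0 := by
    rw [hu, C.D_add_left, hme, C.D_smul_left, he.2, C.T_smul_mid, hmee]; ring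
  have hwe : C.D w e = 0 := by
    rw [hw, C.D_add_left, hme', C.D_smul_left, he.2, C.T_smul_mid, hyee]; ring
  have huwe : C.T u w e = c := by
    rw [hu, hw, C.T_add_left, C.T_add_mid, C.T_add_mid, C.T_smul_mid, C.T_smul_mid, C.T_smul_left,
      C.T_smul_left, hmee, heye, heee, ← hcdef]; ring
  have huv : C.D u v ≠ 0 := by
    rw [hu, C.D_add_left, C.D_smul_left, he.2, C.T_smul_mid, C.T_swap12 m e v]
    simpa using hv
  have hwv : C.D w v' ≠ 0 := by
    rw [hw, C.D_add_left, C.D_smul_left, he.2, C.T_smul_mid, C.T_swap12 m' e v']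
    simpa using hv'
  set x := a / C.D u v with hx
  set y := d / C.D w v' with hy
  refine ⟨((b - x * C.T u w v - y * C.D u v') / c) • e + x • v,
    ((c' - x * C.D w v - y * C.T u w v') / c) • e + y • v', ?_, ?_, ?_, ?_⟩
  · rw [C.D_add_right, C.D_smul_right, C.D_smul_right, hue, hx]
    field_simp
    ring
  · rw [C.T_add_right, C.T_smul_right, C.T_smul_right, C.D_add_right, C.D_smul_right,
      C.D_smul_right, hue, huwe]
    field_simp
    ring
  · rw [C.T_add_right, C.T_smul_right, C.T_smul_right, C.D_add_right, C.D_smul_right,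
      C.D_smul_right, hwe, huwe]
    field_simp
    ring
  · rw [C.D_add_right, C.D_smul_right, C.D_smul_right, hwe, hy]
    field_simp
    ring

/-- lines in the presence of two orthogonal singular points -/
theorem line_pencil {e₁ e₂ y y' : V} (h₁ : C.Sing e₁) (h₂ : C.Sing e₂)
    (hT : ∀ x, C.T e₁ e₂ x = 0) (hy1 : C.D y e₁ ≠ 0) (hy2 : C.D y e₂ = 0)
    (hyy : C.T y y' e₂ = 0) (hy' : C.D y' e₂ ≠ 0) : ∃ u w, C.IsSmoothLine u w := by
  set p₁ := C.D y e₁ with hp₁
  set q₂ := C.D y' e₂ with hq₂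
  set B := C.T y y' e₁ with hB
  set a₁ := -(C.G y) / p₁ with ha₁
  set b₁ := -(C.D y y' + a₁ * B) / p₁ with hb₁
  set a₂ := -(C.D y' y + a₁ * C.D y' e₁ + b₁ * B) / q₂ with ha₂
  set b₂ := -(C.G y' + b₁ * C.D y' e₁) / q₂ with hb₂
  have t11 : ∀ x, C.T x e₁ e₁ = 0 := h₁.T_self'
  have t22 : ∀ x, C.T x e₂ e₂ = 0 := h₂.T_self'
  have t12 : ∀ x, C.T x e₁ e₂ = 0 := fun x => by
    rw [C.T_swap12, C.T_swap23, hT]
  have t21 : ∀ x, C.T x e₂ e₁ = 0 := fun x => by
    rw [C.T_swap23, t12]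
  have tyy1 : C.T y' y e₁ = B := by rw [C.T_swap12, hB]
  have tyy2 : C.T y' y e₂ = 0 := by rw [C.T_swap12, hyy]
  have s1 : C.T y e₁ y' = B := by rw [C.T_swap23, hB]
  have s2 : C.T y e₂ y' = 0 := by rw [C.T_swap23, hyy]
  have s3 : C.T y' e₁ y = B := by rw [C.T_swap23, tyy1]
  have s4 : C.T y' e₂ y = 0 := by rw [C.T_swap23, tyy2]
  -- the singular vectors f = a₁ e₁ + a₂ e₂
  have hS : ∀ a b : K, C.Sing (a • e₁ + b • e₂) := fun a b =>
    (h₁.smul a).add (h₂.smul b) (fun x => by rw [C.T_smul_left, C.T_smul_mid, hT]; ring)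
  have hL : C.IsLine (y + (a₁ • e₁ + a₂ • e₂)) (y' + (b₁ • e₁ + b₂ • e₂)) := by
    have hA := hS a₁ a₂
    have hB' := hS b₁ b₂
    refine ⟨?_, ?_, ?_, ?_⟩
    · rw [C.G_add, hA.2, hA.1, C.D_add_right, C.D_smul_right, C.D_smul_right, hy2, ← hp₁, ha₁]
      field_simp
      ring
    · rw [C.D_add_left, C.D_add_right, C.D_add_right, C.D_smul_right, C.D_smul_right, hy2, ← hp₁,
        hA.2, C.T_add_right, C.T_add_right, C.T_smul_right, C.T_smul_right, C.T_add_mid,
        C.T_smul_mid, C.T_smul_mid, C.T_add_mid, C.T_add_mid, C.T_smul_mid, C.T_smul_mid,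
        C.T_smul_mid, C.T_smul_mid, t11, t12, t21, t22, s1, s2, hb₁]
      field_simp
      ring
    · rw [C.D_add_left, C.D_add_right, C.D_add_right, C.D_smul_right, C.D_smul_right, ← hq₂,
        hB'.2, C.T_add_right, C.T_add_right, C.T_smul_right, C.T_smul_right, C.T_add_mid,
        C.T_smul_mid, C.T_smul_mid, C.T_add_mid, C.T_add_mid, C.T_smul_mid, C.T_smul_mid,
        C.T_smul_mid, C.T_smul_mid, t11, t12, t21, t22, s3, s4, ha₂]
      field_simp
      ring
    · rw [C.G_add, hB'.2, hB'.1, C.D_add_right, C.D_smul_right, C.D_smul_right, ← hq₂, hb₂]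
      field_simp
      ring
  refine ⟨_, _, C.smooth_of_dir (e := e₂) (v := e₁) hL ?_ ?_ ?_ ?_⟩
  · rw [C.D_add_left, hy2, (hS _ _).2, C.T_add_mid, C.T_smul_mid, C.T_smul_mid, t12, t22]; ring
  · have u1 : ∀ x, C.T e₁ x e₂ = 0 := fun x => by rw [C.T_swap23, hT]
    have u2 : ∀ x, C.T e₂ x e₂ = 0 := fun x => by rw [C.T_swap12, t22]
    rw [C.T_add_left, C.T_add_mid, hyy, C.T_add_mid, C.T_smul_mid, C.T_smul_mid, t12, t22,
      C.T_add_left, C.T_smul_left, C.T_smul_left, u1, u2]; ring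
  · rw [C.D_add_left, (hS _ _).2, C.T_add_mid, C.T_smul_mid, C.T_smul_mid, t12, t22, ← hq₂]
    simpa using hy'
  · rw [C.D_add_left, (hS _ _).2, C.T_add_mid, C.T_smul_mid, C.T_smul_mid, t11, t21, ← hp₁]
    simpa using hy1

/-- two nonorthogonal singular points -/
theorem line_pair {e₁ e₂ y v : V} (h₁ : C.Sing e₁) (h₂ : C.Sing e₂) (hT : C.T e₁ e₂ y = 0)
    (hv : C.T e₁ e₂ v ≠ 0) (hy1 : C.D y e₁ ≠ 0) (hy2 : C.D y e₂ ≠ 0) :
    ∃ u w, C.IsSmoothLine u w := by
  refine C.line_T3 (e := e₁) (m := e₂) (y := y) (v := v) h₁ h₂.1 (h₂.2 _) hy1 hT (h₂.2 _) ?_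
  rw [h₂.2, zero_add]
  exact mul_ne_zero (div_ne_zero (neg_ne_zero.2 hy2) hy1) hv

end Cubic

end Pool.Agent.LibCubicLines
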