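import Pool.Agent.LibCubicLines.LineStep
import Pool.Agent.LibCubicLines.Reduction
import Pool.Agent.LibCubicLines.Chart
import Pool.Agent.LibCubicLines.Lines7

/-!
Every cubic form over `ℚ_[p]` in at least 13 variables vanishes on a two dimensional subspace.
-/

namespace Pool.Agent.LibCubicLines

open Module

/-- 13 variables -/
theorem exists_line13 (p : ℕ) [Fact p.Prime] (F : MvPolynomial (Fin 13) ℚ_[p])
    (hF : F.IsHomogeneous 3) :
    ∃ u w : Fin 13 → ℚ_[p], LinearIndependent ℚ_[p] ![u, w] ∧
      ∀ s t : ℚ_[p], MvPolynomial.eval (s • u + t • w) F = 0 := by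
  by_contra hcon
  obtain ⟨C, hred, hno⟩ := exists_reduced p F hF hcon
  obtain ⟨h1, h2, h3⟩ := chart C hred hno
  have hfr : finrank (ZMod p) (Fin 13 → ZMod p) = 13 := by simp
  apply h3
  refine (modp C).exists_smooth_line (fun W hW => h2 W (by omega)) (by omega) ?_
  intro W hW
  obtain ⟨u, w, hli, hl⟩ := exists_line7 ((modp C).comap W.subtype) hW
  refine ⟨u, u.2, w, w.2, ?_, hl⟩
  have h4 : (![(u : Fin 13 → ZMod p), w] : Fin 2 → Fin 13 → ZMod p) = W.subtype ∘ ![u, w] := by
    funext i
    fin_cases i <;> rfl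
  rw [h4]
  exact hli.map' W.subtype (Submodule.ker_subtype W)

/-- at least 13 variables -/
theorem exists_line_of_le (p : ℕ) [Fact p.Prime] {n : ℕ} (hn : 13 ≤ n)
    (F : MvPolynomial (Fin n) ℚ_[p]) (hF : F.IsHomogeneous 3) :
    ∃ u w : Fin n → ℚ_[p], LinearIndependent ℚ_[p] ![u, w] ∧
      ∀ s t : ℚ_[p], MvPolynomial.eval (s • u + t • w) F = 0 := by
  classical
  let g : Fin n → MvPolynomial (Fin 13) ℚ_[p] := fun i =>
    if h : (i : ℕ) < 13 then MvPolynomial.X ⟨i, h⟩ else 0
  have hg : ∀ i, (g i).IsHomogeneous 1 := by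
    intro i
    by_cases h : (i : ℕ) < 13
    · simp only [g, h, dif_pos]
      exact MvPolynomial.isHomogeneous_X _ _
    · simp only [g, h, dif_neg, not_false_eq_true]
      exact MvPolynomial.isHomogeneous_zero _ _ _
  have hG : (MvPolynomial.aeval g F).IsHomogeneous 3 := by
    have := hF.aeval g hg
    simpa using this
  obtain ⟨u, w, hli, hl⟩ := exists_line13 p _ hG
  let ext : (Fin 13 → ℚ_[p]) →ₗ[ℚ_[p]] (Fin n → ℚ_[p]) :=
    { toFun := fun x i => if h : (i : ℕ) < 13 then x ⟨i, h⟩ else 0
      map_add' := fun x y => by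
        funext i
        by_cases h : (i : ℕ) < 13 <;> simp [h]
      map_smul' := fun c x => by
        funext i
        by_cases h : (i : ℕ) < 13 <;> simp [h] }
  have hext : ∀ x i, ext x i = MvPolynomial.eval x (g i) := by
    intro x i
    by_cases h : (i : ℕ) < 13 <;> simp [ext, g, h]
  have hker : LinearMap.ker ext = ⊥ := by
    rw [LinearMap.ker_eq_bot]
    intro x y hxy
    funext i
    have h1 := congrFun hxy (Fin.castLE hn i)
    simpa [ext] using h1
  refine ⟨ext u, ext w, ?_, fun s t => ?_⟩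
  · have h4 : (![ext u, ext w] : Fin 2 → Fin n → ℚ_[p]) = ext ∘ ![u, w] := by
      funext i
      fin_cases i <;> rfl
    rw [h4]
    exact hli.map' ext hker
  · rw [← map_smul, ← map_smul, ← map_add]
    have h5 := hl s t
    have h6 : MvPolynomial.eval (s • u + t • w) (MvPolynomial.aeval g F) =
        MvPolynomial.eval (ext (s • u + t • w)) F := by
      have h7 : (ext (s • u + t • w)) = fun i => MvPolynomial.eval (s • u + t • w) (g i) :=
        funext fun i => hext _ i
      rw [h7]
      have h8 := MvPolynomial.comp_aeval_apply (f := g) (MvPolynomial.aeval (s • u + t • w)) F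
      simpa [MvPolynomial.coe_aeval_eq_eval] using h8
    rw [← h6]
    exact h5

end Pool.Agent.LibCubicLines
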